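import Pool.Agent.SYS.UP.Frac

/-!
# SYS-GS-Frc: fraction of the rooted triangulations with `HasSSC`

PROOF. Copy of `UP/Frac.lean` (`frac_sep`) with `HasSSC` (`RTri.HasSSC` is `Quotient.lift` of `T.HasSSC`, see `SST/E/Rooted.lean`, `GNH/Root.lean`): the private lemmas there are general.
-/

namespace SYS.GS

open SST

private theorem frc_rooted_symm {D D' : Type} (T : Tri D) (e : D ≃ D') :
    (T.map e).map e.symm = T := by
  rw [Tri.map_map, Equiv.self_trans_symm]
  exact Tri.ext' rfl rfl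

/-- the action of the permutations -/
private def frc_pact {n g : ℕ} (π : Equiv.Perm (Fin (6 * n))) (x : Pairs n g) : Pairs n g :=
  ⟨(x.1.1.map π, π x.1.2), (x.1.1.map_conn π).2 x.2.1, (x.1.1.map_genus π n g).2 x.2.2⟩

private theorem frc_pact_rel {n g : ℕ} {x y : Pairs n g} (h : (rootSetoid n g).r x y) :
    ∃ π, y = frc_pact π x := by
  obtain ⟨π, h1, h2⟩ := h
  exact ⟨π, Subtype.ext (Prod.ext h1 h2)⟩

private theorem frc_rel_pact {n g : ℕ} (π : Equiv.Perm (Fin (6 * n))) (x : Pairs n g) :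
    (rootSetoid n g).r x (frc_pact π x) := ⟨π, rfl, rfl⟩

private theorem frc_pact_inj {n g : ℕ} {π π' : Equiv.Perm (Fin (6 * n))} {x : Pairs n g}
    (h : frc_pact π x = frc_pact π' x) : π = π' := by
  have h1 : x.1.1.map π = x.1.1.map π' := congrArg (fun y : Pairs n g => y.1.1) h
  have h2 : π x.1.2 = π' x.1.2 := congrArg (fun y : Pairs n g => y.1.2) h
  have h3 : x.1.1.map (π.trans π'.symm) = x.1.1 := by
    rw [← Tri.map_map, h1, frc_rooted_symm]
  have h4 : (π.trans π'.symm) x.1.2 = x.1.2 := by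
    rw [Equiv.trans_apply, h2, Equiv.symm_apply_apply]
  have h5 := Tri.free x.1.1 x.2.1 h3 h4
  ext d
  have h6 : (π.trans π'.symm) d = d := by
    rw [h5]
    rfl
  rw [Equiv.trans_apply, Equiv.symm_apply_eq] at h6
  rw [h6]

private theorem frc_card_cls {n g : ℕ} (P : RTri n g → Prop) :
    Nat.card {q : RTri n g // P q} * (6 * n).factorial =
      Nat.card {x : Pairs n g // P (Quotient.mk (rootSetoid n g) x)} := by
  have hout : ∀ q : RTri n g, Quotient.mk (rootSetoid n g) q.out = q := fun q => q.out_eq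
  have hact : ∀ (π : Equiv.Perm (Fin (6 * n))) (x : Pairs n g),
      Quotient.mk (rootSetoid n g) (frc_pact π x) = Quotient.mk (rootSetoid n g) x := fun π x =>
    Quotient.sound ((rootSetoid n g).iseqv.symm (frc_rel_pact π x))
  let Ψ : {q : RTri n g // P q} × Equiv.Perm (Fin (6 * n)) →
      {x : Pairs n g // P (Quotient.mk (rootSetoid n g) x)} := fun y =>
    ⟨frc_pact y.2 y.1.1.out, by rw [hact, hout]; exact y.1.2⟩
  have hΨ : Function.Bijective Ψ := by
    constructor
    · rintro ⟨⟨q, hq⟩, π⟩ ⟨⟨q', hq'⟩, π'⟩ h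
      have h1 : frc_pact π q.out = frc_pact π' q'.out := congrArg Subtype.val h
      have h2 : q = q' := by
        rw [← hout q, ← hout q', ← hact π q.out, ← hact π' q'.out, h1]
      subst h2
      have h3 := frc_pact_inj h1
      subst h3
      rfl
    · rintro ⟨x, hx⟩
      have h1 : (rootSetoid n g).r (Quotient.mk (rootSetoid n g) x : RTri n g).out x :=
        Quotient.exact (hout _)
      obtain ⟨π, hπ⟩ := frc_pact_rel h1
      exact ⟨(⟨Quotient.mk (rootSetoid n g) x, hx⟩, π), Subtype.ext hπ.symm⟩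
  rw [← Nat.card_congr (Equiv.ofBijective Ψ hΨ), Nat.card_prod, Nat.card_eq_fintype_card
    (α := Equiv.Perm (Fin (6 * n))), Fintype.card_perm, Fintype.card_fin]

private theorem frc_card_pairs {n g : ℕ} (Q : Tri (Fin (6 * n)) → Prop) :
    Nat.card {x : Pairs n g // Q x.1.1} = {T | T ∈ Trn n g ∧ Q T}.ncard * (6 * n) := by
  have e : {x : Pairs n g // Q x.1.1} ≃ {T | T ∈ Trn n g ∧ Q T} × Fin (6 * n) :=
    { toFun := fun x => (⟨x.1.1.1, x.1.2, x.2⟩, x.1.1.2)
      invFun := fun y => ⟨⟨(y.1.1, y.2), y.1.2.1⟩, y.1.2.2⟩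
      left_inv := fun x => rfl
      right_inv := fun y => rfl }
  rw [Nat.card_congr e, Nat.card_prod, Nat.card_eq_fintype_card (α := Fin (6 * n)),
    Fintype.card_fin]
  rfl

theorem frac_ssc {n g : ℕ} (hn : 1 ≤ n) (L : ℝ) :
    Pr (n := n) (g := g) (fun q => q.HasSSC L) = ({T | T ∈ Trn n g ∧ T.HasSSC L}.ncard : ℝ) / (Trn n g).ncard := by
  unfold Pr
  have h1 : Nat.card {q : RTri n g // q.HasSSC L} * (6 * n).factorial =
      {T | T ∈ Trn n g ∧ T.HasSSC L}.ncard * (6 * n) := by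
    rw [frc_card_cls, ← frc_card_pairs]
    rfl
  have h2 : Nat.card (RTri n g) * (6 * n).factorial = (Trn n g).ncard * (6 * n) := by
    have h3 := frc_card_cls (n := n) (g := g) (fun _ => True)
    have h4 := frc_card_pairs (n := n) (g := g) (fun _ => True)
    rw [Nat.card_congr (Equiv.subtypeUnivEquiv (fun _ : RTri n g => trivial))] at h3
    rw [h3]
    refine h4.trans ?_
    simp only [and_true]
    rfl
  have h1' : (Nat.card {q : RTri n g // q.HasSSC L} : ℝ) * ((6 * n).factorial : ℝ) =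
      ({T | T ∈ Trn n g ∧ T.HasSSC L}.ncard : ℝ) * (6 * n : ℝ) := by
    exact_mod_cast h1
  have h2' : (Nat.card (RTri n g) : ℝ) * ((6 * n).factorial : ℝ) =
      ((Trn n g).ncard : ℝ) * (6 * n : ℝ) := by
    exact_mod_cast h2
  have k1 : ((6 * n).factorial : ℝ) ≠ 0 := by exact_mod_cast Nat.factorial_ne_zero _
  have k2 : (6 * n : ℝ) ≠ 0 := by
    have : (1 : ℝ) ≤ n := by exact_mod_cast hn
    positivity
  rw [← mul_div_mul_right _ _ k1, h1', h2', mul_div_mul_right _ _ k2]

end SYS.GS
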