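import Pool.Agent.SYS.GS.Trf

/-!
# SYS-GS-CardB: number of the marked vertices

PROOF. `cardB`: `(Nb T X).ncard ≤ Nr T X` (if `Nb T X` is not empty there is a minimizer, `mzf_spec`). The set is the disjoint union over `T ∈ Trn n g` of the darts `y` with `T.tl y ∈ Nb T X`, `T.deg y = q`: at most `q` for every vertex of `Nb T X` (`T.deg y` = number of darts with the tail of `y`).
-/

namespace SYS.GS

open Classical SST GNH

private theorem cb_nb {D : Type} {T : Tri D} {X : ℕ} {v : T.V} (hv : v ∈ Nb T X) :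
    Nr T X = {v | 2 ≤ cnt T (mzf T) v}.ncard ∧ 2 ≤ cnt T (mzf T) v := by
  have h1 := mzf_spec hv.1
  have h2 := hv.2 _ h1
  refine ⟨?_, h2.1⟩
  unfold Nr
  rw [if_pos ⟨hv.1, h2.2⟩]

private theorem cb_one {D : Type} [Finite D] (T : Tri D) (q X : ℕ) :
    {y : D | T.tl y ∈ Nb T X ∧ T.deg y = q}.ncard ≤ q * Nr T X := by
  obtain ⟨Y, hY⟩ : ∃ Y : Finset D, (Y : Set D) = {y : D | T.tl y ∈ Nb T X ∧ T.deg y = q} :=
    ⟨(Set.toFinite _).toFinset, Set.Finite.coe_toFinset _⟩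
  have hYm : ∀ y, y ∈ Y ↔ T.tl y ∈ Nb T X ∧ T.deg y = q := by
    intro y
    rw [← Finset.mem_coe, hY]
    exact Iff.rfl
  rw [← hY, Set.ncard_coe_finset]
  rcases Y.eq_empty_or_nonempty with h0 | ⟨y0, hy0⟩
  · rw [h0, Finset.card_empty]
    exact Nat.zero_le _
  have h1 : (Y.image T.tl).card ≤ Nr T X := by
    rw [(cb_nb ((hYm y0).1 hy0).1).1, ← Set.ncard_coe_finset]
    refine Set.ncard_le_ncard (fun v hv => ?_) (rep_finite T _)
    obtain ⟨y, hy, rfl⟩ := Finset.mem_image.1 (Finset.mem_coe.1 hv)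
    exact (cb_nb ((hYm y).1 hy).1).2
  refine (Finset.card_le_mul_card_image Y q fun v hv => ?_).trans (Nat.mul_le_mul le_rfl h1)
  obtain ⟨y, hy, rfl⟩ := Finset.mem_image.1 hv
  have h2 := ((hYm y).1 hy).2
  unfold Tri.deg at h2
  rw [← h2, ← Set.ncard_coe_finset]
  refine Set.ncard_le_ncard (fun e he => ?_) (Set.toFinite _)
  exact (Finset.mem_filter.1 (Finset.mem_coe.1 he)).2

theorem cardB (n g q X : ℕ) :
    (({p : Tri (Fin (6 * n)) × Fin (6 * n) | p.1 ∈ Trn n g ∧ p.1.tl p.2 ∈ Nb p.1 X ∧ p.1.deg p.2 = q}.ncard : ℕ) : ℝ) ≤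
      q * NS n g X := by
  obtain ⟨A, hA⟩ : ∃ A : Finset (Tri (Fin (6 * n)) × Fin (6 * n)),
      (A : Set _) = {p : Tri (Fin (6 * n)) × Fin (6 * n) | p.1 ∈ Trn n g ∧ p.1.tl p.2 ∈ Nb p.1 X ∧ p.1.deg p.2 = q} :=
    ⟨(Set.toFinite _).toFinset, Set.Finite.coe_toFinset _⟩
  have hAm : ∀ p, p ∈ A ↔ p.1 ∈ Trn n g ∧ p.1.tl p.2 ∈ Nb p.1 X ∧ p.1.deg p.2 = q := by
    intro p
    rw [← Finset.mem_coe, hA]
    exact Iff.rfl
  rw [← hA, Set.ncard_coe_finset]
  have h1 : A.card = ∑ T ∈ (Set.toFinite (Trn n g)).toFinset, (A.filter fun p => p.1 = T).card := by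
    refine Finset.card_eq_sum_card_fiberwise fun p hp => ?_
    rw [Finset.mem_coe, Set.Finite.mem_toFinset]
    exact ((hAm p).1 (Finset.mem_coe.1 hp)).1
  have h2 : ∀ T ∈ (Set.toFinite (Trn n g)).toFinset, (A.filter fun p => p.1 = T).card ≤ q * Nr T X := by
    intro T _
    refine le_trans ?_ (cb_one T q X)
    rw [← Set.ncard_coe_finset]
    refine Set.ncard_le_ncard_of_injOn (fun p => p.2) (fun p hp => ?_) (fun p hp p' hp' h => ?_) (Set.toFinite _)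
    · obtain ⟨h3, h4⟩ := Finset.mem_filter.1 (Finset.mem_coe.1 hp)
      subst h4
      exact ((hAm p).1 h3).2
    · obtain ⟨-, h4⟩ := Finset.mem_filter.1 (Finset.mem_coe.1 hp)
      obtain ⟨-, h4'⟩ := Finset.mem_filter.1 (Finset.mem_coe.1 hp')
      exact Prod.ext (h4.trans h4'.symm) h
  unfold NS
  rw [h1, Finset.mul_sum]
  push_cast
  refine Finset.sum_le_sum fun T hT => ?_
  exact_mod_cast h2 T hT

end SYS.GS
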