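import Pool.Agent.SYS.GS.Defs

/-!
# SYS-GS-Lnk: a shortest link between two disjoint sets of vertices

PROOF. Choose `γ` with the least length among all walks from a vertex `u ∈ A` to a vertex `v ∈ B` (`Nat.find` of `{n | ∃ u ∈ A, ∃ v ∈ B, ∃ γ, IsWalk u γ v ∧ γ.length = n}`, non-empty by `hd`; the least length is `≤ t`). `γ ≠ []` as `A`, `B` are disjoint. Nodup: if the vertex `y` occurs twice in the list `γ.map T.tl ++ [v]`
then the part between the two occurrences can be cut out (`γ = γ1 ++ γ2 ++ γ3`, `γ2 ≠ []` a closed walk: `walk_split`, `walk_append`): shorter. If a dart `d ∈ γ` has `T.tl d ≠ u` then `γ = γ1 ++ d :: γ2` with `γ1 ≠ []` (`γ1 = []` means `T.tl d = u`); `T.tl d ∈ A`: the walk `d :: γ2` from `A` to `B` is shorter; `T.tl d ∈ B`: `γ1` is shorter.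
-/

namespace SYS.GS

open Classical SST GNH

variable {D : Type} {T : Tri D}

private theorem lk_cut {u v : T.V} {γ : List D} {d : D} (h : T.IsWalk u γ v) (hd : d ∈ γ) :
    ∃ γ1 γ2, γ = γ1 ++ d :: γ2 ∧ T.IsWalk u γ1 (T.tl d) ∧ T.IsWalk (T.tl d) (d :: γ2) v := by
  obtain ⟨γ1, γ2, rfl⟩ := List.append_of_mem hd
  obtain ⟨y, h1, h2⟩ := T.walk_split h
  have h3 : T.tl d = y := h2.1
  subst h3
  exact ⟨γ1, γ2, rfl, h1, h2⟩

private theorem lk_short {u v : T.V} {γ : List D} (h : T.IsWalk u γ v) (hn : ¬ (γ.map T.tl ++ [v]).Nodup) :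
    ∃ γ', T.IsWalk u γ' v ∧ γ'.length < γ.length := by
  induction γ generalizing u with
  | nil => exact absurd (by simp) hn
  | cons d γ ih =>
    by_cases h1 : (γ.map T.tl ++ [v]).Nodup
    · have h2 : T.tl d ∈ γ.map T.tl ++ [v] := by
        by_contra h3
        exact hn (by
          rw [List.map_cons, List.cons_append, List.nodup_cons]
          exact ⟨h3, h1⟩)
      rcases List.mem_append.1 h2 with h3 | h3
      · obtain ⟨e, he, h4⟩ := List.mem_map.1 h3
        obtain ⟨γ1, γ2, rfl, -, h5⟩ := lk_cut h.2 he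
        refine ⟨e :: γ2, ?_, ?_⟩
        · rw [h4, h.1] at h5
          exact h5
        · simp only [List.length_cons, List.length_append]
          omega
      · rw [List.mem_singleton] at h3
        refine ⟨[], ?_, by simp⟩
        show u = v
        rw [← h.1, h3]
    · obtain ⟨γ', h2, h3⟩ := ih h.2 h1
      refine ⟨d :: γ', ⟨h.1, h2⟩, ?_⟩
      simp only [List.length_cons]
      omega

theorem short_link {A B : Set T.V} {t : ℕ} {u0 v0 : T.V} (hu : u0 ∈ A) (hv : v0 ∈ B) (hd : Dle T t u0 v0) (hAB : Disjoint A B) :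
    ∃ u ∈ A, ∃ v ∈ B, ∃ γ : List D, T.IsWalk u γ v ∧ γ ≠ [] ∧ γ.length ≤ t ∧ (γ.map T.tl ++ [v]).Nodup ∧
      ∀ d ∈ γ, T.tl d ≠ u → T.tl d ∉ A ∧ T.tl d ∉ B := by
  obtain ⟨γ0, h0, h0t⟩ := hd
  have hex : ∃ n, ∃ u ∈ A, ∃ v ∈ B, ∃ γ : List D, T.IsWalk u γ v ∧ γ.length = n := ⟨_, u0, hu, v0, hv, γ0, h0, rfl⟩
  obtain ⟨u, huA, v, hvB, γ, h1, h2⟩ := Nat.find_spec hex
  have hmin : ∀ u' ∈ A, ∀ v' ∈ B, ∀ γ' : List D, T.IsWalk u' γ' v' → γ.length ≤ γ'.length := by
    intro u' hu' v' hv' γ' h'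
    rw [h2]
    exact Nat.find_min' hex ⟨u', hu', v', hv', γ', h', rfl⟩
  refine ⟨u, huA, v, hvB, γ, h1, ?_, (hmin u0 hu v0 hv γ0 h0).trans h0t, ?_, ?_⟩
  · rintro rfl
    have h3 : u = v := h1
    exact Set.disjoint_left.1 hAB huA (by rw [h3]; exact hvB)
  · by_contra h3
    obtain ⟨γ', h4, h5⟩ := lk_short h1 h3
    have := hmin u huA v hvB γ' h4
    omega
  · intro d hdγ hdu
    obtain ⟨γ1, γ2, h3, h4, h5⟩ := lk_cut h1 hdγ
    have h6 : γ1 ≠ [] := by
      rintro rfl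
      exact hdu (h4 : u = T.tl d).symm
    have h7 := List.length_pos_iff.2 h6
    have h8 : γ.length = γ1.length + (γ2.length + 1) := by
      rw [h3, List.length_append, List.length_cons]
    refine ⟨fun h => ?_, fun h => ?_⟩
    · have := hmin _ h v hvB _ h5
      rw [List.length_cons] at this
      omega
    · have := hmin u huA _ h _ h4
      omega

end SYS.GS
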