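import Pool.Agent.SYS.GS.Defs

/-!
# SYS-GS-Seg: parts of a periodic walk, forwards or backwards

PROOF. `seg T w i j` is `st w i (j - i)` for `i ≤ j` and the reverse of `st w j (i - j)` for `j < i`. `PW.st_walk`, `walk_rev`, `st_length`, `mem_st`. `seg_tl`: forwards `T.tl (w n)`, `i ≤ n < j`; backwards `T.tl (T.a (w n)) = T.hd (w n) = T.tl (w (n + 1))` (`PW.walk`), `j ≤ n < i`.
`seg_nodup`: the list of the vertices is `T.tl (w i), …, T.tl (w j)` (forwards or backwards: for the reverse of `st w j (i - j)` the tails are `T.tl (w i), T.tl (w (i - 1)), …, T.tl (w (j + 1))`); `List.nodup_append`, `List.Nodup.map_on`, or induction on the length.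
-/

namespace SYS.GS

open Classical SST GNH

variable {D : Type} {T : Tri D} {w : ℕ → D} {l : ℕ}

theorem seg_walk (h : PW T w l) (i j : ℕ) : T.IsWalk (T.tl (w i)) (seg T w i j) (T.tl (w j)) := by
  unfold seg
  split_ifs with hij
  · have h1 := h.st_walk i (j - i)
    have h2 : i + (j - i) = j := by omega
    rw [h2] at h1
    exact h1
  · have h1 := h.st_walk j (i - j)
    have h2 : j + (i - j) = i := by omega
    rw [h2] at h1
    exact T.walk_rev h1

theorem seg_length (T : Tri D) (w : ℕ → D) (i j : ℕ) : (seg T w i j).length = ab i j := by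
  unfold seg ab
  split_ifs with hij
  · rw [st_length]
    omega
  · rw [List.length_reverse, List.length_map, st_length]
    omega

theorem mem_seg (T : Tri D) (w : ℕ → D) {i j : ℕ} {d : D} :
    d ∈ seg T w i j ↔ (∃ n, i ≤ n ∧ n < j ∧ d = w n) ∨ (∃ n, j ≤ n ∧ n < i ∧ d = T.a (w n)) := by
  unfold seg
  split_ifs with hij
  · rw [mem_st]
    constructor
    · rintro ⟨m, hm, rfl⟩
      exact Or.inl ⟨i + m, by omega, by omega, rfl⟩
    · rintro (⟨n, h1, h2, rfl⟩ | ⟨n, h1, h2, -⟩)
      · exact ⟨n - i, by omega, by congr 1; omega⟩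
      · omega
  · rw [List.mem_reverse, List.mem_map]
    constructor
    · rintro ⟨e, he, rfl⟩
      obtain ⟨m, hm, rfl⟩ := mem_st.1 he
      exact Or.inr ⟨j + m, by omega, by omega, rfl⟩
    · rintro (⟨n, h1, h2, -⟩ | ⟨n, h1, h2, rfl⟩)
      · omega
      · exact ⟨w n, mem_st.2 ⟨n - j, by omega, by congr 1; omega⟩, rfl⟩

theorem seg_tl (h : PW T w l) {i j : ℕ} {d : D} (hd : d ∈ seg T w i j) :
    ∃ n, min i j ≤ n ∧ n ≤ max i j ∧ n ≠ j ∧ T.tl d = T.tl (w n) := by
  rcases (mem_seg T w).1 hd with ⟨n, h1, h2, rfl⟩ | ⟨n, h1, h2, rfl⟩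
  · exact ⟨n, by omega, by omega, by omega, rfl⟩
  · exact ⟨n + 1, by omega, by omega, by omega, h.walk n⟩

private theorem sg_nd (h : PW T w l) {i k : ℕ} (hn : ∀ m n, i ≤ m → m < n → n ≤ i + k → T.tl (w m) ≠ T.tl (w n)) :
    ((st w i (k + 1)).map T.tl).Nodup := by
  have _ := h
  unfold st
  rw [List.map_map]
  refine List.Nodup.map_on ?_ List.nodup_range
  intro a ha b hb hab
  rw [List.mem_range] at ha hb
  have hab' : T.tl (w (i + a)) = T.tl (w (i + b)) := hab
  rcases lt_trichotomy a b with h1 | h1 | h1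
  · exact absurd hab' (hn _ _ (by omega) (by omega) (by omega))
  · exact h1
  · exact absurd hab'.symm (hn _ _ (by omega) (by omega) (by omega))

theorem seg_nodup (h : PW T w l) {i j : ℕ}
    (hn : ∀ m n, min i j ≤ m → m < n → n ≤ max i j → T.tl (w m) ≠ T.tl (w n)) :
    ((seg T w i j).map T.tl ++ [T.tl (w j)]).Nodup := by
  unfold seg
  split_ifs with hij
  · have h1 : (st w i (j - i)).map T.tl ++ [T.tl (w j)] = (st w i (j - i + 1)).map T.tl := by
      rw [st_succ, List.map_append, List.map_singleton]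
      congr 4
      omega
    rw [h1]
    exact sg_nd h fun m n h2 h3 h4 => hn m n (by omega) h3 (by omega)
  · have h1 : (((st w j (i - j)).map T.a).reverse.map T.tl ++ [T.tl (w j)]) = ((st w j (i - j + 1)).map T.tl).reverse := by
      have e1 : st w j (i - j + 1) = w j :: st w (j + 1) (i - j) := by
        rw [Nat.add_comm, st_add]
        have : st w j 1 = [w j] := by
          rw [← Nat.zero_add 1, st_succ, st_zero]
          rfl
        rw [this]
        rfl
      have e2 : ((st w j (i - j)).map T.a).map T.tl = (st w (j + 1) (i - j)).map T.tl := by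
        unfold st
        rw [List.map_map, List.map_map, List.map_map]
        refine List.map_congr_left fun m _ => ?_
        show T.hd (w (j + m)) = T.tl (w (j + 1 + m))
        rw [h.walk]
        congr 2
        omega
      rw [List.map_reverse, e2, e1, List.map_cons, List.reverse_cons]
    rw [h1, List.nodup_reverse]
    exact sg_nd h fun m n h2 h3 h4 => hn m n (by omega) h3 (by omega)

end SYS.GS
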