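import Pool.Agent.SYS.GS.Fb
import Pool.Agent.SYS.GS.Seg
import Pool.Agent.SYS.GS.Lnk

/-!
# SYS-GS-AsmA: two parallel strands contain a ladder: a path `α' γ β'` with close ends

PROOF. `A = {T.tl (w i) | p ≤ i ≤ p'}`, `B = {T.tl (w i) | min j j' ≤ i ≤ max j j'}`: disjoint (`hnr`, `hres`). `short_link` with `u0 = T.tl (w p)`, `v0 = T.tl (w j)`: `γ` from `T.tl (w i1)` to `T.tl (w j1)`. If `i1 ≥ p + 20 t` take `i0 = p`, `j0 = j`, `δ` = a walk of length `≤ t` from `T.tl (w j)` to `T.tl (w p)` (`Dle.symm`);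
otherwise `i0 = p'`, `j0 = j'`, `δ` from `T.tl (w j')` to `T.tl (w p')` (`p' - i1 ≥ 20 t`). `nd`: the vertices of `seg T w i0 i1` (with its end) are `T.tl (w n)`, `n` between `i0` and `i1` (in `[p, p']`), pairwise different by `hnr` (two numbers of `[p, p']` are congruent mod `l` only if equal: `p' - p < l` by `Mzw.qgb`); same for `seg T w j1 j0`
(`ab j j' < l` by `Mzw.qgb`); the inner vertices of `γ` are different and not in `A`, `B`; `A`, `B` disjoint: `seg_nodup`, `seg_tl`, `List.nodup_append`. `fl`: the closed walk `seg ++ γ ++ seg ++ δ` lies in the ball of radius `m` around `x` (vertices of `γ` and `δ` are within `t` of a vertex `T.tl (w n)`, `n ∈ [p, p']`, so within `r + t ≤ m`): `fb_hol` with `c' = []`.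
`β0`: if `j1 = j0` then `dst (T.tl (w i0)) (T.tl (w i1)) ≤ 2 t` (`γ`, `δ`), but `8 * ab i0 i1 ≤ 9 * dst` (`Mzw.qgb`) and `ab i0 i1 ≥ 20 t`. `bl`: as above. `res`: the intervals between `i0, i1` and between `j0, j1` are contained in the given ones.
-/

namespace SYS.GS

open Classical SST GNH

variable {D : Type} {T : Tri D} {w : ℕ → D} {l : ℕ}

/-- A ladder: the path `seg i0 i1, γ, seg j1 j0` has different vertices, and its ends are close (`δ`). -/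
structure Lad (T : Tri D) (w : ℕ → D) (l t m : ℕ) (x : T.V) (i0 i1 j1 j0 : ℕ) (γ δ : List D) : Prop where
  wγ : T.IsWalk (T.tl (w i1)) γ (T.tl (w j1))
  γ0 : γ ≠ []
  γt : γ.length ≤ t
  big : 20 * t ≤ ab i0 i1
  β0 : j1 ≠ j0
  nd : ((seg T w i0 i1 ++ γ ++ seg T w j1 j0).map T.tl ++ [T.tl (w j0)]).Nodup
  wδ : T.IsWalk (T.tl (w j0)) δ (T.tl (w i0))
  δt : δ.length ≤ t
  fl : ∀ (G : Type) (_ : Group G) (lab : D → G), Flat T lab → hol lab (seg T w i0 i1 ++ γ ++ seg T w j1 j0 ++ δ) = 1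
  bl : ∀ d ∈ seg T w i0 i1 ++ γ ++ seg T w j1 j0, Dle T m x (T.tl d)
  bl' : Dle T m x (T.tl (w j0))
  res : ∀ a b, min i0 i1 ≤ a → a ≤ max i0 i1 → min j0 j1 ≤ b → b ≤ max j0 j1 → a % l ≠ b % l
  li : ab i0 i1 < l
  lj : ab j0 j1 < l

/-- Darts of a short walk are close to its origin. -/
private theorem walk_near {u v : T.V} {γ : List D} {t : ℕ} (hγ : T.IsWalk u γ v) (ht : γ.length ≤ t) :
    ∀ d ∈ γ, Dle T t u (T.tl d) ∧ Dle T t u (T.hd d) := by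
  intro d hd
  obtain ⟨l1, l2, rfl⟩ := List.append_of_mem hd
  obtain ⟨m, h1, h2⟩ := T.walk_split hγ
  have e : T.tl d = m := h2.1
  subst e
  rw [List.length_append, List.length_cons] at ht
  have a1 : Dle T l1.length u (T.tl d) := ⟨l1, h1, le_refl _⟩
  exact ⟨a1.mono (by omega), (a1.trans (dle_hd T d)).mono (by omega)⟩

private theorem seg_ends (h : PW T w l) {i j : ℕ} {d : D} (hd : d ∈ seg T w i j) :
    ∃ n n' : ℕ, (min i j ≤ n ∧ n ≤ max i j) ∧ (min i j ≤ n' ∧ n' ≤ max i j) ∧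
      T.tl d = T.tl (w n) ∧ T.hd d = T.tl (w n') := by
  rcases (mem_seg T w).1 hd with ⟨n, h1, h2, rfl⟩ | ⟨n, h1, h2, rfl⟩
  · exact ⟨n, n + 1, ⟨by omega, by omega⟩, ⟨by omega, by omega⟩, rfl, h.walk n⟩
  · refine ⟨n + 1, n, ⟨by omega, by omega⟩, ⟨by omega, by omega⟩, ?_, T.hd_a (w n)⟩
    exact h.walk n

private theorem qgb_ab (hT : T.Conn) (h : Mzw T w l) {x : T.V} {m i j : ℕ} (hF : FB T x (4 * m + 1))
    (hin : ∀ n, min i j ≤ n → n ≤ max i j → Dle T m x (T.tl (w n))) :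
    ab i j < l ∧ 8 * ab i j ≤ 9 * dst T (T.tl (w i)) (T.tl (w j)) := by
  rcases le_total i j with hij | hij
  · have h1 := h.qgb hT hF (i := i) (k := j - i) (fun n hn => hin (i + n) (by omega) (by omega))
    have h2 : ab i j = j - i := by unfold ab; omega
    rw [h2]
    rw [Nat.add_sub_cancel' hij] at h1
    exact h1
  · have h1 := h.qgb hT hF (i := j) (k := i - j) (fun n hn => hin (j + n) (by omega) (by omega))
    have h2 : ab i j = i - j := by unfold ab; omega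
    rw [h2]
    rw [Nat.add_sub_cancel' hij, dst_comm] at h1
    exact h1

private theorem seg_nd (hT : T.Conn) (h : Mzw T w l) {x : T.V} {m i j : ℕ} (hF : FB T x (4 * m + 1))
    (hin : ∀ n, min i j ≤ n → n ≤ max i j → Dle T m x (T.tl (w n)))
    (hnr : ∀ a b, Dle T m x (T.tl (w a)) → T.tl (w a) = T.tl (w b) → a % l = b % l) :
    ((seg T w i j).map T.tl ++ [T.tl (w j)]).Nodup := by
  refine seg_nodup h.toPW fun a b ha hab hb he => ?_
  have h1 := hnr a b (hin a ha (by omega)) he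
  have h2 := (qgb_ab hT h hF hin).1
  have h3 : b - a < l := by
    have h4 : ab i j = max i j - min i j := by
      unfold ab
      omega
    omega
  have h5 : (b - a) % l = 0 := (Nat.modEq_iff_dvd' hab.le).1 h1 |> Nat.mod_eq_zero_of_dvd
  rw [Nat.mod_eq_of_lt h3] at h5
  omega

private theorem lad_of (hT : T.Conn) (h : Mzw T w l) {x : T.V} {m r t p p' j j' : ℕ} (hF : FB T x (4 * m + 1)) (ht : 1 ≤ t)
    (hr : r + t ≤ m) (hα : ∀ i, p ≤ i → i ≤ p' → Dle T r x (T.tl (w i)))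
    (hβ : ∀ i, min j j' ≤ i → i ≤ max j j' → Dle T m x (T.tl (w i)))
    (hres : ∀ a b, p ≤ a → a ≤ p' → min j j' ≤ b → b ≤ max j j' → a % l ≠ b % l)
    (hnr : ∀ a b, Dle T m x (T.tl (w a)) → T.tl (w a) = T.tl (w b) → a % l = b % l)
    {i0 i1 j1 j0 : ℕ} {γ : List D} (hi0 : p ≤ i0 ∧ i0 ≤ p') (hi1 : p ≤ i1 ∧ i1 ≤ p')
    (hj1 : min j j' ≤ j1 ∧ j1 ≤ max j j') (hj0 : min j j' ≤ j0 ∧ j0 ≤ max j j')
    (hγ : T.IsWalk (T.tl (w i1)) γ (T.tl (w j1))) (hγ0 : γ ≠ []) (hγt : γ.length ≤ t)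
    (hγn : (γ.map T.tl ++ [T.tl (w j1)]).Nodup)
    (hγA : ∀ d ∈ γ, T.tl d ≠ T.tl (w i1) → (∀ i, p ≤ i → i ≤ p' → T.tl (w i) ≠ T.tl d) ∧
      ∀ i, min j j' ≤ i → i ≤ max j j' → T.tl (w i) ≠ T.tl d)
    (hbig : 20 * t ≤ ab i0 i1) (hδ : Dle T t (T.tl (w j0)) (T.tl (w i0))) :
    ∃ δ : List D, Lad T w l t m x i0 i1 j1 j0 γ δ := by
  obtain ⟨δ, hδ1, hδ2⟩ := hδ
  have hinα : ∀ n, min i0 i1 ≤ n → n ≤ max i0 i1 → Dle T m x (T.tl (w n)) := fun n h1 h2 =>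
    (hα n (by omega) (by omega)).mono (by omega)
  have hinβ : ∀ n, min j1 j0 ≤ n → n ≤ max j1 j0 → Dle T m x (T.tl (w n)) := fun n h1 h2 =>
    hβ n (by omega) (by omega)
  have hqα := qgb_ab hT h hF hinα
  have hqβ := qgb_ab hT h hF hinβ
  have hAB : ∀ a b, p ≤ a → a ≤ p' → min j j' ≤ b → b ≤ max j j' → T.tl (w a) ≠ T.tl (w b) := by
    intro a b h1 h2 h3 h4 he
    exact hres a b h1 h2 h3 h4 (hnr a b ((hα a h1 h2).mono (by omega)) he)
  have hnγ := walk_near hγ hγt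
  have hnδ : ∀ d ∈ δ, Dle T t (T.tl (w i0)) (T.tl d) ∧ Dle T t (T.tl (w i0)) (T.hd d) := by
    intro d hd
    have h1 := T.walk_rev hδ1
    have h2 : ((δ.map T.a).reverse).length ≤ t := by
      rw [List.length_reverse, List.length_map]
      exact hδ2
    have h3 : T.a d ∈ (δ.map T.a).reverse := List.mem_reverse.2 (List.mem_map_of_mem hd)
    obtain ⟨h4, h5⟩ := walk_near h1 h2 _ h3
    rw [T.hd_a] at h5
    exact ⟨h5, h4⟩
  have hbγ : ∀ d ∈ γ, Dle T m x (T.tl d) ∧ Dle T m x (T.hd d) := fun d hd =>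
    ⟨((hα i1 hi1.1 hi1.2).trans (hnγ d hd).1).mono hr, ((hα i1 hi1.1 hi1.2).trans (hnγ d hd).2).mono hr⟩
  have hbδ : ∀ d ∈ δ, Dle T m x (T.tl d) ∧ Dle T m x (T.hd d) := fun d hd =>
    ⟨((hα i0 hi0.1 hi0.2).trans (hnδ d hd).1).mono hr, ((hα i0 hi0.1 hi0.2).trans (hnδ d hd).2).mono hr⟩
  have hbα : ∀ d ∈ seg T w i0 i1, Dle T m x (T.tl d) ∧ Dle T m x (T.hd d) := by
    intro d hd
    obtain ⟨n, n', h1, h2, h3, h4⟩ := seg_ends h.toPW hd
    rw [h3, h4]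
    exact ⟨hinα n h1.1 h1.2, hinα n' h2.1 h2.2⟩
  have hbβ : ∀ d ∈ seg T w j1 j0, Dle T m x (T.tl d) ∧ Dle T m x (T.hd d) := by
    intro d hd
    obtain ⟨n, n', h1, h2, h3, h4⟩ := seg_ends h.toPW hd
    rw [h3, h4]
    exact ⟨hinβ n h1.1 h1.2, hinβ n' h2.1 h2.2⟩
  refine ⟨δ, ⟨hγ, hγ0, hγt, hbig, ?_, ?_, hδ1, hδ2, ?_, ?_, hinβ j0 (by omega) (by omega), ?_, hqα.1, ?_⟩⟩
  · -- `β0`
    intro he
    rw [he] at hγ
    have h1 : dst T (T.tl (w i0)) (T.tl (w i1)) ≤ t + t := by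
      rw [← dle_iff hT]
      exact (Dle.symm ⟨δ, hδ1, hδ2⟩).trans (Dle.symm ⟨γ, hγ, hγt⟩)
    have h2 := hqα.2
    omega
  · -- `nd`
    have n1 := seg_nd hT h hF hinα hnr
    have n2 := seg_nd hT h hF hinβ hnr
    rw [List.map_append, List.map_append, List.append_assoc, List.append_assoc]
    rw [List.nodup_append] at n1 hγn
    have vβ : ∀ v ∈ (seg T w j1 j0).map T.tl ++ [T.tl (w j0)], ∃ n, (min j j' ≤ n ∧ n ≤ max j j') ∧ v = T.tl (w n) := by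
      intro v hv
      rcases List.mem_append.1 hv with hv | hv
      · obtain ⟨d, hd, rfl⟩ := List.mem_map.1 hv
        obtain ⟨n, n', h1, h2, h3, h4⟩ := seg_ends h.toPW hd
        exact ⟨n, ⟨by omega, by omega⟩, h3⟩
      · rw [List.mem_singleton] at hv
        exact ⟨j0, hj0, hv⟩
    have vα : ∀ v ∈ (seg T w i0 i1).map T.tl, ∃ n, (p ≤ n ∧ n ≤ p') ∧ v = T.tl (w n) := by
      intro v hv
      obtain ⟨d, hd, rfl⟩ := List.mem_map.1 hv
      obtain ⟨n, n', h1, h2, h3, h4⟩ := seg_ends h.toPW hd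
      exact ⟨n, ⟨by omega, by omega⟩, h3⟩
    rw [List.nodup_append]
    refine ⟨n1.1, ?_, ?_⟩
    · rw [List.nodup_append]
      refine ⟨hγn.1, n2, ?_⟩
      intro a ha b hb he
      obtain ⟨d, hd, rfl⟩ := List.mem_map.1 ha
      obtain ⟨n, hn, hb'⟩ := vβ b hb
      by_cases hu : T.tl d = T.tl (w i1)
      · exact hAB i1 n hi1.1 hi1.2 hn.1 hn.2 (by rw [← hu, he, hb'])
      · exact (hγA d hd hu).2 n hn.1 hn.2 (by rw [he, hb'])
    · intro a ha b hb he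
      obtain ⟨n, hn, ha'⟩ := vα a ha
      rcases List.mem_append.1 hb with hb | hb
      · obtain ⟨d, hd, rfl⟩ := List.mem_map.1 hb
        by_cases hu : T.tl d = T.tl (w i1)
        · exact n1.2.2 a ha (T.tl (w i1)) (List.mem_singleton.2 rfl) (by rw [he, hu])
        · exact (hγA d hd hu).1 n hn.1 hn.2 (by rw [← he, ha'])
      · obtain ⟨n', hn', hb'⟩ := vβ b hb
        exact hAB n n' hn.1 hn.2 hn'.1 hn'.2 (by rw [← ha', he, hb'])
  · -- `fl`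
    intro G _ lab hl
    have hw : T.IsWalk (T.tl (w i0)) (seg T w i0 i1 ++ γ ++ seg T w j1 j0 ++ δ) (T.tl (w i0)) :=
      T.walk_append (T.walk_append (T.walk_append (seg_walk h.toPW i0 i1) hγ) (seg_walk h.toPW j1 j0)) hδ1
    have h1 := fb_hol (R := m) (hF.mono (by omega)) (c' := []) hw rfl ?_
      (fun d hd => absurd hd List.not_mem_nil) hl
    · rw [h1, hol_nil]
    · intro d hd
      rcases List.mem_append.1 hd with hd | hd
      · rcases List.mem_append.1 hd with hd | hd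
        · rcases List.mem_append.1 hd with hd | hd
          · exact hbα d hd
          · exact hbγ d hd
        · exact hbβ d hd
      · exact hbδ d hd
  · -- `bl`
    intro d hd
    rcases List.mem_append.1 hd with hd | hd
    · rcases List.mem_append.1 hd with hd | hd
      · exact (hbα d hd).1
      · exact (hbγ d hd).1
    · exact (hbβ d hd).1
  · -- `res`
    intro a b h1 h2 h3 h4
    exact hres a b (by omega) (by omega) (by omega) (by omega)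
  · have h1 : ab j0 j1 = ab j1 j0 := by unfold ab; omega
    rw [h1]
    exact hqβ.1

theorem exists_lad (hT : T.Conn) (h : Mzw T w l) {x : T.V} {m r t p p' j j' : ℕ} (hF : FB T x (4 * m + 1)) (ht : 1 ≤ t)
    (hr : r + t ≤ m) (hpp : p + 40 * t ≤ p') (hα : ∀ i, p ≤ i → i ≤ p' → Dle T r x (T.tl (w i)))
    (hβ : ∀ i, min j j' ≤ i → i ≤ max j j' → Dle T m x (T.tl (w i)))
    (hd : Dle T t (T.tl (w p)) (T.tl (w j))) (hd' : Dle T t (T.tl (w p')) (T.tl (w j')))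
    (hres : ∀ a b, p ≤ a → a ≤ p' → min j j' ≤ b → b ≤ max j j' → a % l ≠ b % l)
    (hnr : ∀ a b, Dle T m x (T.tl (w a)) → T.tl (w a) = T.tl (w b) → a % l = b % l) :
    ∃ (i0 i1 j1 j0 : ℕ) (γ δ : List D), Lad T w l t m x i0 i1 j1 j0 γ δ ∧
      ab i0 i1 + γ.length + ab j1 j0 ≤ (p' - p) + t + ab j j' := by
  obtain ⟨u, hu, v, hv, γ, hγ, hγ0, hγt, hγn, hγA⟩ := short_link
    (A := {v | ∃ i, p ≤ i ∧ i ≤ p' ∧ T.tl (w i) = v}) (B := {v | ∃ i, min j j' ≤ i ∧ i ≤ max j j' ∧ T.tl (w i) = v})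
    (u0 := T.tl (w p)) (v0 := T.tl (w j)) ⟨p, le_refl _, by omega, rfl⟩ ⟨j, by omega, by omega, rfl⟩ hd (by
      rw [Set.disjoint_left]
      rintro v ⟨a, h1, h2, h3⟩ ⟨b, h4, h5, h6⟩
      exact hres a b h1 h2 h4 h5 (hnr a b ((hα a h1 h2).mono (by omega)) (h3.trans h6.symm)))
  obtain ⟨i1, hi1, hi1', rfl⟩ := hu
  obtain ⟨j1, hj1, hj1', rfl⟩ := hv
  have hγA' : ∀ d ∈ γ, T.tl d ≠ T.tl (w i1) → (∀ i, p ≤ i → i ≤ p' → T.tl (w i) ≠ T.tl d) ∧
      ∀ i, min j j' ≤ i → i ≤ max j j' → T.tl (w i) ≠ T.tl d := by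
    intro d hd1 hd2
    obtain ⟨h1, h2⟩ := hγA d hd1 hd2
    exact ⟨fun i h3 h4 h5 => h1 ⟨i, h3, h4, h5⟩, fun i h3 h4 h5 => h2 ⟨i, h3, h4, h5⟩⟩
  by_cases hc : p + 20 * t ≤ i1
  · obtain ⟨δ, hδ⟩ := lad_of hT h hF ht hr hα hβ hres hnr (i0 := p) (j0 := j) ⟨le_refl _, by omega⟩ ⟨hi1, hi1'⟩
      ⟨hj1, hj1'⟩ ⟨by omega, by omega⟩ hγ hγ0 hγt hγn hγA' (by unfold ab; omega) hd.symm
    refine ⟨p, i1, j1, j, γ, δ, hδ, ?_⟩
    unfold ab
    omega
  · obtain ⟨δ, hδ⟩ := lad_of hT h hF ht hr hα hβ hres hnr (i0 := p') (j0 := j') ⟨by omega, le_refl _⟩ ⟨hi1, hi1'⟩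
      ⟨hj1, hj1'⟩ ⟨by omega, by omega⟩ hγ hγ0 hγt hγn hγA' (by unfold ab; omega) hd'.symm
    refine ⟨p', i1, j1, j', γ, δ, hδ, ?_⟩
    unfold ab
    omega

end SYS.GS
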