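import Pool.Agent.SYS.GS.Pth

/-!
# SYS-GS-Way: short ways between two vertices of a path whose ends are close

PROOF. By symmetry (reverse: `walk_rev`, `Flat.hol_rev`) let `y` come before `y'` on the path: `P = P1 ++ P2 ++ P3` with `P1` from `u` to `y`, `P2` from `y` to `y'`, `P3` from `y'` to `v` (`VZ_zOf`: a vertex of the path is `v` or the tail of a dart of `P`: `List.append_of_mem`, `walk_split`; if `y = v` or `y' = v` the last pieces are empty). WAY 1: `P2`;
its darts are in `P`, so in the slit (`range_zOf`), holonomy `1` for `Tz`. WAY 2: from `y` back along `P1` to `u`, back along `δ` to `v`, back along `P3` to `y'`: `(P1.map T.a).reverse ++ (δ.map T.a).reverse ++ (P3.map T.a).reverse`; holonomy: `P1`, `P3` have holonomy `1`, and `hol lab δ = 1` as `hol lab (P ++ δ) = 1` and `hol lab P = 1`.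
`|P2| + (|P1| + |δ| + |P3|) ≤ |P| + t`, so one of the two ways has `2 * length ≤ |P| + t`.
-/

namespace SYS.GS

open Classical SST GNH

variable {D : Type} {T : Tri D}

private theorem wy_cut {u v : T.V} {P : List D} (hP : T.IsWalk u P v) (hne : P ≠ []) {y : T.V} (hy : y ∈ VZ T (zOf T P)) :
    ∃ P1 P2, P = P1 ++ P2 ∧ T.IsWalk u P1 y ∧ T.IsWalk y P2 v := by
  rcases (VZ_zOf hP hne).1 hy with rfl | ⟨d, hd, rfl⟩
  · exact ⟨P, [], (List.append_nil P).symm, hP, rfl⟩
  · obtain ⟨γ1, γ2, rfl⟩ := List.append_of_mem hd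
    obtain ⟨z, h1, h2⟩ := T.walk_split hP
    have h3 : T.tl d = z := h2.1
    subst h3
    exact ⟨γ1, d :: γ2, rfl, h1, h2⟩

private theorem wy_hol {G : Type} [Group G] {lab : D → G} {P c : List D} (h : Tz (zOf T P) lab) (hc : ∀ d ∈ c, d ∈ P) :
    hol lab c = 1 := by
  induction c with
  | nil => rfl
  | cons d c ih =>
    rw [hol_cons, ih fun e he => hc e (List.mem_cons_of_mem _ he), mul_one]
    obtain ⟨i, hi⟩ := (range_zOf T P).2 (Or.inl (hc d List.mem_cons_self))
    rw [← hi]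
    exact h i

private theorem wy_main {u v y y' : T.V} {P1 P2 P3 δ : List D} {t : ℕ} (h1 : T.IsWalk u P1 y) (h2 : T.IsWalk y P2 y')
    (h3 : T.IsWalk y' P3 v) (hδ : T.IsWalk v δ u) (hδt : δ.length ≤ t)
    (hfl : ∀ (G : Type) (_ : Group G) (lab : D → G), Flat T lab → hol lab (P1 ++ (P2 ++ P3) ++ δ) = 1) :
    ∃ c, T.IsWalk y c y' ∧ 2 * c.length ≤ (P1 ++ (P2 ++ P3)).length + t ∧
      ∀ (G : Type) (_ : Group G) (lab : D → G), Flat T lab → Tz (zOf T (P1 ++ (P2 ++ P3))) lab → hol lab c = 1 := by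
  by_cases hl : 2 * P2.length ≤ (P1 ++ (P2 ++ P3)).length + t
  · refine ⟨P2, h2, hl, fun G _ lab _ hz => wy_hol hz fun d hd => ?_⟩
    simp [hd]
  · refine ⟨(P1.map T.a).reverse ++ ((δ.map T.a).reverse ++ (P3.map T.a).reverse),
      T.walk_append (T.walk_rev h1) (T.walk_append (T.walk_rev hδ) (T.walk_rev h3)), ?_, fun G _ lab hF hz => ?_⟩
    · simp only [List.length_append, List.length_reverse, List.length_map] at hl ⊢
      omega
    · have k1 : hol lab P1 = 1 := wy_hol hz fun d hd => by simp [hd]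
      have k3 : hol lab P3 = 1 := wy_hol hz fun d hd => by simp [hd]
      have k : hol lab (P1 ++ (P2 ++ P3)) = 1 := wy_hol hz fun d hd => hd
      have k4 := hfl G _ lab hF
      rw [hol_append, k, one_mul] at k4
      rw [hol_append, hol_append, hF.hol_rev, hF.hol_rev, hF.hol_rev, k1, k3, k4]
      simp

theorem ways {u v : T.V} {P δ : List D} {t : ℕ} (hP : T.IsWalk u P v) (hne : P ≠ []) (hδ : T.IsWalk v δ u) (hδt : δ.length ≤ t)
    (hfl : ∀ (G : Type) (_ : Group G) (lab : D → G), Flat T lab → hol lab (P ++ δ) = 1) :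
    ∀ y ∈ VZ T (zOf T P), ∀ y' ∈ VZ T (zOf T P), ∃ c, T.IsWalk y c y' ∧ 2 * c.length ≤ P.length + t ∧
      ∀ (G : Type) (_ : Group G) (lab : D → G), Flat T lab → Tz (zOf T P) lab → hol lab c = 1 := by
  intro y hy y' hy'
  obtain ⟨P1, P2, e1, h1, h2⟩ := wy_cut hP hne hy
  obtain ⟨Q1, Q2, e2, h3, h4⟩ := wy_cut hP hne hy'
  have e3 : P1 ++ P2 = Q1 ++ Q2 := e1.symm.trans e2
  rcases List.append_eq_append_iff.1 e3 with ⟨a, e4, e5⟩ | ⟨b, e4, e5⟩
  · subst e4
    subst e5
    obtain ⟨z, h5, h6⟩ := T.walk_split h3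
    obtain rfl := T.walk_end h1 h5
    subst e1
    exact wy_main h1 h6 h4 hδ hδt hfl
  · subst e4
    subst e5
    obtain ⟨z, h5, h6⟩ := T.walk_split h1
    obtain rfl := T.walk_end h3 h5
    subst e2
    obtain ⟨c, k1, k2, k3⟩ := wy_main h3 h6 h2 hδ hδt hfl
    refine ⟨(c.map T.a).reverse, T.walk_rev k1, ?_, fun G _ lab hF hz => ?_⟩
    · rw [List.length_reverse, List.length_map]
      exact k2
    · rw [hF.hol_rev, k3 G _ lab hF hz, inv_one]

end SYS.GS
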