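import Pool.Agent.SYS.GS.Two
import Pool.Agent.SYS.GS.AsmA
import Pool.Agent.SYS.GS.Way

/-!
# SYS-GS-AsmB: from a ladder to a slit whose cone has only minimizers which visit the apex twice
-/

namespace SYS.GS

open Classical SST GNH

variable {D : Type} {T : Tri D} {w : ℕ → D} {l : ℕ}

/-- A slit such that all minimizers of its cone visit the apex at least twice, with `En ≤ X`. -/
def Conf (T : Tri D) (k : ℕ) (z : Fin (2 * k) → D) (X : ℕ) : Prop :=
  ∃ h : Slit T k z, (∃ c', Mzr (cone T h) c') ∧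
    ∀ c', Mzr (cone T h) c' → 2 ≤ cnt (cone T h) c' (apx h) ∧ En (cone T h) c' ≤ X

private theorem tl_VZ {k : ℕ} {z : Fin (2 * k) → D} {d : D} (hd : d ∈ Set.range z) : T.tl d ∈ VZ T z := by
  obtain ⟨i, rfl⟩ := hd
  exact ⟨i, rfl⟩

private theorem cntS_all {A : Set T.V} {c : List D} (h : ∀ d ∈ c, T.tl d ∈ A) : cntS T c A = c.length := by
  unfold cntS
  rw [List.countP_eq_length]
  intro d hd
  simpa using h d hd

private theorem cntS_app (A : Set T.V) (c c' : List D) : cntS T (c ++ c') A = cntS T c A + cntS T c' A := by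
  unfold cntS
  rw [List.countP_append]

private theorem st_seg {P : List D} {i j : ℕ} (hP : ∀ d ∈ seg T w i j, d ∈ P) {n : ℕ} (h1 : min i j ≤ n)
    (h2 : n < min i j + ab i j) : w n ∈ Set.range (zOf T P) := by
  rw [range_zOf]
  unfold ab at h2
  rcases Nat.le_total i j with hij | hij
  · left
    refine hP _ ((mem_seg T w).2 (Or.inl ⟨n, by omega, by omega, rfl⟩))
  · right
    refine hP _ ((mem_seg T w).2 (Or.inr ⟨n, by omega, by omega, rfl⟩))

/-- Splitting of one period at two disjoint parts. -/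
private theorem split_period (h : PW T w l) {a A b B : ℕ}
    (hres : ∀ s t, s ≤ A → t ≤ B → (a + s) % l ≠ (b + t) % l) :
    ∃ s1 s2, st w a l = st w a A ++ s1 ++ st w b B ++ s2 := by
  have hl := h.pos
  obtain ⟨M, hM⟩ : ∃ M, M + a = b + (a + 1) * l := by
    refine ⟨b + (a + 1) * l - a, Nat.sub_add_cancel ?_⟩
    have h1 : a + 1 ≤ (a + 1) * l := Nat.le_mul_of_pos_right _ hl
    omega
  obtain ⟨J, hJ⟩ : ∃ J, J = a + M % l := ⟨_, rfl⟩
  have hJ1 : M % l < l := Nat.mod_lt _ hl
  have hJ2 : J + M / l * l = b + (a + 1) * l := by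
    have h1 := Nat.mod_add_div M l
    rw [mul_comm l] at h1
    omega
  have hJs : ∀ s, J + s + M / l * l = b + s + (a + 1) * l := by
    intro s
    omega
  have hw : ∀ s, w (J + s) = w (b + s) := by
    intro s
    rw [← h.add_mul (J + s) (M / l), hJs, h.add_mul]
  have hmod : ∀ s, (J + s) % l = (b + s) % l := by
    intro s
    rw [← Nat.add_mul_mod_self_right (J + s) (M / l) l, hJs, Nat.add_mul_mod_self_right]
  have hst : st w J B = st w b B := by
    unfold st
    exact List.map_congr_left fun s _ => hw s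
  have c1 : a + A < J := by
    by_contra hcon
    have h1 := hres (J - a) 0 (by omega) (Nat.zero_le _)
    have h2 := hmod 0
    rw [Nat.add_zero] at h1 h2
    rw [Nat.add_zero] at h2
    apply h1
    rw [← h2]
    congr 1
    omega
  have c2 : J + B < a + l := by
    by_contra hcon
    have h1 := hres 0 (a + l - J) (Nat.zero_le _) (by omega)
    apply h1
    rw [← hmod]
    have h2 : J + (a + l - J) = a + l := by omega
    rw [h2, Nat.add_zero, Nat.add_mod_right]
  refine ⟨st w (a + A) (J - a - A), st w (J + B) (a + l - J - B), ?_⟩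
  have e1 : l = A + (J - a - A) + B + (a + l - J - B) := by omega
  have e2 := st_add w a (A + (J - a - A) + B) (a + l - J - B)
  have e3 := st_add w a (A + (J - a - A)) B
  have e4 := st_add w a A (J - a - A)
  have e5 : a + (A + (J - a - A)) = J := by omega
  have e6 : a + (A + (J - a - A) + B) = J + B := by omega
  rw [← e1, e3, e4, e5, e6, hst] at e2
  exact e2

theorem lad_conf [Finite D] (hT : T.Conn) (h : Mzw T w l) {x : T.V} {t m i0 i1 j1 j0 : ℕ} {γ δ : List D} (ht : 1 ≤ t)
    (hL : Lad T w l t m x i0 i1 j1 j0 γ δ)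
    (hnr : ∀ a b, Dle T m x (T.tl (w a)) → T.tl (w a) = T.tl (w b) → a % l = b % l) :
    ∃ (k : ℕ) (z : Fin (2 * k) → D), k = ab i0 i1 + γ.length + ab j1 j0 ∧ Conf T k z (En T (st w 0 l)) ∧
      ∀ i, Dle T m x (T.tl (z i)) := by
  obtain ⟨P, hPd⟩ : ∃ P, P = seg T w i0 i1 ++ γ ++ seg T w j1 j0 := ⟨_, rfl⟩
  have hP : T.IsWalk (T.tl (w i0)) P (T.tl (w j0)) := by
    rw [hPd]
    exact T.walk_append (T.walk_append (seg_walk h.toPW i0 i1) hL.wγ) (seg_walk h.toPW j1 j0)
  have hne : P ≠ [] := by
    rw [hPd]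
    intro h1
    rw [List.append_eq_nil_iff, List.append_eq_nil_iff] at h1
    exact hL.γ0 h1.1.2
  have hS : Slit T P.length (zOf T P) := slit_of_path hP hne (by rw [hPd]; exact hL.nd)
  have hlen : P.length = ab i0 i1 + γ.length + ab j1 j0 := by
    rw [hPd, List.length_append, List.length_append, seg_length, seg_length]
  have hball : ∀ v ∈ VZ T (zOf T P), Dle T m x v := by
    intro v hv
    rcases (VZ_zOf hP hne).1 hv with h1 | ⟨d, h1, h2⟩
    · rw [h1]
      exact hL.bl'
    · rw [← h2]
      exact hL.bl d (by rw [← hPd]; exact h1)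
  have hab : ab j1 j0 = ab j0 j1 := by
    unfold ab
    omega
  have hmx : ∀ i j, max i j = min i j + ab i j := by
    intro i j
    unfold ab
    omega
  obtain ⟨s1, s2, hsp⟩ := split_period h.toPW (a := min i0 i1) (A := ab i0 i1) (b := min j0 j1) (B := ab j0 j1) (by
    intro s t hs ht'
    have h1 := hmx i0 i1
    have h2 := hmx j0 j1
    exact hL.res _ _ (by omega) (by omega) (by omega) (by omega))
  have hα : ∀ d ∈ st w (min i0 i1) (ab i0 i1), d ∈ Set.range (zOf T P) := by
    intro d hd
    obtain ⟨s, hs, rfl⟩ := mem_st.1 hd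
    refine st_seg (i := i0) (j := i1) (fun d hd => ?_) (by omega) (by omega)
    rw [hPd, List.mem_append, List.mem_append]
    exact Or.inl (Or.inl hd)
  have hβ : ∀ d ∈ st w (min j0 j1) (ab j0 j1), d ∈ Set.range (zOf T P) := by
    intro d hd
    obtain ⟨s, hs, rfl⟩ := mem_st.1 hd
    refine st_seg (i := j1) (j := j0) (fun d hd => ?_) (by omega) (by rw [hab]; omega)
    rw [hPd, List.mem_append]
    exact Or.inr hd
  have hM : Mzr T (st w (min i0 i1) (ab i0 i1) ++ s1 ++ st w (min j0 j1) (ab j0 j1) ++ s2) := by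
    rw [← hsp]
    exact h.mz_at hT _
  have hA0 : 0 < ab i0 i1 := by
    have h1 := hL.big
    omega
  have hB0 : 0 < ab j0 j1 := by
    have h1 := hL.β0
    unfold ab
    omega
  have hcnt : cntS T (s1 ++ s2) (VZ T (zOf T P)) ≤ γ.length + 1 := by
    have h1 := PW.cntS_at h.toPW (min i0 i1) (VZ T (zOf T P))
    rw [hsp, cntS_app, cntS_app, cntS_app, cntS_all fun d hd => tl_VZ (hα d hd),
      cntS_all fun d hd => tl_VZ (hβ d hd), st_length, st_length] at h1
    have h2 : {j | j < l ∧ T.tl (w j) ∈ VZ T (zOf T P)}.ncard ≤ (VZ T (zOf T P)).ncard := by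
      refine Set.ncard_le_ncard_of_injOn (fun j => T.tl (w j)) (fun j hj => hj.2) ?_ (Set.finite_range _)
      intro j hj j' hj' hjj
      have h3 := hnr j j' (hball _ hj.2) hjj
      rwa [Nat.mod_eq_of_lt hj.1, Nat.mod_eq_of_lt hj'.1] at h3
    rw [card_VZ hS] at h2
    rw [cntS_app]
    omega
  refine ⟨P.length, zOf T P, hlen, ⟨hS, ?_⟩, fun i => hball _ ⟨i, rfl⟩⟩
  have h1 := cone_two hT hS hM hα hβ
    (fun h1 => by
      have h2 := congrArg List.length h1
      rw [st_length, List.length_nil] at h2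
      omega)
    (fun h1 => by
      have h2 := congrArg List.length h1
      rw [st_length, List.length_nil] at h2
      omega)
    (g := γ.length) (t := t) (by rw [st_length, st_length]; omega) hL.γt ht
    (by
      have h2 := hL.big
      rw [st_length, st_length]
      omega)
    hcnt
    (ways hP hne hL.wδ hL.δt (by rw [hPd]; exact hL.fl))
  rw [← hsp, h.en_at] at h1
  exact h1

end SYS.GS
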