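import Pool.Agent.SYS.GS.ConeI

/-!
# SYS-GS-ConeN: number of vertices of the cone

The vertices are the apex, the `2 k` corners of the slit, and the vertices of `T` which are not on the slit:
`1 + 2 k + (Nat.card T.V - (k + 1))`.
-/

namespace SYS.GS

open Classical SST GNH

variable {D : Type} {T : Tri D} {k : ℕ} {z : Fin (2 * k) → D}

private noncomputable def cnMap (h : Slit T k z) : (Unit ⊕ Fin (2 * k)) ⊕ ↥(VZ T z)ᶜ → (cone T h).V
  | Sum.inl (Sum.inl _) => apx h
  | Sum.inl (Sum.inr i) => (cone T h).tl (Sum.inl (z i))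
  | Sum.inr v => (cone T h).tl (Sum.inl (Quotient.out (s := Equiv.Perm.SameCycle.setoid T.s) v.1))

private theorem cn_out (v : T.V) : T.tl (Quotient.out (s := Equiv.Perm.SameCycle.setoid T.s) v) = v :=
  Quotient.out_eq (s := Equiv.Perm.SameCycle.setoid T.s) v

private theorem cn_bij [Finite D] (h : Slit T k z) : Function.Bijective (cnMap h) := by
  obtain ⟨bs, h1, -, h3⟩ := exists_bs h
  have hz : ∀ i, bs ((cone T h).tl (Sum.inl (z i))) = some (T.tl (z i)) := fun i => h1 (z i)
  have ho : ∀ v : T.V, bs ((cone T h).tl (Sum.inl (Quotient.out (s := Equiv.Perm.SameCycle.setoid T.s) v))) = some v := by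
    intro v
    rw [h1, cn_out]
  have hb : ∀ x, bs (cnMap h x) = Sum.elim (Sum.elim (fun _ => none) fun i => some (T.tl (z i))) (fun v => some v.1) x := by
    rintro ((u | i) | v)
    · exact h3
    · exact hz i
    · exact ho v.1
  constructor
  · intro x y hxy
    have h4 : bs (cnMap h x) = bs (cnMap h y) := by rw [hxy]
    rw [hb, hb] at h4
    rcases x with (u | i) | v
    · rcases y with (u' | i') | v'
      · rfl
      · exact absurd h4 (by simp)
      · exact absurd h4 (by simp)
    · rcases y with (u' | i') | v'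
      · exact absurd h4 (by simp)
      · have h5 : i = i' := corner_inj h hxy
        rw [h5]
      · exfalso
        have h5 : T.tl (z i) = v'.1 := Option.some.inj h4
        exact v'.2 ⟨i, h5⟩
    · rcases y with (u' | i') | v'
      · exact absurd h4 (by simp)
      · exfalso
        have h5 : v.1 = T.tl (z i') := Option.some.inj h4
        exact v.2 ⟨i', h5.symm⟩
      · have h5 : v.1 = v'.1 := Option.some.inj h4
        rw [Subtype.ext h5]
  · intro v
    rcases vertex_cases h v with h4 | ⟨i, h4⟩ | ⟨d, h4, h5⟩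
    · exact ⟨Sum.inl (Sum.inl ()), h4.symm⟩
    · exact ⟨Sum.inl (Sum.inr i), h4.symm⟩
    · refine ⟨Sum.inr ⟨T.tl d, h4⟩, ?_⟩
      rw [h5]
      exact (cone_tl_of_not h h4 (cn_out (T.tl d)).symm).symm

theorem cone_card [Finite D] (h : Slit T k z) : Nat.card (cone T h).V = Nat.card T.V + k := by
  have hfin : Finite T.V := Finite.of_surjective T.tl fun v => Quotient.exists_rep v
  have h1 := Nat.card_eq_of_bijective _ (cn_bij h)
  rw [← h1, Nat.card_sum, Nat.card_sum, Nat.card_eq_fintype_card (α := Unit), Fintype.card_unit,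
    Nat.card_eq_fintype_card (α := Fin (2 * k)), Fintype.card_fin, Nat.card_coe_set_eq]
  have h2 := Set.ncard_add_ncard_compl (VZ T z)
  rw [card_VZ h] at h2
  omega

end SYS.GS
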