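import Pool.Agent.SYS.GS.EnB

/-!
# SYS-GS-Map: relabelling

PROOF. `SST/S/SumMap.lean`: `map_walk`, `map_nullHom`, `map_tl`, `map_V`; `NullHtp` is transported as in `SST/E/Rooted.lean` (`map_htp`, private there: induction over `Relation.EqvGen`, steps go to steps; the other direction with `e.symm` and `(T.map e).map e.symm = T`) or by flat labellings (`htp_hol`, `Flat.nullHtp`, needs `T.Conn`: not available here, use the induction).
Every list over `D'` is `c.map e` for `c = c'.map e.symm`. `vis`: the bijection `T.V ≃ (T.map e).V`, `T.tl d ↦ (T.map e).tl (e d)` (`map_tl`). `cnt`: `List.countP_map`, `map_tl`. `map_nb`: every minimizer of `T.map e` is `c.map e` with `c` a minimizer of `T`.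
-/

namespace SYS.GS

open Classical SST GNH

variable {D D' : Type} (T : Tri D) (e : D ≃ D')

private theorem mp_symm : (T.map e).map e.symm = T := by
  rw [Tri.map_map, Equiv.self_trans_symm]
  exact Tri.ext' rfl rfl

private theorem mp_list (c : List D) : (c.map e).map e.symm = c := by
  rw [List.map_map, Equiv.symm_comp_self, List.map_id]

private theorem mp_list' (c : List D') : (c.map e.symm).map e = c := by
  rw [List.map_map, Equiv.self_comp_symm, List.map_id]

private theorem mp_htp {D D' : Type} (T : Tri D) (e : D ≃ D') (c : List D) (h : T.NullHtp c) :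
    (T.map e).NullHtp (c.map e) := by
  unfold Tri.NullHtp at h ⊢
  have key : ∀ x y : List D, Relation.EqvGen
      (fun x y => T.Closed x ∧ T.Closed y ∧ T.Step x y) x y →
      Relation.EqvGen (fun x y => (T.map e).Closed x ∧ (T.map e).Closed y ∧ (T.map e).Step x y)
        (x.map e) (y.map e) := by
    intro x y h1
    induction h1 with
    | rel x y h2 =>
      refine Relation.EqvGen.rel _ _ ⟨(T.map_walk e x).2 h2.1, (T.map_walk e y).2 h2.2.1, ?_⟩
      rcases h2.2.2 with ⟨u, v, d⟩ | ⟨u, v, d⟩
      · have h3 := Tri.Step.spur (T := T.map e) (u.map e) (v.map e) (e d)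
        rw [Tri.map_a] at h3
        simpa using h3
      · have h3 := Tri.Step.face (T := T.map e) (u.map e) (v.map e) (e d)
        rw [Tri.map_f, Tri.map_f] at h3
        simpa using h3
    | refl x => exact Relation.EqvGen.refl _
    | symm x y _ ih => exact Relation.EqvGen.symm _ _ ih
    | trans x y z _ _ ih1 ih2 => exact Relation.EqvGen.trans _ _ _ ih1 ih2
  exact key c [] h

theorem map_ess (c : List D) : Ess (T.map e) (c.map e) ↔ Ess T c := by
  unfold Ess
  rw [T.map_walk e c, T.map_nullHom e c]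
  refine and_congr_right fun _ => and_congr_right fun _ => not_congr ⟨fun h => ?_, mp_htp T e c⟩
  have h1 := mp_htp (T.map e) e.symm _ h
  rwa [mp_symm, mp_list] at h1

private theorem tl_out (v : T.V) : T.tl v.out = v := v.out_eq

private theorem mp_vis (c : List D) : vis (T.map e) (c.map e) = vis T c := by
  unfold vis
  symm
  have key : ∀ d, (T.map e).tl (e (T.tl d).out) = (T.map e).tl (e d) := fun d =>
    (T.map_tl e _ _).2 (tl_out T _)
  refine Set.ncard_congr (fun v _ => (T.map e).tl (e v.out)) ?_ ?_ ?_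
  · rintro v ⟨d, hd, rfl⟩
    exact ⟨e d, List.mem_map_of_mem hd, (key d).symm⟩
  · intro v w _ _ h
    have h1 := (T.map_tl e _ _).1 h
    rwa [tl_out, tl_out] at h1
  · rintro v ⟨d', hd', rfl⟩
    obtain ⟨d, hd, rfl⟩ := List.mem_map.1 hd'
    exact ⟨T.tl d, ⟨d, hd, rfl⟩, key d⟩

theorem map_en (c : List D) : En (T.map e) (c.map e) = En T c := by
  unfold En
  rw [mp_vis, List.length_map]

theorem map_cnt (c : List D) (d : D) : cnt (T.map e) (c.map e) ((T.map e).tl (e d)) = cnt T c (T.tl d) := by
  unfold cnt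
  rw [List.countP_map]
  congr 1
  funext x
  exact decide_eq_decide.2 (T.map_tl e x d)

theorem map_mzr (c : List D) : Mzr (T.map e) (c.map e) ↔ Mzr T c := by
  unfold Mzr
  rw [map_ess, map_en]
  refine and_congr_right fun _ => ⟨fun h c' hc' => ?_, fun h c' hc' => ?_⟩
  · have h1 := h (c'.map e) ((map_ess T e c').2 hc')
    rwa [map_en] at h1
  · rw [← mp_list' e c'] at hc' ⊢
    rw [map_en]
    exact h _ ((map_ess T e _).1 hc')

/-- Vertices which every minimizer visits at least twice (`En ≤ X`). -/
def Nb {D : Type} (T : Tri D) (X : ℕ) : Set T.V := {v | (∃ c, Mzr T c) ∧ ∀ c, Mzr T c → 2 ≤ cnt T c v ∧ En T c ≤ X}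

theorem map_nb {X : ℕ} {d : D} (h : T.tl d ∈ Nb T X) : (T.map e).tl (e d) ∈ Nb (T.map e) X := by
  obtain ⟨⟨c, hc⟩, h2⟩ := h
  refine ⟨⟨c.map e, (map_mzr T e c).2 hc⟩, fun c' hc' => ?_⟩
  rw [← mp_list' e c'] at hc' ⊢
  rw [map_cnt, map_en]
  exact h2 _ ((map_mzr T e _).1 hc')

end SYS.GS
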