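import Pool.Agent.SST.S.Transfer
import Pool.Agent.SYS.GS.AsmB
import Pool.Agent.SYS.GS.ConeN
import Pool.Agent.SYS.GS.Map

/-!
# SYS-GS-Trf: transfer of the configurations to triangulations with `k` more pairs of faces

PROOF. `transfer_ncard` (SST/S/Transfer) with `X = Fin (6 n)`, `E = Fin (2 k) × Fin 3`, `Y = Fin (6 (n + k))`, `A = {p : Tri X × (Fin (2 k) → X) // Slit p.1 k p.2}`, `B = Tri Y × Y`, `P = {p | p.1.1 ∈ Trn n g ∧ Conf p.1.1 k p.1.2 X}`, `Φ e p = ((cone p.1.1 p.2).map e, e (inr (0, 2)))`.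
`ι (T', y) (i, j)`: `y_i = (T'.s ^ i.val) y` (`cone_s_2`, `nxt_val`: `(i, 2) = s ^ i (0, 2)`), `(i, 2) ↦ y_i`, `(i, 0) ↦ T'.f y_i`, `(i, 1) ↦ T'.f (T'.f y_i)` (`cone_f_*`, `map_f`, `map_s`). Injective: `map_inj`: `cone T h = cone T1 h1` gives `T.f = T1.f` (`cone_f_inl`), `z = z1` (`cone_a_0`), `T.a d = T1.a d` for `d` not in the slit (`cone_a_inl`) and
`T.a (z i) = z i.rev = T1.a (z i)`: `T = T1` (`Tri.ext'`). `Φ e p ∈ Q`: `map_conn`, `map_genus`, `cone_conn`, `cone_card` (`Nat.card V' + 2 g = Nat.card V + k + 2 g = n + k + 2`), `map_nb` (`apx h = tl (inr (0, 2))`, the second part of `Conf`), `map_deg` and `deg (inr (0, 2)) = 2 k`: the darts with tail `apx` are exactly the `(i, 2)` (`cone_tl_2`, `exists_bs` for the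
others: `bs` of `tl (inr (i, 0)) = tl (inl (z (nxt i)))`, `tl (inr (i, 1)) = tl (inl (z i))`, `tl (inl d)` is not `none`). The set of the theorem is the image of `P` under `Subtype.val` (`Set.ncard_image_of_injective`).
-/

namespace SYS.GS

open Classical SST GNH

/-- the new darts from the root dart of the apex -/
private noncomputable def iot {D : Type} {k : ℕ} (q : Tri D × D) (i : Fin (2 * k) × Fin 3) : D :=
  if i.2 = 2 then (q.1.s ^ i.1.val) q.2 else if i.2 = 0 then q.1.f ((q.1.s ^ i.1.val) q.2)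
    else q.1.f (q.1.f ((q.1.s ^ i.1.val) q.2))

private theorem s_pow_apx {D D' : Type} {T : Tri D} {k : ℕ} {z : Fin (2 * k) → D} (h : Slit T k z)
    (e : D ⊕ Fin (2 * k) × Fin 3 ≃ D') (h0 : 0 < 2 * k) (m : ℕ) : ∀ i : Fin (2 * k), i.val = m →
    (((cone T h).map e).s ^ m) (e (Sum.inr (⟨0, h0⟩, 2))) = e (Sum.inr (i, 2)) := by
  induction m with
  | zero =>
    intro i hi
    have h1 : i = ⟨0, h0⟩ := Fin.ext hi
    rw [h1]
    rfl
  | succ m ih =>
    intro i hi
    have h1 := i.isLt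
    have h2 : nxt k ⟨m, by omega⟩ = i := by
      apply Fin.ext
      rw [nxt_val]
      show (if m + 1 = 2 * k then 0 else m + 1) = i.val
      rw [if_neg (by omega), hi]
    rw [pow_succ', Equiv.Perm.mul_apply, ih ⟨m, by omega⟩ rfl, Tri.map_s, cone_s_2, h2]

private theorem iot_eq {D D' : Type} {T : Tri D} {k : ℕ} {z : Fin (2 * k) → D} (h : Slit T k z)
    (e : D ⊕ Fin (2 * k) × Fin 3 ≃ D') (h0 : 0 < 2 * k) (i : Fin (2 * k) × Fin 3) :
    e (Sum.inr i) = iot ((cone T h).map e, e (Sum.inr (⟨0, h0⟩, 2))) i := by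
  obtain ⟨i, j⟩ := i
  unfold iot
  simp only
  rw [s_pow_apx h e h0 i.val i rfl]
  have h3 : ∀ j : Fin 3, j = 0 ∨ j = 1 ∨ j = 2 := by decide
  rcases h3 j with h4 | h4 | h4
  · rw [h4, if_neg (by decide), if_pos rfl, Tri.map_f]
    rfl
  · rw [h4, if_neg (by decide), if_neg (by decide), Tri.map_f, Tri.map_f]
    rfl
  · rw [h4, if_pos rfl]

private theorem cone_eq {D : Type} {T T1 : Tri D} {k : ℕ} {z z1 : Fin (2 * k) → D} (h : Slit T k z) (h1 : Slit T1 k z1)
    (he : cone T h = cone T1 h1) : T = T1 ∧ z = z1 := by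
  have hz : z = z1 := by
    funext i
    have h2 : (cone T h).a (Sum.inr (i, 0)) = (cone T1 h1).a (Sum.inr (i, 0)) := by rw [he]
    exact Sum.inl_injective h2
  refine ⟨?_, hz⟩
  subst hz
  refine Tri.ext' (Equiv.ext fun d => ?_) (Equiv.ext fun d => ?_)
  · by_cases hd : d ∈ Set.range z
    · obtain ⟨i, rfl⟩ := hd
      rw [h.rv, h1.rv]
    · have h2 : (cone T h).a (Sum.inl d) = (cone T1 h1).a (Sum.inl d) := by rw [he]
      rw [cone_a_inl h hd, cone_a_inl h1 hd] at h2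
      exact Sum.inl_injective h2
  · have h2 : (cone T h).f (Sum.inl d) = (cone T1 h1).f (Sum.inl d) := by rw [he]
    exact Sum.inl_injective h2

private theorem deg_apx {D : Type} {T : Tri D} {k : ℕ} {z : Fin (2 * k) → D} (h : Slit T k z) (h0 : 0 < 2 * k) :
    (cone T h).deg (Sum.inr (⟨0, h0⟩, 2)) = 2 * k := by
  unfold Tri.deg
  have h1 : {e : D ⊕ Fin (2 * k) × Fin 3 | (cone T h).tl e = (cone T h).tl (Sum.inr (⟨0, h0⟩, 2))} =
      Set.range fun i : Fin (2 * k) => (Sum.inr (i, 2) : D ⊕ Fin (2 * k) × Fin 3) := by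
    obtain ⟨bs, h2, -, h4⟩ := exists_bs h
    ext e
    rw [Set.mem_ofPred_eq, Set.mem_range]
    constructor
    · intro h5
      have h6 : (cone T h).tl e = apx h := h5
      have h7 : bs ((cone T h).tl e) = none := by rw [h6, h4]
      rcases e with d | ⟨i, j⟩
      · rw [h2] at h7
        exact absurd h7 (by simp)
      · have h3 : ∀ j : Fin 3, j = 0 ∨ j = 1 ∨ j = 2 := by decide
        rcases h3 j with h8 | h8 | h8
        · rw [h8, cone_tl_0, h2] at h7
          exact absurd h7 (by simp)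
        · rw [h8, cone_tl_1, h2] at h7
          exact absurd h7 (by simp)
        · exact ⟨i, by rw [h8]⟩
    · rintro ⟨i, rfl⟩
      exact (cone_tl_2 h i).trans (cone_tl_2 h _).symm
  rw [h1, ← Set.image_univ, Set.ncard_image_of_injective, Set.ncard_univ, Nat.card_eq_fintype_card, Fintype.card_fin]
  intro i j hij
  exact (Prod.mk.inj (Sum.inr_injective hij)).1

theorem trf {n g k X : ℕ} (hk : 0 < k) :
    {p : Tri (Fin (6 * n)) × (Fin (2 * k) → Fin (6 * n)) | p.1 ∈ Trn n g ∧ Conf p.1 k p.2 X}.ncard * (6 * (n + k)).factorial ≤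
      {p : Tri (Fin (6 * (n + k))) × Fin (6 * (n + k)) | p.1 ∈ Trn (n + k) g ∧ p.1.tl p.2 ∈ Nb p.1 X ∧
        p.1.deg p.2 = 2 * k}.ncard * (6 * n).factorial := by
  have h0 : 0 < 2 * k := by omega
  have key := transfer_ncard (X := Fin (6 * n)) (E := Fin (2 * k) × Fin 3) (Y := Fin (6 * (n + k)))
    (A := {p : Tri (Fin (6 * n)) × (Fin (2 * k) → Fin (6 * n)) // Slit p.1 k p.2})
    (B := Tri (Fin (6 * (n + k))) × Fin (6 * (n + k)))
    (by
      rw [Fintype.card_fin, Fintype.card_fin, Fintype.card_prod, Fintype.card_fin, Fintype.card_fin]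
      omega)
    {p | p.1.1 ∈ Trn n g ∧ Conf p.1.1 k p.1.2 X}
    {p | p.1 ∈ Trn (n + k) g ∧ p.1.tl p.2 ∈ Nb p.1 X ∧ p.1.deg p.2 = 2 * k}
    (fun e p => ((cone p.1.1 p.2).map e, e (Sum.inr (⟨0, h0⟩, 2)))) iot
    (fun e x _ i => iot_eq x.2 e h0 i)
    (by
      intro e x _ x' _ hxx
      have h1 := Tri.map_inj _ _ e (Prod.mk.inj hxx).1
      obtain ⟨h2, h3⟩ := cone_eq x.2 x'.2 h1
      exact Subtype.ext (Prod.ext h2 h3))
    (by
      rintro e ⟨⟨T, z⟩, h⟩ ⟨⟨hT, hg⟩, h', hc1, hc2⟩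
      change Slit T k z at h
      refine ⟨⟨(Tri.map_conn _ e).2 (cone_conn h hT), (Tri.map_genus _ e _ _).2 ?_⟩, ?_, ?_⟩
      · have h2 := cone_card h
        have h3 : Nat.card T.V + 2 * g = n + 2 := hg
        show Nat.card (cone T h).V + 2 * g = n + k + 2
        omega
      · exact map_nb (cone T h) e (d := Sum.inr (⟨0, h0⟩, 2)) ⟨hc1, hc2⟩
      · show ((cone T h).map e).deg (e (Sum.inr (⟨0, h0⟩, 2))) = 2 * k
        rw [Tri.map_deg]
        exact deg_apx h h0)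
  rw [Fintype.card_fin, Fintype.card_fin] at key
  have h1 : {p : Tri (Fin (6 * n)) × (Fin (2 * k) → Fin (6 * n)) | p.1 ∈ Trn n g ∧ Conf p.1 k p.2 X} =
      Subtype.val '' {p : {p : Tri (Fin (6 * n)) × (Fin (2 * k) → Fin (6 * n)) // Slit p.1 k p.2} |
        p.1.1 ∈ Trn n g ∧ Conf p.1.1 k p.1.2 X} := by
    ext p
    constructor
    · rintro ⟨h2, h3⟩
      obtain ⟨h4, -⟩ := id h3
      exact ⟨⟨p, h4⟩, ⟨h2, h3⟩, rfl⟩
    · rintro ⟨q, hq, rfl⟩
      exact hq
  rw [h1, Set.ncard_image_of_injective _ Subtype.val_injective]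
  exact key

/-- The chosen minimizer. -/
noncomputable def mzf {D : Type} (T : Tri D) : List D := if h : ∃ c, Mzr T c then h.choose else []

theorem mzf_spec {D : Type} {T : Tri D} (h : ∃ c, Mzr T c) : Mzr T (mzf T) := by
  unfold mzf
  rw [dif_pos h]
  exact h.choose_spec

/-- Number of the vertices which the chosen minimizer visits at least twice (`0` if there is no minimizer or `En > X`). -/
noncomputable def Nr {D : Type} (T : Tri D) (X : ℕ) : ℕ :=
  if (∃ c, Mzr T c) ∧ En T (mzf T) ≤ X then {v | 2 ≤ cnt T (mzf T) v}.ncard else 0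

theorem nr_mono {D : Type} (T : Tri D) {X X' : ℕ} (hX : X ≤ X') : Nr T X ≤ Nr T X' := by
  unfold Nr
  by_cases h : (∃ c, Mzr T c) ∧ En T (mzf T) ≤ X
  · rw [if_pos h, if_pos ⟨h.1, h.2.trans hX⟩]
  · rw [if_neg h]
    exact Nat.zero_le _

/-- Its sum over all triangulations. -/
noncomputable def NS (n g X : ℕ) : ℝ := ∑ T ∈ (Set.toFinite (Trn n g)).toFinset, (Nr T X : ℝ)

theorem ns_mono {n g X X' : ℕ} (hX : X ≤ X') : NS n g X ≤ NS n g X' :=
  Finset.sum_le_sum fun T _ => by exact_mod_cast nr_mono T hX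

end SYS.GS
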