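import Pool.Agent.SYS.T1
import Pool.Agent.SYS.LA.T1L
import Pool.Agent.SYS.GS.Frc
import Pool.Agent.SYS.GS.Trf

/-!
# SYS-GS-Upp: if the two constants agree then there are few repeated vertices on the average

PROOF. Let `ε = η / 64` and suppose `S' ≤ S`. For a `T ∈ Trn n g` which has no essential closed walk of length `≤ (S - ε) log n` and has a simple one of length `≤ (S' + ε) log n`: let `W = mzf T` (if there is no minimizer, `Nr = 0`). `rep_le`: `#{2 ≤ cnt} + 8 |W| ≤ En T W`; `En T W ≤ En T c = 8 |c| ≤ 8 (S' + ε) log n` for the simple walk `c`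
(`en_simple`; `HasSSC` gives `c` with `Ess T c`), and `|W| > (S - ε) log n` (`HasSep L`: `∃ W ≠ [], Closed, NullHom, ¬ NullHtp, |W| ≤ L`; see its use in LA/T1L `lowCfg_of`), so `Nr T X ≤ 16 ε log n ≤ η / 2 log n`. For all `T`: `Nr T X ≤ X ≤ C log n` (`rep_le`, `En ≤ X`). The number of the other `T` is `≤ δ #Trn` eventually with `δ = η / (2 (C + 1))`
(`low (S - ε)`, `ups (S' + ε)`, `UP.frac_sep`, `frac_ssc`; `PS`, `PSS` are the probabilities `Pr`). So `NS ≤ (η / 2 log n + δ C log n) #Trn ≤ η log n #Trn`.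
-/

namespace SYS.GS

open Classical SST GNH Filter Topology

private theorem up_all {D : Type} (T : Tri D) (X : ℕ) : Nr T X ≤ X := by
  unfold Nr
  split_ifs with h
  · have := rep_le T (mzf T)
    omega
  · exact Nat.zero_le _

private theorem up_good {D : Type} {T : Tri D} {X : ℕ} {L0 L1 : ℝ} (h0 : ¬ T.HasSep L0) (h1 : T.HasSSC L1) :
    (Nr T X : ℝ) ≤ 8 * (L1 - L0) := by
  obtain ⟨c, hc1, hc2, hc3, hc4, hc5, hc6⟩ := h1
  have hE : Ess T c := ⟨hc2, hc4, hc5⟩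
  have hex : ∃ c, Mzr T c := exists_mzr hE
  have hM := mzf_spec hex
  have h2 := rep_le T (mzf T)
  have h3 := hM.2 c hE
  rw [en_simple hc3] at h3
  have h4 : L0 < (mzf T).length := by
    by_contra h5
    exact h0 ⟨mzf T, ess_ne hM.1, hM.1.1, hM.1.2.1, hM.1.2.2, not_lt.1 h5⟩
  have h5 : Nr T X ≤ {v | 2 ≤ cnt T (mzf T) v}.ncard := by
    unfold Nr
    split_ifs
    · exact le_rfl
    · exact Nat.zero_le _
  have h6 : Nr T X + 8 * (mzf T).length ≤ 8 * c.length := by omega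
  have h7 : (Nr T X : ℝ) + 8 * (mzf T).length ≤ 8 * c.length := by exact_mod_cast h6
  linarith

theorem upp {θ S S' : ℝ} (low : ∀ ε : ℝ, 0 < ε → Tendsto (PS (S - ε)) (Num.Fth θ) (𝓝 0))
    (ups : ∀ ε : ℝ, 0 < ε → Tendsto (PSS (S' + ε)) (Num.Fth θ) (𝓝 1)) (hS : S' ≤ S) {C : ℝ} (hC : 0 < C) {η : ℝ} (hη : 0 < η) :
    ∀ᶠ q in RB.Fth θ, NS q.1 q.2 ⌊C * Real.log q.1⌋₊ ≤ η * Real.log q.1 * (Trn q.1 q.2).ncard := by
  have hFF : Num.Fth θ = RB.Fth θ := rfl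
  rw [hFF] at low ups
  obtain ⟨δ, hδ, hδC⟩ : ∃ δ : ℝ, 0 < δ ∧ 2 * δ * C ≤ η / 2 := ⟨η / (4 * C), by positivity, by
    rw [show 2 * (η / (4 * C)) * C = η / 2 by field_simp; ring]⟩
  obtain ⟨ε, hε, hεη⟩ : ∃ ε : ℝ, 0 < ε ∧ 16 * ε ≤ η / 2 := ⟨η / 32, by positivity, by linarith⟩
  have e1 := (tendsto_order.1 (low ε hε)).2 δ hδ
  have e2 := (tendsto_order.1 (ups ε hε)).1 (1 - δ) (by linarith)
  filter_upwards [e1, e2, RB.ge_ev θ 1] with q q1 q2 q3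
  obtain ⟨ℓ, hℓ⟩ : ∃ ℓ : ℝ, ℓ = Real.log q.1 := ⟨_, rfl⟩
  have hℓ0 : 0 ≤ ℓ := by
    rw [hℓ]
    exact Real.log_natCast_nonneg _
  unfold PS at q1
  unfold PSS at q2
  rw [UP.frac_sep q3] at q1
  rw [frac_ssc q3] at q2
  rw [← hℓ] at q1 q2 ⊢
  obtain ⟨N, hN⟩ : ∃ N : ℝ, N = ((Trn q.1 q.2).ncard : ℝ) := ⟨_, rfl⟩
  have hN0 : 0 ≤ N := by
    rw [hN]
    positivity
  rw [← hN] at q1 q2 ⊢
  obtain ⟨Fi, hFi⟩ : ∃ Fi : Finset (Tri (Fin (6 * q.1))), Fi = (Set.toFinite (Trn q.1 q.2)).toFinset := ⟨_, rfl⟩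
  have hFm : ∀ T, T ∈ Fi ↔ T ∈ Trn q.1 q.2 := by
    intro T
    rw [hFi, Set.Finite.mem_toFinset]
  have hFc : (Fi.card : ℝ) = N := by
    rw [hN, hFi, Set.ncard_eq_toFinset_card]
  have hX : ((⌊C * ℓ⌋₊ : ℕ) : ℝ) ≤ C * ℓ := Nat.floor_le (by positivity)
  rcases hN0.eq_or_lt with h0 | h0
  · have h1 : Fi = ∅ := by
      rw [← Finset.card_eq_zero]
      rw [← h0] at hFc
      exact_mod_cast hFc
    unfold NS
    rw [← hFi, h1, Finset.sum_empty, ← h0, mul_zero]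
  rw [div_lt_iff₀ h0] at q1
  rw [lt_div_iff₀ h0] at q2
  have hP : ∀ Q : Tri (Fin (6 * q.1)) → Prop, ({T | T ∈ Trn q.1 q.2 ∧ Q T}.ncard : ℝ) = ((Fi.filter Q).card : ℝ) := by
    intro Q
    rw [← Set.ncard_coe_finset]
    congr 2
    ext T
    rw [Finset.mem_coe, Finset.mem_filter, hFm]
    exact Iff.rfl
  rw [hP] at q1 q2
  have h3 : ((Fi.filter fun T => T.HasSSC ((S' + ε) * ℓ)).card : ℝ) +
      ((Fi.filter fun T => ¬ T.HasSSC ((S' + ε) * ℓ)).card : ℝ) = N := by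
    rw [← hFc]
    exact_mod_cast Finset.card_filter_add_card_filter_not _
  have h4 : ∀ T ∈ Fi, (Nr T ⌊C * ℓ⌋₊ : ℝ) ≤ η / 2 * ℓ + (if T.HasSep ((S - ε) * ℓ) then C * ℓ else 0) +
      (if ¬ T.HasSSC ((S' + ε) * ℓ) then C * ℓ else 0) := by
    intro T _
    have h5 : (Nr T ⌊C * ℓ⌋₊ : ℝ) ≤ C * ℓ := le_trans (by exact_mod_cast up_all T _) hX
    have h6 : 0 ≤ C * ℓ := by positivity
    have h7 : 0 ≤ η / 2 * ℓ := by positivity
    by_cases ha : T.HasSep ((S - ε) * ℓ)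
    · rw [if_pos ha]
      split_ifs <;> linarith
    · by_cases hb : T.HasSSC ((S' + ε) * ℓ)
      · rw [if_neg ha, if_neg (not_not.2 hb), add_zero, add_zero]
        refine (up_good ha hb).trans ?_
        have h8 : 8 * ((S' + ε) * ℓ - (S - ε) * ℓ) = 8 * (S' - S) * ℓ + 16 * ε * ℓ := by ring
        rw [h8]
        have h9 : 8 * (S' - S) * ℓ ≤ 0 := mul_nonpos_of_nonpos_of_nonneg (by linarith) hℓ0
        have h10 : 16 * ε * ℓ ≤ η / 2 * ℓ := mul_le_mul_of_nonneg_right hεη hℓ0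
        linarith
      · rw [if_neg ha, if_pos hb]
        linarith
  have h5 : NS q.1 q.2 ⌊C * ℓ⌋₊ ≤ N * (η / 2 * ℓ) + ((Fi.filter fun T => T.HasSep ((S - ε) * ℓ)).card : ℝ) * (C * ℓ) +
      ((Fi.filter fun T => ¬ T.HasSSC ((S' + ε) * ℓ)).card : ℝ) * (C * ℓ) := by
    unfold NS
    rw [← hFi]
    refine (Finset.sum_le_sum h4).trans_eq ?_
    rw [Finset.sum_add_distrib, Finset.sum_add_distrib, Finset.sum_const, ← Finset.sum_filter, ← Finset.sum_filter,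
      Finset.sum_const, Finset.sum_const, nsmul_eq_mul, nsmul_eq_mul, nsmul_eq_mul, hFc]
  have h6 : ((Fi.filter fun T => T.HasSep ((S - ε) * ℓ)).card : ℝ) * (C * ℓ) ≤ δ * N * (C * ℓ) :=
    mul_le_mul_of_nonneg_right q1.le (by positivity)
  have h7 : ((Fi.filter fun T => ¬ T.HasSSC ((S' + ε) * ℓ)).card : ℝ) * (C * ℓ) ≤ δ * N * (C * ℓ) := by
    refine mul_le_mul_of_nonneg_right ?_ (by positivity)
    linarith
  refine h5.trans ?_
  have h8 : (2 * δ * C) * (N * ℓ) ≤ η / 2 * (N * ℓ) := mul_le_mul_of_nonneg_right hδC (by positivity)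
  nlinarith

end SYS.GS
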