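import Pool.Agent.SYS.GS.Low
import Pool.Agent.SYS.GS.Upp
import Pool.Agent.SYS.GS.CardB

/-!
# SYS-GS-Main: the gap between the constants of `sepsys` and `sepsys*`

PROOF. Suppose `S' ≤ S`. `low h hG`: `c0, C, k0`. For every `k < k0`: `trf`, `cardB` (with `n + (k + 1)`, `q = 2 (k + 1)`): `#{(T, z)} * (6 (n + k + 1))! ≤ 2 (k + 1) NS (n + k + 1) g X * (6 n)!` with `X = ⌊C log n⌋₊ ≤ ⌊C log (n + k + 1)⌋₊`, `NS` is monotone in `X` (`ns_mono`), `upp` for `(n + k + 1, g)` (the filter `Fth θ` is invariant under `(n, g) ↦ (n + k + 1, g)`: `RB`: `sh`, see `UP/Nus.lean` `tsh`, `nu_b`): `NS ≤ η log (n + k + 1) #Trn (n + k + 1) g`. `#Trn n g = nu n g * (6 n)!` (definition of `SST.nu`). So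
`#{(T, z)} ≤ 2 (k + 1) η log (n + k + 1) (nu (n + k + 1) g / nu n g) #Trn n g ≤ η * 4 (k + 1) (Y ^ (k + 1) + 1) log n #Trn n g` eventually (`nu_b`: the ratio tends to `(yy x ^ (k + 1))⁻¹`, `UP.nu_sh` with `l = - (k + 1)`, `j = 0`; `log (n + k + 1) ≤ 2 log n`). Sum: `c0 log n #Trn ≤ η (1 + K) log n #Trn` with a constant `K` which does not depend on `η`; choose
`η = c0 / (2 (1 + K))`; `#Trn > 0` eventually (`UP.nu_pos_ev`), `log n > 0`: contradiction (`Fth θ` is not the trivial filter: `RB` `neBot`).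
-/

namespace SYS.GS

open Classical SST GNH Filter Topology

private theorem gm_sh (m : ℕ) (p : ℕ × ℕ) : RB.sh m 0 p = (p.1 + m, p.2) := by
  unfold RB.sh
  refine Prod.ext ?_ ?_
  · show ((p.1 : ℤ) + (m : ℤ)).toNat = p.1 + m
    omega
  · show ((p.2 : ℤ) + 0).toNat = p.2
    omega

private theorem gm_ratio {θ x : ℝ} (h : Num.Par θ x) (m : ℕ) :
    ∀ᶠ p in RB.Fth θ, SST.nu ((p : ℕ × ℕ).1 + m) p.2 ≤ ((Num.yy x ^ m)⁻¹ + 1) * SST.nu p.1 p.2 := by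
  have h1 := UP.nu_sh h (-(m : ℤ)) 0
  have h2 : Tendsto (fun p : ℕ × ℕ => SST.nu (p.1 + m) p.2 / SST.nu p.1 p.2) (Num.Fth θ) (𝓝 ((Num.yy x ^ m)⁻¹)) := by
    rw [zpow_neg, zpow_natCast, pow_zero, mul_one] at h1
    refine h1.congr fun p => ?_
    have h3 : ((p.1 : ℤ) - -(m : ℤ)).toNat = p.1 + m := by omega
    rw [h3, Nat.mul_zero, pow_zero, mul_one, Nat.sub_zero]
  have h3 : ∀ᶠ p in Num.Fth θ, SST.nu ((p : ℕ × ℕ).1 + m) p.2 / SST.nu p.1 p.2 < (Num.yy x ^ m)⁻¹ + 1 :=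
    h2.eventually_lt_const (by linarith)
  have h4 : ∀ᶠ p in Num.Fth θ, SST.nu ((p : ℕ × ℕ).1 + m) p.2 ≤ ((Num.yy x ^ m)⁻¹ + 1) * SST.nu p.1 p.2 := by
    filter_upwards [h3, UP.nu_pos_ev h] with p hp hp'
    exact ((div_lt_iff₀ hp').1 hp).le
  exact h4

private theorem gm_trn (n g : ℕ) : ((Trn n g).ncard : ℝ) = SST.nu n g * ((6 * n).factorial : ℝ) := by
  unfold SST.nu
  have : ((6 * n).factorial : ℝ) ≠ 0 := by exact_mod_cast Nat.factorial_ne_zero _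
  field_simp

private theorem gm_conf {θ x S S' : ℝ} (h : Num.Par θ x) (low : ∀ ε : ℝ, 0 < ε → Tendsto (PS (S - ε)) (Num.Fth θ) (𝓝 0))
    (ups : ∀ ε : ℝ, 0 < ε → Tendsto (PSS (S' + ε)) (Num.Fth θ) (𝓝 1)) (hS : S' ≤ S) {C : ℝ} (hC : 0 < C) {η : ℝ} (hη : 0 < η)
    (k : ℕ) : ∀ᶠ q in RB.Fth θ,
      ((({p : Tri (Fin (6 * q.1)) × (Fin (2 * (k + 1)) → Fin (6 * q.1)) | p.1 ∈ Trn q.1 q.2 ∧
        Conf p.1 (k + 1) p.2 ⌊C * Real.log q.1⌋₊}.ncard : ℕ) : ℝ)) ≤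
      η * (4 * (k + 1) * ((Num.yy x ^ (k + 1))⁻¹ + 1)) * Real.log q.1 * (Trn q.1 q.2).ncard := by
  have hU := (RB.tendsto_sh h.1 ((k + 1 : ℕ) : ℤ) 0).eventually (upp low ups hS hC hη)
  filter_upwards [hU, gm_ratio h (k + 1), RB.ge_ev θ (k + 2)] with q hq1 hq2 hq3
  rw [gm_sh] at hq1
  obtain ⟨n, g⟩ := q
  show ((({p : Tri (Fin (6 * n)) × (Fin (2 * (k + 1)) → Fin (6 * n)) | p.1 ∈ Trn n g ∧
        Conf p.1 (k + 1) p.2 ⌊C * Real.log n⌋₊}.ncard : ℕ) : ℝ)) ≤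
      η * (4 * (k + 1) * ((Num.yy x ^ (k + 1))⁻¹ + 1)) * Real.log n * (Trn n g).ncard
  have hq1' : NS (n + (k + 1)) g ⌊C * Real.log ((n + (k + 1) : ℕ) : ℝ)⌋₊ ≤
    η * Real.log ((n + (k + 1) : ℕ) : ℝ) * (Trn (n + (k + 1)) g).ncard := hq1
  have hq2' : SST.nu (n + (k + 1)) g ≤ ((Num.yy x ^ (k + 1))⁻¹ + 1) * SST.nu n g := hq2
  have hq3' : k + 2 ≤ n := hq3
  obtain ⟨X, hX⟩ : ∃ X, X = ⌊C * Real.log n⌋₊ := ⟨_, rfl⟩
  obtain ⟨A, hA⟩ : ∃ A : ℕ, A = {p : Tri (Fin (6 * n)) × (Fin (2 * (k + 1)) → Fin (6 * n)) | p.1 ∈ Trn n g ∧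
        Conf p.1 (k + 1) p.2 X}.ncard := ⟨_, rfl⟩
  obtain ⟨Bq, hBq⟩ : ∃ Bq : ℕ, Bq = {p : Tri (Fin (6 * (n + (k + 1)))) × Fin (6 * (n + (k + 1))) |
    p.1 ∈ Trn (n + (k + 1)) g ∧ p.1.tl p.2 ∈ Nb p.1 X ∧ p.1.deg p.2 = 2 * (k + 1)}.ncard := ⟨_, rfl⟩
  have t1 := trf (n := n) (g := g) (k := k + 1) (X := X) (Nat.succ_pos k)
  rw [← hA, ← hBq] at t1
  have t2 := cardB (n + (k + 1)) g (2 * (k + 1)) X
  rw [← hBq] at t2
  rw [← hX, ← hA]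
  have hn1 : (1 : ℝ) ≤ (n : ℝ) := by
    have : 1 ≤ n := by omega
    exact_mod_cast this
  have hn0 : (0 : ℝ) < (n : ℝ) := by linarith
  have hlog0 : 0 ≤ Real.log n := Real.log_nonneg hn1
  have hlogm : Real.log n ≤ Real.log ((n + (k + 1) : ℕ) : ℝ) := by
    apply Real.log_le_log hn0
    exact_mod_cast Nat.le_add_right n (k + 1)
  have hlog2 : Real.log ((n + (k + 1) : ℕ) : ℝ) ≤ 2 * Real.log n := by
    have e1 : n + (k + 1) ≤ n ^ 2 := by nlinarith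
    have e2 : ((n + (k + 1) : ℕ) : ℝ) ≤ (n : ℝ) ^ 2 := by exact_mod_cast e1
    have e3 : Real.log ((n + (k + 1) : ℕ) : ℝ) ≤ Real.log ((n : ℝ) ^ 2) := by
      apply Real.log_le_log _ e2
      have : 0 < n + (k + 1) := by omega
      exact_mod_cast this
    rw [Real.log_pow] at e3
    exact_mod_cast e3
  have t3 : NS (n + (k + 1)) g X ≤ NS (n + (k + 1)) g ⌊C * Real.log ((n + (k + 1) : ℕ) : ℝ)⌋₊ := by
    apply ns_mono
    rw [hX]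
    exact Nat.floor_le_floor (mul_le_mul_of_nonneg_left hlogm hC.le)
  have t4 := gm_trn (n + (k + 1)) g
  have t5 := gm_trn n g
  have hF : (0 : ℝ) < ((6 * (n + (k + 1))).factorial : ℝ) := by exact_mod_cast Nat.factorial_pos _
  have hF' : (0 : ℝ) < ((6 * n).factorial : ℝ) := by exact_mod_cast Nat.factorial_pos _
  have t1' : (A : ℝ) * ((6 * (n + (k + 1))).factorial : ℝ) ≤ (Bq : ℝ) * ((6 * n).factorial : ℝ) := by exact_mod_cast t1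
  have hk0 : (0 : ℝ) ≤ ((2 * (k + 1) : ℕ) : ℝ) := Nat.cast_nonneg _
  have hnu : 0 ≤ SST.nu n g := UP.nu_nn n g
  have hnu' : 0 ≤ SST.nu (n + (k + 1)) g := UP.nu_nn _ g
  have t6 : (Bq : ℝ) ≤ ((2 * (k + 1) : ℕ) : ℝ) * (η * Real.log ((n + (k + 1) : ℕ) : ℝ) *
      (SST.nu (n + (k + 1)) g * ((6 * (n + (k + 1))).factorial : ℝ))) := by
    refine t2.trans (mul_le_mul_of_nonneg_left ?_ hk0)
    rw [← t4]
    exact t3.trans hq1'
  have t7 : (A : ℝ) * ((6 * (n + (k + 1))).factorial : ℝ) ≤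
      (((2 * (k + 1) : ℕ) : ℝ) * (η * Real.log ((n + (k + 1) : ℕ) : ℝ) * SST.nu (n + (k + 1)) g * ((6 * n).factorial : ℝ))) *
        ((6 * (n + (k + 1))).factorial : ℝ) := by
    refine t1'.trans ((mul_le_mul_of_nonneg_right t6 hF'.le).trans (le_of_eq ?_))
    ring
  have t8 := le_of_mul_le_mul_right t7 hF
  refine t8.trans ?_
  have t9 : η * Real.log ((n + (k + 1) : ℕ) : ℝ) * SST.nu (n + (k + 1)) g ≤
      η * (2 * Real.log n) * (((Num.yy x ^ (k + 1))⁻¹ + 1) * SST.nu n g) := by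
    apply mul_le_mul (mul_le_mul_of_nonneg_left hlog2 hη.le) hq2' hnu'
    exact mul_nonneg hη.le (by linarith)
  calc ((2 * (k + 1) : ℕ) : ℝ) * (η * Real.log ((n + (k + 1) : ℕ) : ℝ) * SST.nu (n + (k + 1)) g * ((6 * n).factorial : ℝ))
      ≤ ((2 * (k + 1) : ℕ) : ℝ) * (η * (2 * Real.log n) * (((Num.yy x ^ (k + 1))⁻¹ + 1) * SST.nu n g) *
          ((6 * n).factorial : ℝ)) := by
        refine mul_le_mul_of_nonneg_left (mul_le_mul_of_nonneg_right t9 hF'.le) hk0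
    _ = η * (4 * (k + 1) * ((Num.yy x ^ (k + 1))⁻¹ + 1)) * Real.log n * (Trn n g).ncard := by
        rw [t5]
        push_cast
        ring

/-- GAP. -/
theorem gap {θ x S S' : ℝ} (h : Num.Par θ x) (hG : LowG θ x) (low : ∀ ε : ℝ, 0 < ε → Tendsto (PS (S - ε)) (Num.Fth θ) (𝓝 0))
    (ups : ∀ ε : ℝ, 0 < ε → Tendsto (PSS (S' + ε)) (Num.Fth θ) (𝓝 1)) : S < S' := by
  by_contra hcon
  have hS : S' ≤ S := not_lt.1 hcon
  obtain ⟨c0, C, k0, hc0, hC, hlow⟩ := SYS.GS.low h hG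
  obtain ⟨R, hR⟩ : ∃ R : ℕ → ℝ, R = fun k : ℕ => 4 * ((k : ℝ) + 1) * ((Num.yy x ^ (k + 1))⁻¹ + 1) := ⟨_, rfl⟩
  have hy : 0 < Num.yy x := (UP.lw h.2.2.1).y_pos
  have hR0 : ∀ k, 0 ≤ R k := by
    intro k
    rw [hR]
    have := pow_pos hy (k + 1)
    positivity
  have hK0 : 0 ≤ ∑ k ∈ Finset.range k0, R k := Finset.sum_nonneg fun k _ => hR0 k
  obtain ⟨K, hK⟩ : ∃ K : ℝ, K = ∑ k ∈ Finset.range k0, R k := ⟨_, rfl⟩
  rw [← hK] at hK0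
  obtain ⟨η, hη⟩ : ∃ η : ℝ, η = c0 / (2 * (1 + K)) := ⟨_, rfl⟩
  have hη0 : 0 < η := by
    rw [hη]
    positivity
  have e1 : ∀ᶠ q in RB.Fth θ, ∀ k ∈ Finset.range k0,
      ((({p : Tri (Fin (6 * q.1)) × (Fin (2 * (k + 1)) → Fin (6 * q.1)) | p.1 ∈ Trn q.1 q.2 ∧
        Conf p.1 (k + 1) p.2 ⌊C * Real.log q.1⌋₊}.ncard : ℕ) : ℝ)) ≤
      η * R k * Real.log q.1 * (Trn q.1 q.2).ncard := by
    rw [Filter.eventually_all_finset]
    intro k _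
    rw [hR]
    exact gm_conf h low ups hS hC hη0 k
  have e2 := upp low ups hS hC hη0
  have e3 : ∀ᶠ p in RB.Fth θ, 0 < SST.nu (p : ℕ × ℕ).1 p.2 := UP.nu_pos_ev h
  have := RB.Fth_neBot h.1.le
  obtain ⟨q, q1, q2, q3, q4, q5⟩ := (hlow.and (e1.and (e2.and (e3.and (RB.ge_ev θ 2))))).exists
  obtain ⟨n, g⟩ := q
  have hn2 : (2 : ℝ) ≤ (n : ℝ) := by
    have : 2 ≤ n := q5
    exact_mod_cast this
  have hlog : 0 < Real.log n := Real.log_pos (by linarith)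
  have hT : 0 < ((Trn n g).ncard : ℝ) := by
    rw [gm_trn]
    have hF' : (0 : ℝ) < ((6 * n).factorial : ℝ) := by exact_mod_cast Nat.factorial_pos _
    exact mul_pos q4 hF'
  have q1' : c0 * Real.log n * (Trn n g).ncard ≤ NS n g ⌊C * Real.log n⌋₊ +
      ∑ k ∈ Finset.range k0, (({p : Tri (Fin (6 * n)) × (Fin (2 * (k + 1)) → Fin (6 * n)) | p.1 ∈ Trn n g ∧
        Conf p.1 (k + 1) p.2 ⌊C * Real.log n⌋₊}.ncard : ℕ) : ℝ) := q1
  have q3' : NS n g ⌊C * Real.log n⌋₊ ≤ η * Real.log n * (Trn n g).ncard := q3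
  have q2' : ∑ k ∈ Finset.range k0, (({p : Tri (Fin (6 * n)) × (Fin (2 * (k + 1)) → Fin (6 * n)) | p.1 ∈ Trn n g ∧
        Conf p.1 (k + 1) p.2 ⌊C * Real.log n⌋₊}.ncard : ℕ) : ℝ) ≤
      ∑ k ∈ Finset.range k0, η * R k * Real.log n * (Trn n g).ncard := Finset.sum_le_sum fun k hk => q2 k hk
  have q6 : ∑ k ∈ Finset.range k0, η * R k * Real.log n * (Trn n g).ncard = η * K * (Real.log n * (Trn n g).ncard) := by
    rw [hK, Finset.mul_sum, Finset.sum_mul]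
    refine Finset.sum_congr rfl fun k _ => ?_
    ring
  rw [q6] at q2'
  obtain ⟨P, hP⟩ : ∃ P : ℝ, P = Real.log n * (Trn n g).ncard := ⟨_, rfl⟩
  have hP0 : 0 < P := by
    rw [hP]
    exact mul_pos hlog hT
  rw [← hP] at q2'
  have q7 : c0 * P ≤ η * P + η * K * P := by
    have a1 : c0 * Real.log n * (Trn n g).ncard = c0 * P := by rw [hP]; ring
    have a2 : η * Real.log n * (Trn n g).ncard = η * P := by rw [hP]; ring
    rw [a1] at q1'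
    rw [a2] at q3'
    linarith
  have q8 : η * P + η * K * P = c0 / 2 * P := by
    rw [hη]
    have : (1 + K) ≠ 0 := by positivity
    field_simp
  rw [q8] at q7
  have : 0 < c0 / 2 * P := by positivity
  linarith

end SYS.GS
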