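import Pool.Agent.SYS.GS.Lon

/-!
# SYS-GS-Prt: every position near a good centre has a partner

Application of `lone` to the walk shifted by `P - 2 q`.
-/

namespace SYS.GS

open Classical SST GNH

variable {D : Type} {T : Tri D} {w : ℕ → D} {l : ℕ}

theorem partner [Finite D] (hT : T.Conn) (h : Mzw T w l) {k : D → ℤ} (hk : ∀ d, k (T.f d) = k d)
    (hc : ∀ d, T.chain (st w 0 l) d = k d - k (T.a d)) {x : T.V} {R q P ρ : ℕ} (hq : 4 ≤ q) (hl : 4 * q < l) (hP : 2 * q ≤ P)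
    (hF : FB T x (4 * R + 1)) (hρ : ρ + 2 * q ≤ R) (hx : Dle T ρ x (T.tl (w P)))
    (hlow : 8 * {d | Dle T R x (T.tl d) ∧ k d ≠ 0}.ncard < q ^ 2) :
    ∃ j, Dle T q (T.tl (w P)) (T.tl (w j)) ∧ ∀ i, i % l = j % l → 2 * q < ab i P := by
  by_contra hno
  push Not at hno
  obtain ⟨a, ha⟩ : ∃ a, a + 2 * q = P := ⟨P - 2 * q, by omega⟩
  have hw : w (2 * q + a) = w P := by
    congr 1
    omega
  have hc' : ∀ d, T.chain (st (fun i => w (i + a)) 0 l) d = k d - k (T.a d) := by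
    intro d
    rw [st_shift, h.toPW.chain_shift, hc]
  have hg : ∀ i j, i ≤ j → j ≤ 4 * q →
      8 * (j - i) ≤ 9 * dst T (T.tl (w (i + a))) (T.tl (w (j + a))) := by
    intro i j hij hj
    have h1 := (h.qgb hT hF (i := i + a) (k := j - i) (fun m hm => by
      have h2 := hx.trans (h.toPW.dle_ab P (i + a + m))
      refine h2.mono ?_
      unfold ab
      omega)).2
    have h3 : i + a + (j - i) = j + a := by omega
    rw [h3] at h1
    exact h1
  have h1 : ∀ i < l, Dle T q (T.tl (w (2 * q + a))) (T.tl (w (i + a))) → i ≤ 4 * q := by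
    intro i hi hd
    by_contra hlt
    rw [hw] at hd
    obtain ⟨i', h2, h3⟩ := hno (i + a) hd
    unfold ab at h3
    obtain ⟨m, hm⟩ : ∃ m, m + a = i' := ⟨i' - a, by omega⟩
    rw [← hm] at h2
    have h4 : m % l = i % l := Nat.ModEq.add_right_cancel' a h2
    rw [Nat.mod_eq_of_lt (by omega : m < l), Nat.mod_eq_of_lt hi] at h4
    omega
  have h2 := lone hT (h.toPW.shift a) hk hc' hq hl hg h1
  have h3 : {d | Dle T q (T.tl (w (2 * q + a))) (T.tl d) ∧ k d ≠ 0}.ncard ≤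
      {d | Dle T R x (T.tl d) ∧ k d ≠ 0}.ncard := by
    refine Set.ncard_le_ncard ?_ (Set.toFinite _)
    rintro d ⟨hd, hk0⟩
    rw [hw] at hd
    exact ⟨(hx.trans hd).mono (by omega), hk0⟩
  have h4 : q ^ 2 ≤ 8 * {d | Dle T q (T.tl (w (2 * q + a))) (T.tl d) ∧ k d ≠ 0}.ncard := h2
  omega

end SYS.GS
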