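import Pool.Agent.SYS.LP.Defs

/-!
# SYS-GS-Win: two of many windows of a periodic walk meet (pigeonhole, numbers only)

PROOF. `win`: suppose no such pair. The sets `W_b = {i % l | ab i (J b) ≤ r}`, `b ≤ M`, have `2 r + 1` elements each (`2 r < l`: `i ↦ i % l` is injective on `2 r + 1` consecutive numbers), they are contained in `{t | t < l ∧ V t}` (`V i → V (i % l)` by periodicity),
and they are pairwise disjoint: a common element gives `i ≡ i'` mod `l`, `ab i (J b) ≤ r`, `ab i' (J b') ≤ r`; then `J' = i + J b' - i'` (`2 r ≤ J b` makes it a natural number) has `J' % l = J b' % l`, `ab J' (J b) ≤ 2 r`, and every `n` between `J'` and `J b` has `ab n (J b) ≤ r` or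
`ab n J' ≤ r`, and in the second case `n + i' - i` (or the congruent number `n + J b' + l * .. - J'`) is within `r` of `J b'`, so `V n` (periodicity). So `(M + 1) (2 r + 1) ≤ N0`, contradiction.
-/

namespace SYS.GS

open Classical SST GNH

variable {l : ℕ}

/-- one direction of the conclusion from a common element -/
private theorem win_of {V : ℕ → Prop} {r : ℕ} (hl : 0 < l) (hV : ∀ t, V (t + l) ↔ V t) {A B i i' : ℕ}
    (hA : ∀ n, ab n A ≤ r → V n) (hB : ∀ n, ab n B ≤ r → V n) (hAr : 2 * r ≤ A) (hBr : 2 * r ≤ B)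
    (hi : ab i A ≤ r) (hi' : ab i' B ≤ r) (hii : i % l = i' % l) :
    ∃ J' : ℕ, J' % l = B % l ∧ ab J' A ≤ 2 * r ∧ ∀ n, min J' A ≤ n → n ≤ max J' A → V n := by
  have _ := hl
  have hper : ∀ n, V (n % l) ↔ V n := by
    have h1 : Function.Periodic V l := fun t => propext (hV t)
    intro n
    rw [h1.map_mod_nat]
  unfold ab at hi hi'
  obtain ⟨J', hJ'⟩ : ∃ J', J' + i' = i + B := ⟨i + B - i', by omega⟩
  have hmod : J' ≡ B [MOD l] := by
    have h1 : J' + i' ≡ B + i' [MOD l] := by
      rw [hJ', Nat.add_comm i B]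
      exact Nat.ModEq.add_left B hii
    exact Nat.ModEq.add_right_cancel' i' h1
  have hab : ab J' A ≤ 2 * r := by
    unfold ab
    omega
  refine ⟨J', hmod, hab, fun n h1 h2 => ?_⟩
  by_cases hn : ab n A ≤ r
  · exact hA n hn
  · have hn' : ab n J' ≤ r := by
      unfold ab at hn hab ⊢
      rcases le_total J' A with h3 | h3
      · rw [min_eq_left h3] at h1
        rw [max_eq_right h3] at h2
        omega
      · rw [min_eq_right h3] at h1
        rw [max_eq_left h3] at h2
        omega
    have hge : J' ≤ n + B := by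
      unfold ab at hn'
      omega
    obtain ⟨n', hn2⟩ : ∃ n', n' + J' = n + B := ⟨n + B - J', by omega⟩
    have h3 : ab n' B ≤ r := by
      unfold ab at hn' ⊢
      omega
    have h4 : n' ≡ n [MOD l] := by
      have h5 : n' + J' ≡ n + J' [MOD l] := by
        rw [hn2]
        exact Nat.ModEq.add_left n hmod.symm
      exact Nat.ModEq.add_right_cancel' J' h5
    have h6 := hB n' h3
    rw [← hper n', h4, hper n] at h6
    exact h6

theorem win {V : ℕ → Prop} {r M N0 : ℕ} (hl : 0 < l) (hV : ∀ t, V (t + l) ↔ V t) (hN : {t | t < l ∧ V t}.ncard ≤ N0) {J : ℕ → ℕ}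
    (hJ : ∀ b ≤ M, ∀ i, ab i (J b) ≤ r → V i) (hr : 2 * r < l) (hJr : ∀ b ≤ M, 2 * r ≤ J b)
    (hM : N0 < (M + 1) * (2 * r + 1)) :
    ∃ b b' J' : ℕ, b < b' ∧ b' ≤ M ∧ J' % l = J b' % l ∧ ab J' (J b) ≤ 2 * r ∧
      ∀ n, min J' (J b) ≤ n → n ≤ max J' (J b) → V n := by
  have hper : ∀ n, V (n % l) ↔ V n := by
    have h1 : Function.Periodic V l := fun t => propext (hV t)
    intro n
    rw [h1.map_mod_nat]
  -- a common element of two windows
  have key : ∃ b b', b < b' ∧ b' ≤ M ∧ ∃ i i', ab i (J b) ≤ r ∧ ab i' (J b') ≤ r ∧ i % l = i' % l := by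
    by_contra hcon
    have hcon' : ∀ b b', b < b' → b' ≤ M → ∀ i i', ab i (J b) ≤ r → ab i' (J b') ≤ r →
        i % l ≠ i' % l := by
      intro b b' h1 h2 i i' h3 h4 h5
      exact hcon ⟨b, b', h1, h2, i, i', h3, h4, h5⟩
    obtain ⟨W, hW⟩ : ∃ W : ℕ → Finset ℕ, W = fun b => (Finset.Icc (J b - r) (J b + r)).image (· % l) :=
      ⟨_, rfl⟩
    have hmem : ∀ b ≤ M, ∀ t ∈ W b, ∃ i, ab i (J b) ≤ r ∧ i % l = t := by
      intro b hb t ht
      rw [hW] at ht
      obtain ⟨i, hi, rfl⟩ := Finset.mem_image.1 ht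
      rw [Finset.mem_Icc] at hi
      refine ⟨i, ?_, rfl⟩
      unfold ab
      omega
    have hcard : ∀ b ≤ M, (W b).card = 2 * r + 1 := by
      intro b hb
      rw [hW]
      show ((Finset.Icc (J b - r) (J b + r)).image (· % l)).card = _
      have h0 := hJr b hb
      rw [Finset.card_image_of_injOn, Nat.card_Icc]
      · omega
      · intro x hx y hy hxy
        rw [Finset.coe_Icc, Set.mem_Icc] at hx hy
        have hxy' : x % l = y % l := hxy
        rcases le_total x y with h | h
        · have h1 : l ∣ y - x := (Nat.modEq_iff_dvd' h).1 hxy'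
          have h2 : y - x = 0 := Nat.eq_zero_of_dvd_of_lt h1 (by omega)
          omega
        · have h1 : l ∣ x - y := (Nat.modEq_iff_dvd' h).1 hxy'.symm
          have h2 : x - y = 0 := Nat.eq_zero_of_dvd_of_lt h1 (by omega)
          omega
    have hdisj : ∀ b ∈ Finset.range (M + 1), ∀ b' ∈ Finset.range (M + 1), b ≠ b' →
        Disjoint (W b) (W b') := by
      intro b hb b' hb' hne
      rw [Finset.mem_range] at hb hb'
      rw [Finset.disjoint_left]
      intro t ht ht'
      obtain ⟨i, hi, hit⟩ := hmem b (by omega) t ht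
      obtain ⟨i', hi', hit'⟩ := hmem b' (by omega) t ht'
      rcases lt_or_gt_of_ne hne with h | h
      · exact hcon' b b' h (by omega) i i' hi hi' (hit.trans hit'.symm)
      · exact hcon' b' b h (by omega) i' i hi' hi (hit'.trans hit.symm)
    have h1 : ((Finset.range (M + 1)).biUnion W).card = (M + 1) * (2 * r + 1) := by
      rw [Finset.card_biUnion hdisj, Finset.sum_congr rfl
        (fun b hb => hcard b (by rw [Finset.mem_range] at hb; omega)), Finset.sum_const,
        Finset.card_range, smul_eq_mul]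
    have h2 : (((Finset.range (M + 1)).biUnion W : Finset ℕ) : Set ℕ) ⊆ {t | t < l ∧ V t} := by
      intro t ht
      rw [Finset.mem_coe, Finset.mem_biUnion] at ht
      obtain ⟨b, hb, ht⟩ := ht
      rw [Finset.mem_range] at hb
      obtain ⟨i, hi, hit⟩ := hmem b (by omega) t ht
      refine ⟨?_, ?_⟩
      · rw [← hit]
        exact Nat.mod_lt _ hl
      · rw [← hit, hper]
        exact hJ b (by omega) i hi
    have hfin : {t | t < l ∧ V t}.Finite := (Set.finite_lt_nat l).subset fun t ht => ht.1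
    have h3 := Set.ncard_le_ncard h2 hfin
    rw [Set.ncard_coe_finset, h1] at h3
    omega
  obtain ⟨b, b', hbb, hb', i, i', hi, hi', hii⟩ := key
  obtain ⟨J', h1, h2, h3⟩ := win_of hl hV (hJ b (by omega)) (hJ b' hb') (hJr b (by omega)) (hJr b' hb')
    hi hi' hii
  exact ⟨b, b', J', hbb, hb', h1, h2, h3⟩

end SYS.GS
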