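import Pool.Agent.SYS.GS.AsmB
import Pool.Agent.SYS.GS.Prt
import Pool.Agent.SYS.GS.Win

/-!
# SYS-GS-Cen: what a good centre gives: a repeated vertex or a configuration

The partners of `2 C2 + 1` equidistant times of the walk (`partner`) have windows of which two meet (`win`); this gives a ladder (`exists_lad`) and
the configuration (`lad_conf`).
-/

namespace SYS.GS

open Classical SST GNH

variable {D : Type} {T : Tri D} {w : ℕ → D} {l : ℕ}

private theorem cen_mod (h : PW T w l) (i : ℕ) : w (i % l) = w i := by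
  have h1 := h.add_mul (i % l) (i / l)
  have h2 : i % l + i / l * l = i := by
    rw [mul_comm]
    exact Nat.mod_add_div i l
  rw [h2] at h1
  exact h1.symm

private theorem cen_eq (h : PW T w l) {i j : ℕ} (hij : i % l = j % l) : w i = w j := by
  rw [← cen_mod h i, hij, cen_mod h j]

/-- no time near `p` is congruent to a time near the partner -/
private theorem cen_res (hT : T.Conn) (h : Mzw T w l) {x : T.V} {m t p p' j0 j j' : ℕ} (hF : FB T x (4 * m + 1))
    (hl : 0 < l) (hα : ∀ i, p ≤ i → i ≤ p' → Dle T m x (T.tl (w i)))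
    (hβ : ∀ i, min j j' ≤ i → i ≤ max j j' → Dle T m x (T.tl (w i))) (hjj : ab j' j ≤ p) (hj : j % l = j0 % l)
    (hd : Dle T t (T.tl (w p)) (T.tl (w j0))) (hpt : ∀ i, i % l = j0 % l → 2 * t < ab i p) {n n' : ℕ}
    (h1 : p ≤ n) (h2 : n ≤ p') (h3 : min j j' ≤ n') (h4 : n' ≤ max j j') (h5 : n % l = n' % l) : False := by
  have _ := hl
  have hnj : n' ≤ n + j := by
    unfold ab at hjj
    omega
  obtain ⟨s, hs⟩ : ∃ s, s + n' = n + j := ⟨n + j - n', by omega⟩
  have hsj : s % l = j % l := by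
    have e1 : s + n' ≡ j + n' [MOD l] := by
      rw [hs, Nat.add_comm n j]
      exact Nat.ModEq.add_left j h5
    exact Nat.ModEq.add_right_cancel' n' e1
  -- the times between `s` and `n`
  have hV : ∀ i, min s n ≤ i → i ≤ max s n → Dle T m x (T.tl (w i)) := by
    intro i hi1 hi2
    obtain ⟨i', hi'⟩ : ∃ i', i' + n = i + n' := ⟨i + n' - n, by omega⟩
    have e1 : i' % l = i % l := by
      have e2 : i' + n ≡ i + n [MOD l] := by
        rw [hi']
        exact Nat.ModEq.add_left i h5.symm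
      exact Nat.ModEq.add_right_cancel' n e2
    rw [← cen_eq h.toPW e1]
    exact hβ i' (by omega) (by omega)
  have hV2 : ∀ i, min s p ≤ i → i ≤ max s p → Dle T m x (T.tl (w i)) := by
    intro i hi1 hi2
    by_cases hi3 : min s n ≤ i ∧ i ≤ max s n
    · exact hV i hi3.1 hi3.2
    · exact hα i (by omega) (by omega)
  have hq := h.qgb hT hF (i := min s p) (k := ab s p) (fun i hi => by
    refine hV2 _ (by omega) ?_
    unfold ab at hi
    omega)
  have hds : dst T (T.tl (w (min s p))) (T.tl (w (min s p + ab s p))) ≤ t := by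
    have e0 : w s = w j0 := cen_eq h.toPW (hsj.trans hj)
    have e1 : dst T (T.tl (w p)) (T.tl (w s)) ≤ t := by
      rw [e0]
      exact (dle_iff hT _ _ _).1 hd
    rcases le_total s p with e2 | e2
    · have e3 : min s p + ab s p = p := by
        unfold ab
        omega
      rw [e3, min_eq_left e2, dst_comm]
      exact e1
    · have e3 : min s p + ab s p = s := by
        unfold ab
        omega
      rw [e3, min_eq_right e2]
      exact e1
  have h6 := hpt s (hsj.trans hj)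
  have h7 := hq.2
  omega

theorem local_gap [Finite D] (hT : T.Conn) (h : Mzw T w l) {k2 : D → ℤ} (hk : ∀ d, k2 (T.f d) = k2 d)
    (hc : ∀ d, T.chain (st w 0 l) d = k2 d - k2 (T.a d)) {C2 t m a : ℕ} (ht : 4 ≤ t) (hC : 1 ≤ C2) (hm : m = 120 * C2 * t)
    (hF : FB T (T.tl (w a)) (16 * m)) (hV : {j | j < l ∧ Dle T m (T.tl (w a)) (T.tl (w j))}.ncard ≤ C2 * m)
    (hA : 8 * {d | Dle T m (T.tl (w a)) (T.tl d) ∧ k2 d ≠ 0}.ncard < t ^ 2) :
    (∃ v, Dle T m (T.tl (w a)) v ∧ 2 ≤ cnt T (st w 0 l) v) ∨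
      ∃ (k : ℕ) (z : Fin (2 * k) → D), k ≤ 2 * m ∧ Conf T k z (En T (st w 0 l)) ∧
        ∀ i, Dle T m (T.tl (w a)) (T.tl (z i)) := by
  by_cases hcase : ∃ v, Dle T m (T.tl (w a)) v ∧ 2 ≤ cnt T (st w 0 l) v
  · exact Or.inl hcase
  refine Or.inr ?_
  have hlong := FB.long hT h hF
  have hnr : ∀ a' b', Dle T m (T.tl (w a)) (T.tl (w a')) → T.tl (w a') = T.tl (w b') → a' % l = b' % l := by
    intro a' b' h1 h2
    refine PW.nrep h.toPW ?_ h2
    by_contra h3
    exact hcase ⟨_, h1, by omega⟩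
  obtain ⟨K, hK⟩ : ∃ K, K = C2 * t := ⟨_, rfl⟩
  have htK : t ≤ K := by
    rw [hK]
    exact Nat.le_mul_of_pos_left t hC
  have hmK : m = 120 * K := by
    rw [hm, hK]
    ring
  have hF4 : FB T (T.tl (w a)) (4 * m + 1) := hF.mono (by omega)
  obtain ⟨P, hP⟩ : ∃ P : ℕ → ℕ, P = fun b => a + l + b * (40 * t) := ⟨_, rfl⟩
  have hPb : ∀ b, P b = a + l + b * (40 * t) := fun b => by rw [hP]
  have hb80 : ∀ b, b ≤ 2 * C2 → b * (40 * t) ≤ 80 * K := by
    intro b hb
    calc b * (40 * t) ≤ (2 * C2) * (40 * t) := Nat.mul_le_mul_right _ hb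
      _ = 80 * K := by
        rw [hK]
        ring
  have hwal : w (a + l) = w a := h.per a
  have hball : ∀ i, a + l ≤ i → i ≤ a + l + 80 * K → Dle T (80 * K) (T.tl (w a)) (T.tl (w i)) := by
    intro i h1 h2
    have h3 := h.toPW.dle_ab (a + l) i
    rw [hwal] at h3
    refine h3.mono ?_
    unfold ab
    omega
  have hPx : ∀ b, b ≤ 2 * C2 → Dle T (80 * K) (T.tl (w a)) (T.tl (w (P b))) := by
    intro b hb
    have h1 := hb80 b hb
    rw [hPb]
    exact hball _ (by omega) (by omega)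
  have hpart : ∀ b, ∃ j, b ≤ 2 * C2 → Dle T t (T.tl (w (P b))) (T.tl (w j)) ∧
      ∀ i, i % l = j % l → 2 * t < ab i (P b) := by
    intro b
    by_cases hb : b ≤ 2 * C2
    · obtain ⟨j, h1, h2⟩ := partner hT h hk hc (R := m) (q := t) (P := P b) (ρ := 80 * K) ht (by omega)
        (by rw [hPb]; omega) hF4 (by omega) (hPx b hb) hA
      exact ⟨j, fun _ => ⟨h1, h2⟩⟩
    · exact ⟨0, fun h1 => absurd h1 hb⟩
  choose j hj using hpart
  have hwj : ∀ b, w (j b + l) = w (j b) := fun b => h.per _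
  -- two windows meet
  have hwin := win (l := l) (V := fun i => Dle T m (T.tl (w a)) (T.tl (w i))) (r := 30 * K) (M := 2 * C2)
    (N0 := C2 * m) h.pos (fun i => by rw [h.per]) hV (J := fun b => j b + l)
    (fun b hb i hi => by
      have h1 := (hPx b hb).trans (hj b hb).1
      have h2 := h.toPW.dle_ab (j b + l) i
      rw [hwj] at h2
      refine (h1.trans h2).mono ?_
      unfold ab at hi ⊢
      omega) (by omega) (fun b hb => by
        show 2 * (30 * K) ≤ j b + l
        omega) (by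
        rw [hmK]
        nlinarith)
  obtain ⟨b, b', J', hbb, hb', hJ1, hJ2, hJ3⟩ := hwin
  have hJ1' : J' % l = j b' % l := by
    rw [hJ1]
    show (j b' + l) % l = _
    exact Nat.add_mod_right _ _
  have hJ2' : ab J' (j b + l) ≤ 2 * (30 * K) := hJ2
  have hJ3' : ∀ n, min J' (j b + l) ≤ n → n ≤ max J' (j b + l) → Dle T m (T.tl (w a)) (T.tl (w n)) := hJ3
  have hbM : b ≤ 2 * C2 := by omega
  have h80 := hb80 b hbM
  have h80' := hb80 b' hb'
  have hstep : b * (40 * t) + 40 * t ≤ b' * (40 * t) := by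
    calc b * (40 * t) + 40 * t = (b + 1) * (40 * t) := by ring
      _ ≤ b' * (40 * t) := Nat.mul_le_mul_right _ hbb
  have hPP : P b + 40 * t ≤ P b' := by
    rw [hPb, hPb]
    omega
  have hα : ∀ i, P b ≤ i → i ≤ P b' → Dle T (80 * K) (T.tl (w a)) (T.tl (w i)) := by
    intro i h1 h2
    rw [hPb] at h1 h2
    exact hball i (by omega) (by omega)
  have hβ : ∀ i, min (j b + l) J' ≤ i → i ≤ max (j b + l) J' → Dle T m (T.tl (w a)) (T.tl (w i)) := by
    intro i h1 h2
    exact hJ3' i (by rwa [min_comm]) (by rwa [max_comm])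
  have hd : Dle T t (T.tl (w (P b))) (T.tl (w (j b + l))) := by
    rw [hwj]
    exact (hj b hbM).1
  have hd' : Dle T t (T.tl (w (P b'))) (T.tl (w J')) := by
    rw [cen_eq h.toPW hJ1']
    exact (hj b' hb').1
  have hres : ∀ n n', P b ≤ n → n ≤ P b' → min (j b + l) J' ≤ n' → n' ≤ max (j b + l) J' → n % l ≠ n' % l := by
    intro n n' h1 h2 h3 h4 h5
    refine cen_res hT h hF4 h.pos (fun i h6 h7 => (hα i h6 h7).mono (by omega)) hβ ?_ (Nat.add_mod_right _ _)
      (hj b hbM).1 (hj b hbM).2 h1 h2 h3 h4 h5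
    rw [hPb]
    omega
  obtain ⟨i0, i1, j1, j0, γ, δ, hL, hlen⟩ := exists_lad hT h (t := t) (r := 80 * K) (p := P b) (p' := P b')
    (j := j b + l) (j' := J') hF4 (by omega) (by omega) hPP hα hβ hd hd' hres hnr
  obtain ⟨k, z, hk1, hk2, hk3⟩ := lad_conf hT h (by omega) hL hnr
  refine ⟨k, z, ?_, hk2, hk3⟩
  rw [hPb, hPb] at hlen
  have h9 : ab (j b + l) J' = ab J' (j b + l) := by
    unfold ab
    omega
  omega

end SYS.GS
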