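import Pool.Agent.SYS.GS.Defs

/-!
# SYS-GS-Cone: opening a slit and filling it with a cone
`cone T h`, `h : Slit T k z`: darts `D ⊕ Fin (2 k) × Fin 3`.  New triangles `(i,0), (i,1), (i,2)`; `(i,0)` is glued with `z i`, `(i,1)` with
`(i-1,2)`; `(i,0) : hd (z i) → tl (z i)`, `(i,1) : tl (z i) → apex`, `(i,2) : apex → hd (z i)`.
-/

namespace SYS.GS

open Classical SST GNH

variable {D : Type} {T : Tri D} {k : ℕ} {z : Fin (2 * k) → D}

/-- Next dart around the slit. -/
def nxt (k : ℕ) : Equiv.Perm (Fin (2 * k)) := finRotate (2 * k)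

theorem nxt_val (i : Fin (2 * k)) : (nxt k i).val = if i.val + 1 = 2 * k then 0 else i.val + 1 := by
  obtain ⟨m, hm⟩ : ∃ m, 2 * k = m + 1 := ⟨2 * k - 1, by have := i.isLt; omega⟩
  unfold nxt
  revert i
  rw [hm]
  intro i
  by_cases h : i.val = m
  · have e : i = Fin.last m := Fin.ext h
    subst e
    rw [finRotate_last]
    simp
  · have hi : i.val < m := by have := i.isLt; omega
    rw [coe_finRotate_of_ne_last (fun e => h (by rw [e]; rfl)), if_neg (by omega)]

/-- The gluing of the cone. -/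
noncomputable def cA (T : Tri D) (z : Fin (2 * k) → D) : D ⊕ Fin (2 * k) × Fin 3 → D ⊕ Fin (2 * k) × Fin 3
  | Sum.inl d => if h : ∃ i, z i = d then Sum.inr (h.choose, 0) else Sum.inl (T.a d)
  | Sum.inr (i, j) => if j = 0 then Sum.inl (z i) else if j = 1 then Sum.inr ((nxt k).symm i, 2) else Sum.inr (nxt k i, 1)

private theorem cA_z (h : Slit T k z) (i : Fin (2 * k)) : cA T z (Sum.inl (z i)) = Sum.inr (i, 0) := by
  have he : ∃ j, z j = z i := ⟨i, rfl⟩
  have h1 : he.choose = i := h.inj he.choose_spec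
  show (if h : ∃ j, z j = z i then Sum.inr (h.choose, 0) else Sum.inl (T.a (z i))) = _
  rw [dif_pos he, h1]

private theorem cA_inl {d : D} (hd : d ∉ Set.range z) : cA T z (Sum.inl d) = Sum.inl (T.a d) := by
  have he : ¬ ∃ j, z j = d := fun ⟨j, hj⟩ => hd ⟨j, hj⟩
  show (if h : ∃ j, z j = d then Sum.inr (h.choose, 0) else Sum.inl (T.a d)) = _
  rw [dif_neg he]

theorem not_range_a (h : Slit T k z) {d : D} (hd : d ∉ Set.range z) : T.a d ∉ Set.range z := by
  rintro ⟨i, hi⟩
  exact hd ⟨i.rev, by rw [← h.rv, hi, T.aa]⟩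

private theorem cA_inv (h : Slit T k z) (e : D ⊕ Fin (2 * k) × Fin 3) : cA T z (cA T z e) = e := by
  rcases e with d | ⟨i, j⟩
  · by_cases hd : d ∈ Set.range z
    · obtain ⟨i, rfl⟩ := hd
      rw [cA_z h]
      rfl
    · rw [cA_inl hd, cA_inl (not_range_a h hd), T.aa]
  · fin_cases j
    · show cA T z (Sum.inl (z i)) = _
      rw [cA_z h]
      rfl
    · show Sum.inr (nxt k ((nxt k).symm i), 1) = _
      rw [Equiv.apply_symm_apply]
      rfl
    · show Sum.inr ((nxt k).symm (nxt k i), 2) = _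
      rw [Equiv.symm_apply_apply]
      rfl

private theorem cA_ne (h : Slit T k z) (e : D ⊕ Fin (2 * k) × Fin 3) : cA T z e ≠ e := by
  rcases e with d | ⟨i, j⟩
  · by_cases hd : d ∈ Set.range z
    · obtain ⟨i, rfl⟩ := hd
      rw [cA_z h]
      exact Sum.inr_ne_inl
    · rw [cA_inl hd]
      exact fun e => T.ane d (Sum.inl_injective e)
  · fin_cases j
    · exact Sum.inl_ne_inr
    · intro e
      have := congrArg (fun e : D ⊕ Fin (2 * k) × Fin 3 => Sum.elim (fun _ => 0) (fun p => p.2) e) e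
      simp [cA] at this
    · intro e
      have := congrArg (fun e : D ⊕ Fin (2 * k) × Fin 3 => Sum.elim (fun _ => 0) (fun p => p.2) e) e
      simp [cA] at this

/-- Open the slit and fill it with the cone over a new vertex. -/
noncomputable def cone (T : Tri D) {k : ℕ} {z : Fin (2 * k) → D} (h : Slit T k z) : Tri (D ⊕ Fin (2 * k) × Fin 3) where
  a := ⟨cA T z, cA T z, cA_inv h, cA_inv h⟩
  f := Equiv.sumCongr T.f (Equiv.prodCongr (Equiv.refl _) (finRotate 3))
  aa := cA_inv h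
  ane := cA_ne h
  fff := by
    rintro (d | ⟨i, j⟩)
    · exact congrArg Sum.inl (T.fff d)
    · fin_cases j <;> rfl
  fne := by
    rintro (d | ⟨i, j⟩)
    · exact fun e => T.fne d (Sum.inl_injective e)
    · intro e
      have h1 := congrArg (fun e : D ⊕ Fin (2 * k) × Fin 3 => Sum.elim (fun _ => 0) (fun p => p.2) e) e
      fin_cases j <;> simp at h1

variable (h : Slit T k z)

theorem cone_f_inl (d : D) : (cone T h).f (Sum.inl d) = Sum.inl (T.f d) := rfl

theorem cone_f_0 (i : Fin (2 * k)) : (cone T h).f (Sum.inr (i, 0)) = Sum.inr (i, 1) := rfl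

theorem cone_f_1 (i : Fin (2 * k)) : (cone T h).f (Sum.inr (i, 1)) = Sum.inr (i, 2) := rfl

theorem cone_f_2 (i : Fin (2 * k)) : (cone T h).f (Sum.inr (i, 2)) = Sum.inr (i, 0) := rfl

theorem cone_a_z (i : Fin (2 * k)) : (cone T h).a (Sum.inl (z i)) = Sum.inr (i, 0) := cA_z h i

theorem cone_a_inl {d : D} (hd : d ∉ Set.range z) : (cone T h).a (Sum.inl d) = Sum.inl (T.a d) := cA_inl hd

theorem cone_a_0 (i : Fin (2 * k)) : (cone T h).a (Sum.inr (i, 0)) = Sum.inl (z i) := rfl

theorem cone_a_1 (i : Fin (2 * k)) : (cone T h).a (Sum.inr (i, 1)) = Sum.inr ((nxt k).symm i, 2) := rfl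

theorem cone_a_2 (i : Fin (2 * k)) : (cone T h).a (Sum.inr (i, 2)) = Sum.inr (nxt k i, 1) := rfl

theorem cone_s_z (i : Fin (2 * k)) : (cone T h).s (Sum.inl (z i)) = Sum.inr (i, 1) := by
  show (cone T h).f ((cone T h).a (Sum.inl (z i))) = _
  rw [cone_a_z]
  rfl

theorem cone_s_inl {d : D} (hd : d ∉ Set.range z) : (cone T h).s (Sum.inl d) = Sum.inl (T.s d) := by
  show (cone T h).f ((cone T h).a (Sum.inl d)) = _
  rw [cone_a_inl h hd]
  rfl

theorem cone_s_0 (i : Fin (2 * k)) : (cone T h).s (Sum.inr (i, 0)) = Sum.inl (T.f (z i)) := rfl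

theorem cone_s_1 (i : Fin (2 * k)) : (cone T h).s (Sum.inr (i, 1)) = Sum.inr ((nxt k).symm i, 0) := rfl

theorem cone_s_2 (i : Fin (2 * k)) : (cone T h).s (Sum.inr (i, 2)) = Sum.inr (nxt k i, 2) := rfl

/-- The new vertex. -/
noncomputable def apx : (cone T h).V := (cone T h).tl (Sum.inr (⟨0, by have := h.pos; omega⟩, 2))

end SYS.GS
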