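import Pool.Agent.SYS.GS.Cone

/-!
# SYS-GS-ConeC: the cone is connected

All new darts are linked, and the old ones as before.
-/

namespace SYS.GS

open Classical SST GNH

variable {D : Type} {T : Tri D} {k : ℕ} {z : Fin (2 * k) → D}

private theorem cc_all (h : Slit T k z) {S : Set (D ⊕ Fin (2 * k) × Fin 3)}
    (hcl : ∀ d ∈ S, (cone T h).a d ∈ S ∧ (cone T h).f d ∈ S) {p : Fin (2 * k) × Fin 3} (hp : Sum.inr p ∈ S) :
    ∀ q : Fin (2 * k) × Fin 3, Sum.inr q ∈ S := by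
  have e0 : ∀ i : Fin (2 * k), Sum.inr (i, 0) ∈ S → Sum.inr (i, 1) ∈ S := fun i hi => (hcl _ hi).2
  have e1 : ∀ i : Fin (2 * k), Sum.inr (i, 1) ∈ S → Sum.inr (i, 2) ∈ S := fun i hi => (hcl _ hi).2
  have e2 : ∀ i : Fin (2 * k), Sum.inr (i, 2) ∈ S → Sum.inr (i, 0) ∈ S := fun i hi => (hcl _ hi).2
  have e3 : ∀ i : Fin (2 * k), Sum.inr (i, 2) ∈ S → Sum.inr (nxt k i, 1) ∈ S := fun i hi => (hcl _ hi).1
  have h3 : ∀ j : Fin 3, j = 0 ∨ j = 1 ∨ j = 2 := by decide
  have hto : ∀ (i : Fin (2 * k)) (j : Fin 3), Sum.inr (i, j) ∈ S → Sum.inr (i, (2 : Fin 3)) ∈ S := by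
    intro i j hij
    rcases h3 j with hj | hj | hj
    · rw [hj] at hij
      exact e1 i (e0 i hij)
    · rw [hj] at hij
      exact e1 i hij
    · rw [hj] at hij
      exact hij
  have hfr : ∀ (i : Fin (2 * k)) (j : Fin 3), Sum.inr (i, (2 : Fin 3)) ∈ S → Sum.inr (i, j) ∈ S := by
    intro i j hij
    rcases h3 j with hj | hj | hj
    · rw [hj]
      exact e2 i hij
    · rw [hj]
      exact e0 i (e2 i hij)
    · rw [hj]
      exact hij
  have hstep : ∀ i : Fin (2 * k), Sum.inr (i, (2 : Fin 3)) ∈ S → Sum.inr (nxt k i, (2 : Fin 3)) ∈ S :=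
    fun i hi => e1 _ (e3 i hi)
  have hpos : 0 < 2 * k := by
    have := h.pos
    omega
  -- go up to the last index
  have hup : ∀ m : ℕ, ∀ i : Fin (2 * k), i.val + m + 1 = 2 * k → Sum.inr (i, (2 : Fin 3)) ∈ S →
      Sum.inr ((⟨0, hpos⟩ : Fin (2 * k)), (2 : Fin 3)) ∈ S := by
    intro m
    induction m with
    | zero =>
      intro i hi hiS
      have h1 : nxt k i = ⟨0, hpos⟩ := by
        apply Fin.ext
        rw [nxt_val, if_pos (by omega)]
      rw [← h1]
      exact hstep i hiS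
    | succ m ih =>
      intro i hi hiS
      have h1 : (nxt k i).val = i.val + 1 := by
        rw [nxt_val, if_neg (by omega)]
      exact ih (nxt k i) (by omega) (hstep i hiS)
  have h0 : Sum.inr ((⟨0, hpos⟩ : Fin (2 * k)), (2 : Fin 3)) ∈ S := by
    obtain ⟨i, j⟩ := p
    refine hup (2 * k - 1 - i.val) i ?_ (hto i j hp)
    have := i.isLt
    omega
  have hev : ∀ (m : ℕ) (hm : m < 2 * k), Sum.inr ((⟨m, hm⟩ : Fin (2 * k)), (2 : Fin 3)) ∈ S := by
    intro m
    induction m with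
    | zero => exact fun _ => h0
    | succ m ih =>
      intro hm
      have h1 : nxt k ⟨m, by omega⟩ = ⟨m + 1, hm⟩ := by
        apply Fin.ext
        rw [nxt_val, if_neg (by show ¬ (m + 1 = 2 * k); omega)]
      rw [← h1]
      exact hstep _ (ih (by omega))
  rintro ⟨i, j⟩
  exact hfr i j (hev i.val i.isLt)

theorem cone_conn (h : Slit T k z) (hT : T.Conn) : (cone T h).Conn := by
  intro S hS hcl
  have hz : ∀ p : Fin (2 * k) × Fin 3, Sum.inr p ∈ S → ∀ i, Sum.inl (z i) ∈ S := by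
    intro p hp i
    exact (hcl _ (cc_all h hcl hp (i, 0))).1
  have hn : ∀ i, Sum.inl (z i) ∈ S → Sum.inr (i, 0) ∈ S := by
    intro i hi
    have h1 := (hcl _ hi).1
    rw [cone_a_z] at h1
    exact h1
  have hpos : 0 < 2 * k := by
    have := h.pos
    omega
  have hinl : ∃ e : D, Sum.inl e ∈ S := by
    obtain ⟨x, hx⟩ := hS
    rcases x with e | p
    · exact ⟨e, hx⟩
    · exact ⟨z ⟨0, hpos⟩, hz p hx _⟩
  have hu : {e : D | (Sum.inl e : D ⊕ Fin (2 * k) × Fin 3) ∈ S} = Set.univ := by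
    refine hT _ hinl ?_
    intro e he
    refine ⟨?_, (hcl _ he).2⟩
    show Sum.inl (T.a e) ∈ S
    by_cases h1 : e ∈ Set.range z
    · obtain ⟨i, hi⟩ := h1
      have h2 : Sum.inl (z i) ∈ S := by
        rw [hi]
        exact he
      have h3 : T.a e = z i.rev := by rw [← hi, h.rv]
      rw [h3]
      exact hz _ (hn i h2) _
    · have h5 := (hcl _ he).1
      rw [cone_a_inl h h1] at h5
      exact h5
  have hinl' : ∀ e : D, Sum.inl e ∈ S := by
    intro e
    have : e ∈ {e : D | (Sum.inl e : D ⊕ Fin (2 * k) × Fin 3) ∈ S} := by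
      rw [hu]
      exact Set.mem_univ _
    exact this
  rw [Set.eq_univ_iff_forall]
  rintro (e | p)
  · exact hinl' e
  · exact cc_all h hcl (hn _ (hinl' (z ⟨0, hpos⟩))) p

end SYS.GS
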