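import Pool.Agent.SYS.GS.ConeV

/-!
# SYS-GS-ConeG: gauge: a flat labelling which is trivial on the slit

PROOF. `hol_gauge`: induction on the walk. `flat_gauge`: `φ (T.tl (z i)) = lab (z 0) * … * lab (z (i - 1))` for `i ≤ k` (the `k + 1` vertices `T.tl (z i)`, `i ≤ k`, are different by `h.tl`; `i ≤ k < 2 k` or `k = 1`, `i = 1 < 2`), `1` for the other vertices; `lab1 d = φ (tl d) * lab d * (φ (hd d))⁻¹`. For `i < k`: `lab1 (z i) = 1` as `T.hd (z i) = T.tl (z (i + 1))`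
(`hd_z`, `nxt_val`); for `i ≥ k`: `z i = T.a (z i.rev)` with `i.rev < k`, `lab1 (T.a d) = (lab1 d)⁻¹`.
-/

namespace SYS.GS

open Classical SST GNH

variable {D : Type} {T : Tri D} {k : ℕ} {z : Fin (2 * k) → D} {G : Type} [Group G]

theorem hol_gauge {lab lab1 : D → G} {φ : T.V → G} (h : ∀ d, lab d = (φ (T.tl d))⁻¹ * lab1 d * φ (T.hd d)) {u v : T.V}
    {c : List D} (hc : T.IsWalk u c v) : hol lab c = (φ u)⁻¹ * hol lab1 c * φ v := by
  induction c generalizing u with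
  | nil =>
    have h1 : u = v := hc
    subst h1
    show (1 : G) = (φ u)⁻¹ * 1 * φ u
    group
  | cons d l ih =>
    obtain ⟨h1, h2⟩ := hc
    have h3 := ih h2
    have e1 : hol lab (d :: l) = lab d * hol lab l := by
      unfold hol
      rw [List.map_cons, List.prod_cons]
    have e2 : hol lab1 (d :: l) = lab1 d * hol lab1 l := by
      unfold hol
      rw [List.map_cons, List.prod_cons]
    rw [e1, e2, h3, h d, h1]
    group

theorem flat_gauge (h : Slit T k z) {lab : D → G} (hl : Flat T lab) :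
    ∃ (lab1 : D → G) (φ : T.V → G), Flat T lab1 ∧ Tz z lab1 ∧ ∀ d, lab d = (φ (T.tl d))⁻¹ * lab1 d * φ (T.hd d) := by
  have hk := h.pos
  -- partial products
  let g : ℕ → G := fun n => Nat.rec 1 (fun i acc => acc * (if hi : i < 2 * k then lab (z ⟨i, hi⟩) else 1)) n
  have g0 : g 0 = 1 := rfl
  have gs : ∀ i (hi : i < 2 * k), g (i + 1) = g i * lab (z ⟨i, hi⟩) := by
    intro i hi
    show g i * (if hi : i < 2 * k then lab (z ⟨i, hi⟩) else 1) = _
    rw [dif_pos hi]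
  let φ : T.V → G := fun v => if hv : ∃ i : Fin (2 * k), i.val ≤ k ∧ T.tl (z i) = v then g hv.choose.val else 1
  have hφ : ∀ i : Fin (2 * k), i.val ≤ k → φ (T.tl (z i)) = g i.val := by
    intro i hi
    have hv : ∃ j : Fin (2 * k), j.val ≤ k ∧ T.tl (z j) = T.tl (z i) := ⟨i, hi, rfl⟩
    show (if hv : ∃ j : Fin (2 * k), j.val ≤ k ∧ T.tl (z j) = T.tl (z i) then g hv.choose.val else 1) = _
    rw [dif_pos hv]
    obtain ⟨h1, h2⟩ := hv.choose_spec
    congr 1
    rcases (h.tl _ _).1 h2 with h3 | h3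
    · rw [h3]
    · omega
  let lab1 : D → G := fun d => φ (T.tl d) * lab d * (φ (T.hd d))⁻¹
  have hl1 : ∀ d, lab1 d = φ (T.tl d) * lab d * (φ (T.hd d))⁻¹ := fun _ => rfl
  have hinv : ∀ d, lab1 (T.a d) = (lab1 d)⁻¹ := by
    intro d
    rw [hl1, hl1, hl.inv, Tri.hd_a]
    show φ (T.hd d) * (lab d)⁻¹ * (φ (T.tl d))⁻¹ = (φ (T.tl d) * lab d * (φ (T.hd d))⁻¹)⁻¹
    group
  have hlow : ∀ i : Fin (2 * k), i.val < k → lab1 (z i) = 1 := by
    intro i hi
    have h1 : (nxt k i).val = i.val + 1 := by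
      rw [nxt_val, if_neg (by omega)]
    rw [hl1, hd_z h i, hφ i hi.le, hφ (nxt k i) (by omega), h1, gs i.val i.isLt]
    show g i.val * lab (z i) * (g i.val * lab (z i))⁻¹ = 1
    group
  refine ⟨lab1, φ, ⟨hinv, ?_⟩, ?_, ?_⟩
  · intro d
    rw [hl1, hl1, hl1, Tri.tl_f, Tri.tl_f, Tri.hd_ff]
    have h1 := hl.face d
    have h2 : φ (T.tl d) * lab d * (φ (T.hd d))⁻¹ * (φ (T.hd d) * lab (T.f d) * (φ (T.hd (T.f d)))⁻¹) *
        (φ (T.hd (T.f d)) * lab (T.f (T.f d)) * (φ (T.tl d))⁻¹) =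
        φ (T.tl d) * (lab d * lab (T.f d) * lab (T.f (T.f d))) * (φ (T.tl d))⁻¹ := by group
    rw [h2, h1]
    group
  · intro i
    by_cases hi : i.val < k
    · exact hlow i hi
    · have h1 : z i = T.a (z i.rev) := by
        rw [h.rv, Fin.rev_rev]
      have h2 : i.rev.val < k := by
        rw [Fin.val_rev]
        omega
      rw [h1, hinv, hlow _ h2, inv_one]
  · intro d
    rw [hl1]
    group

end SYS.GS
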