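import Pool.Agent.SYS.GS.ConeI
import Pool.Agent.SYS.GS.ConeG

/-!
# SYS-GS-ConeF: flat labellings of the cone
-/

namespace SYS.GS

open Classical SST GNH

variable {D : Type} {T : Tri D} {k : ℕ} {z : Fin (2 * k) → D} {G : Type} [Group G]

/-- Extension of a labelling to the cone. -/
def lbC (lab : D → G) : D ⊕ Fin (2 * k) × Fin 3 → G := Sum.elim lab fun _ => 1

theorem flat_up (h : Slit T k z) {lab : D → G} (hl : Flat T lab) (ht : Tz z lab) : Flat (cone T h) (lbC lab) := by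
  refine ⟨?_, ?_⟩
  · rintro (d | ⟨i, j⟩)
    · by_cases hd : d ∈ Set.range z
      · obtain ⟨i, rfl⟩ := hd
        rw [cone_a_z]
        show (1 : G) = (lab (z i))⁻¹
        rw [ht i, inv_one]
      · rw [cone_a_inl h hd]
        exact hl.inv d
    · fin_cases j
      · show lab (z i) = (1 : G)⁻¹
        rw [ht i, inv_one]
      · show (1 : G) = (1 : G)⁻¹
        rw [inv_one]
      · show (1 : G) = (1 : G)⁻¹
        rw [inv_one]
  · rintro (d | ⟨i, j⟩)
    · exact hl.face d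
    · show (1 : G) * 1 * 1 = 1
      rw [mul_one, mul_one]

theorem flat_down [Finite D] (h : Slit T k z) {lab' : D ⊕ Fin (2 * k) × Fin 3 → G} (hl : Flat (cone T h) lab') :
    ∃ (lab : D → G) (φ : (cone T h).V → G), Flat T lab ∧ Tz z lab ∧
      ∀ e, lab' e = (φ ((cone T h).tl e))⁻¹ * lbC lab e * φ ((cone T h).hd e) := by
  obtain ⟨bs, hb1, -, hb3⟩ := exists_bs h
  obtain ⟨φ, hφ⟩ : ∃ φ : (cone T h).V → G, ∀ v, φ v =
      if hv : ∃ i, v = (cone T h).tl (Sum.inl (z i)) then (lab' (Sum.inr (hv.choose, 1)))⁻¹ else 1 := ⟨_, fun _ => rfl⟩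
  have hφz : ∀ i, φ ((cone T h).tl (Sum.inl (z i))) = (lab' (Sum.inr (i, 1)))⁻¹ := by
    intro i
    have hv : ∃ j, (cone T h).tl (Sum.inl (z i)) = (cone T h).tl (Sum.inl (z j)) := ⟨i, rfl⟩
    rw [hφ, dif_pos hv, ← corner_inj h hv.choose_spec]
  have hφa : φ (apx h) = 1 := by
    rw [hφ, dif_neg]
    rintro ⟨i, hi⟩
    have h1 := hb1 (z i)
    rw [← hi, hb3] at h1
    exact absurd h1 (by simp)
  obtain ⟨lb, hlb⟩ : ∃ lb : D ⊕ Fin (2 * k) × Fin 3 → G, ∀ e, lb e =
      φ ((cone T h).tl e) * lab' e * (φ ((cone T h).hd e))⁻¹ := ⟨_, fun _ => rfl⟩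
  have hf : Flat (cone T h) lb := by
    refine ⟨fun e => ?_, fun e => ?_⟩
    · have e1 : (cone T h).tl ((cone T h).a e) = (cone T h).hd e := rfl
      rw [hlb, hlb, e1, Tri.hd_a, hl.inv]
      group
    · have h1 := hl.face e
      have h2 : lab' ((cone T h).f ((cone T h).f e)) = (lab' ((cone T h).f e))⁻¹ * (lab' e)⁻¹ := by
        rw [eq_inv_of_mul_eq_one_right h1, mul_inv_rev]
      rw [hlb, hlb, hlb, Tri.tl_f, Tri.tl_f, Tri.hd_ff, h2]
      group
  have h1 : ∀ i, lb (Sum.inr (i, 1)) = 1 := by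
    intro i
    rw [hlb, cone_tl_1, cone_hd_1, hφz, hφa, inv_mul_cancel, inv_one, mul_one]
  have h2 : ∀ i, lb (Sum.inr (i, 2)) = 1 := by
    intro i
    have h3 := hf.inv (Sum.inr (i, 2))
    rw [cone_a_2, h1] at h3
    exact inv_eq_one.1 h3.symm
  have h0 : ∀ i, lb (Sum.inr (i, 0)) = 1 := by
    intro i
    have h3 := hf.face (Sum.inr (i, 0))
    rw [cone_f_0, cone_f_1, h1, h2, mul_one, mul_one] at h3
    exact h3
  have hz : ∀ i, lb (Sum.inl (z i)) = 1 := by
    intro i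
    have h3 := hf.inv (Sum.inl (z i))
    rw [cone_a_z, h0] at h3
    exact inv_eq_one.1 h3.symm
  refine ⟨fun d => lb (Sum.inl d), φ, ⟨fun d => ?_, fun d => ?_⟩, hz, fun e => ?_⟩
  · by_cases hd : d ∈ Set.range z
    · obtain ⟨i, rfl⟩ := hd
      show lb (Sum.inl (T.a (z i))) = (lb (Sum.inl (z i)))⁻¹
      rw [h.rv, hz, hz, inv_one]
    · have h3 := hf.inv (Sum.inl d)
      rw [cone_a_inl h hd] at h3
      exact h3
  · exact hf.face (Sum.inl d)
  · have h3 : lbC (fun d => lb (Sum.inl d)) e = lb e := by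
      rcases e with d | ⟨i, j⟩
      · rfl
      · show (1 : G) = _
        fin_cases j
        · exact (h0 i).symm
        · exact (h1 i).symm
        · exact (h2 i).symm
    rw [h3, hlb]
    group

end SYS.GS
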