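import Pool.Agent.SYS.GS.Defs

/-! # SYS-GS-NulH: a null-homologous list has trivial holonomy for every flat labelling in an abelian group -/

namespace SYS.GS

open Classical SST GNH SST.Tri

variable {D : Type} {T : Tri D}

private theorem nh_ind_self (d : D) : ind d d = 1 := by
  unfold SST.Tri.ind
  simp

private theorem nh_ind_ne {d e : D} (h : d ≠ e) : ind d e = 0 := by
  unfold SST.Tri.ind
  simp [h]

private theorem nh_cons (T : Tri D) (e : D) (c : List D) (d : D) :
    T.chain (e :: c) d = (ind e d - ind e (T.a d)) + T.chain c d := by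
  unfold SST.Tri.chain
  rw [List.map_cons, List.sum_cons]

/-- the holonomy as a product over one dart of every edge -/
private theorem nh_hol [Fintype D] {G : Type} [CommGroup G] {lab : D → G} (hl : Flat T lab) {O : Finset D}
    (hO : ∀ d, d ∈ O ↔ T.a d ∉ O) (c : List D) : hol lab c = ∏ d ∈ O, lab d ^ T.chain c d := by
  induction c with
  | nil =>
    have h1 : ∀ d ∈ O, lab d ^ T.chain [] d = 1 := by
      intro d _
      have : T.chain [] d = 0 := rfl
      rw [this, zpow_zero]
    rw [Finset.prod_congr rfl h1, Finset.prod_const_one]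
    rfl
  | cons e c ih =>
    have h1 : ∀ d ∈ O, lab d ^ T.chain (e :: c) d =
        lab d ^ (ind e d - ind e (T.a d)) * lab d ^ T.chain c d := by
      intro d _
      rw [nh_cons, zpow_add]
    rw [Finset.prod_congr rfl h1, Finset.prod_mul_distrib, ← ih]
    have h2 : ∏ d ∈ O, lab d ^ (ind e d - ind e (T.a d)) = lab e := by
      by_cases he : e ∈ O
      · rw [Finset.prod_eq_single_of_mem e he]
        · rw [nh_ind_self, nh_ind_ne (T.ane e).symm, sub_zero, zpow_one]
        · intro d hd hde
          have h3 : e ≠ T.a d := by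
            intro h4
            have h5 := (hO d).1 hd
            rw [← h4] at h5
            exact h5 he
          rw [nh_ind_ne hde.symm, nh_ind_ne h3, sub_zero, zpow_zero]
      · have he' : T.a e ∈ O := by
          by_contra h3
          exact he ((hO e).2 h3)
        rw [Finset.prod_eq_single_of_mem (T.a e) he']
        · rw [nh_ind_ne (T.ane e).symm, T.aa, nh_ind_self, zero_sub, zpow_neg, zpow_one, hl.1 e, inv_inv]
        · intro d hd hde
          have h3 : e ≠ T.a d := by
            intro h4
            apply hde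
            rw [h4, T.aa]
          have h4 : e ≠ d := by
            rintro rfl
            exact he hd
          rw [nh_ind_ne h4, nh_ind_ne h3, sub_zero, zpow_zero]
    rw [h2]
    rfl

private theorem nh_f_ne (T : Tri D) (d : D) : T.f (T.f d) ≠ d := by
  intro h
  have h1 := congrArg T.f h
  rw [T.fff] at h1
  exact T.fne d h1.symm

theorem nullHom_hol [Finite D] {c : List D} (h : T.NullHom c) {G : Type} [CommGroup G] {lab : D → G} (hl : Flat T lab) :
    hol lab c = 1 := by
  have : Fintype D := Fintype.ofFinite D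
  obtain ⟨m, hm1, hm2⟩ := h
  set ix : D → ℕ := fun d => (Fintype.equivFin D d : ℕ) with hix
  have hinj : ∀ d e, ix d = ix e → d = e := fun d e hde =>
    (Fintype.equivFin D).injective (Fin.ext hde)
  set O : Finset D := Finset.univ.filter fun d => ix d < ix (T.a d) with hOdef
  have hO : ∀ d, d ∈ O ↔ T.a d ∉ O := by
    intro d
    rw [hOdef, Finset.mem_filter, Finset.mem_filter, T.aa]
    constructor
    · rintro ⟨_, h1⟩ ⟨_, h2⟩
      omega
    · intro h1
      refine ⟨Finset.mem_univ _, ?_⟩
      by_contra h2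
      apply h1
      refine ⟨Finset.mem_univ _, ?_⟩
      have h3 : ix (T.a d) ≠ ix d := fun h4 => T.ane d (hinj _ _ h4)
      omega
  set g : D → G := fun d => lab d ^ m d with hg
  -- the product over all darts
  have hc : hol lab c = ∏ d, g d := by
    rw [nh_hol hl hO c]
    have h1 : ∏ d, g d = ∏ d, ((if d ∈ O then g d else 1) * (if T.a d ∈ O then g d else 1)) := by
      refine Finset.prod_congr rfl fun d _ => ?_
      by_cases hd : d ∈ O
      · rw [if_pos hd, if_neg ((hO d).1 hd), mul_one]
      · have hd' : T.a d ∈ O := by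
          by_contra h3
          exact hd ((hO d).2 h3)
        rw [if_neg hd, if_pos hd', one_mul]
    have h2 : ∏ d, (if T.a d ∈ O then g d else 1) = ∏ d, (if d ∈ O then g (T.a d) else 1) := by
      rw [← Equiv.prod_comp T.a (fun d => if T.a d ∈ O then g d else 1)]
      refine Finset.prod_congr rfl fun d _ => ?_
      show (if T.a (T.a d) ∈ O then g (T.a d) else 1) = _
      rw [T.aa]
    rw [h1, Finset.prod_mul_distrib, h2, ← Finset.prod_mul_distrib,
      ← Finset.prod_subset (Finset.subset_univ O)]
    · refine Finset.prod_congr rfl fun d hd => ?_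
      rw [if_pos hd, if_pos hd, hm2 d, zpow_sub]
      show _ = lab d ^ m d * lab (T.a d) ^ m (T.a d)
      rw [hl.1 d, inv_zpow]
    · intro d _ hd
      rw [if_neg hd, if_neg hd, one_mul]
  rw [hc]
  set P : D → Prop := fun d => ix d < ix (T.f d) ∧ ix d < ix (T.f (T.f d)) with hP
  have h1 : ∏ d, g d = ∏ d, ((if P d then g d else 1) * (if P (T.f d) then g d else 1) *
      (if P (T.f (T.f d)) then g d else 1)) := by
    refine Finset.prod_congr rfl fun d _ => ?_
    have n1 : ix (T.f d) ≠ ix d := fun h4 => T.fne d (hinj _ _ h4)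
    have n2 : ix (T.f (T.f d)) ≠ ix (T.f d) := fun h4 => T.fne (T.f d) (hinj _ _ h4)
    have n3 : ix (T.f (T.f d)) ≠ ix d := fun h4 => nh_f_ne T d (hinj _ _ h4)
    have p1 : P d ↔ ix d < ix (T.f d) ∧ ix d < ix (T.f (T.f d)) := Iff.rfl
    have p2 : P (T.f d) ↔ ix (T.f d) < ix (T.f (T.f d)) ∧ ix (T.f d) < ix d := by
      rw [hP]
      show ix (T.f d) < ix (T.f (T.f d)) ∧ ix (T.f d) < ix (T.f (T.f (T.f d))) ↔ _
      rw [T.fff]
    have p3 : P (T.f (T.f d)) ↔ ix (T.f (T.f d)) < ix d ∧ ix (T.f (T.f d)) < ix (T.f d) := by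
      rw [hP]
      show ix (T.f (T.f d)) < ix (T.f (T.f (T.f d))) ∧ ix (T.f (T.f d)) < ix (T.f (T.f (T.f (T.f d)))) ↔ _
      rw [T.fff]
    by_cases q1 : P d
    · have q2 : ¬ P (T.f d) := by
        rw [p2]
        have := p1.1 q1
        omega
      have q3 : ¬ P (T.f (T.f d)) := by
        rw [p3]
        have := p1.1 q1
        omega
      rw [if_pos q1, if_neg q2, if_neg q3, mul_one, mul_one]
    · by_cases q2 : P (T.f d)
      · have q3 : ¬ P (T.f (T.f d)) := by
          rw [p3]
          have := p2.1 q2
          omega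
        rw [if_neg q1, if_pos q2, if_neg q3, mul_one, one_mul]
      · have q3 : P (T.f (T.f d)) := by
          rw [p3]
          rw [p1] at q1
          rw [p2] at q2
          omega
        rw [if_neg q1, if_neg q2, if_pos q3, mul_one, one_mul]
  have h2 : ∏ d, (if P (T.f d) then g d else 1) = ∏ d, (if P d then g (T.f (T.f d)) else 1) := by
    rw [← Equiv.prod_comp (T.f * T.f) (fun d => if P (T.f d) then g d else 1)]
    refine Finset.prod_congr rfl fun d _ => ?_
    show (if P (T.f (T.f (T.f d))) then g (T.f (T.f d)) else 1) = _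
    rw [T.fff]
  have h3 : ∏ d, (if P (T.f (T.f d)) then g d else 1) = ∏ d, (if P d then g (T.f d) else 1) := by
    rw [← Equiv.prod_comp T.f (fun d => if P (T.f (T.f d)) then g d else 1)]
    refine Finset.prod_congr rfl fun d _ => ?_
    show (if P (T.f (T.f (T.f d))) then g (T.f d) else 1) = _
    rw [T.fff]
  rw [h1, Finset.prod_mul_distrib, Finset.prod_mul_distrib, h2, h3, ← Finset.prod_mul_distrib,
    ← Finset.prod_mul_distrib]
  refine Finset.prod_eq_one fun d _ => ?_
  by_cases hd : P d
  · rw [if_pos hd, if_pos hd, if_pos hd]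
    show lab d ^ m d * lab (T.f (T.f d)) ^ m (T.f (T.f d)) * lab (T.f d) ^ m (T.f d) = 1
    rw [hm1 (T.f d), hm1 d, ← mul_zpow, ← mul_zpow]
    have h4 := hl.2 d
    have h5 : lab d * lab (T.f (T.f d)) * lab (T.f d) = lab d * lab (T.f d) * lab (T.f (T.f d)) := by
      rw [mul_assoc, mul_comm (lab (T.f (T.f d))), ← mul_assoc]
    rw [h5, h4, one_zpow]
  · rw [if_neg hd, if_neg hd, if_neg hd, mul_one, mul_one]

end SYS.GS
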