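import Pool.Agent.SYS.GS.ConeF
import Pool.Agent.SYS.GS.ConeC
import Pool.Agent.SYS.GS.NulH
import Pool.Agent.SYS.UT.AbF

/-!
# SYS-GS-ConeH: essential walks of the cone and of the triangulation

Combination of `flat_up`, `flat_down`, `flat_gauge` with `exists_flat_ab`, `htp_hol`.
-/

namespace SYS.GS

open Classical SST GNH

variable {D : Type} {T : Tri D} {k : ℕ} {z : Fin (2 * k) → D}

private theorem cone_down [Finite D] (h : Slit T k z) {c : List D} {c' : List (D ⊕ Fin (2 * k) × Fin 3)}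
    (hc' : (cone T h).Closed c')
    (hh : ∀ (G : Type) (_ : Group G) (lab : D → G), Flat T lab → Tz z lab →
      ∃ g : G, hol (lbC lab) c' = g * hol lab c * g⁻¹) {G : Type} [Group G]
    {lab' : D ⊕ Fin (2 * k) × Fin 3 → G} (hl : Flat (cone T h) lab') :
    ∃ lab : D → G, Flat T lab ∧ (hol lab c = 1 → hol lab' c' = 1) := by
  obtain ⟨lab, φ, h1, h2, h3⟩ := flat_down h hl
  obtain ⟨g, hg⟩ := hh G _ lab h1 h2
  obtain ⟨u, hu⟩ := hc'
  refine ⟨lab, h1, fun h4 => ?_⟩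
  rw [hol_gauge h3 hu, hg, h4]
  group

private theorem cone_up (h : Slit T k z) {c : List D} {c' : List (D ⊕ Fin (2 * k) × Fin 3)}
    (hc : T.Closed c)
    (hh : ∀ (G : Type) (_ : Group G) (lab : D → G), Flat T lab → Tz z lab →
      ∃ g : G, hol (lbC lab) c' = g * hol lab c * g⁻¹) {G : Type} [Group G]
    {lab : D → G} (hl : Flat T lab) :
    ∃ lab' : D ⊕ Fin (2 * k) × Fin 3 → G, Flat (cone T h) lab' ∧ (hol lab' c' = 1 → hol lab c = 1) := by
  obtain ⟨lab1, φ, h1, h2, h3⟩ := flat_gauge h hl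
  obtain ⟨g, hg⟩ := hh G _ lab1 h1 h2
  obtain ⟨u, hu⟩ := hc
  refine ⟨lbC lab1, flat_up h h1 h2, fun h4 => ?_⟩
  rw [hg, conj_eq_one_iff] at h4
  rw [hol_gauge h3 hu, h4]
  group

theorem cone_ess [Finite D] (hT : T.Conn) (h : Slit T k z) {c : List D} {c' : List (D ⊕ Fin (2 * k) × Fin 3)}
    (hc : T.Closed c) (hc' : (cone T h).Closed c')
    (hh : ∀ (G : Type) (_ : Group G) (lab : D → G), Flat T lab → Tz z lab →
      ∃ g : G, hol (lbC lab) c' = g * hol lab c * g⁻¹) : Ess T c ↔ Ess (cone T h) c' := by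
  constructor
  · rintro ⟨-, h1, h2⟩
    refine ⟨hc', ?_, fun h3 => h2 ?_⟩
    · obtain ⟨G, hG, l', hl', hn⟩ := exists_flat_ab (cone T h)
      obtain ⟨lab, hl, h4⟩ := cone_down h hc' hh hl'
      exact (hn c').1 (h4 (nullHom_hol h1 hl))
    · refine htp_hol hT hc fun G _ lab hl => ?_
      obtain ⟨lab', hl', h4⟩ := cone_up h hc hh hl
      exact h4 (hl'.nullHtp h3)
  · rintro ⟨-, h1, h2⟩
    refine ⟨hc, ?_, fun h3 => h2 ?_⟩
    · obtain ⟨G, hG, l, hl, hn⟩ := exists_flat_ab T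
      obtain ⟨lab', hl', h4⟩ := cone_up h hc hh hl
      exact (hn c).1 (h4 (nullHom_hol h1 hl'))
    · refine htp_hol (cone_conn h hT) hc' fun G _ lab' hl' => ?_
      obtain ⟨lab, hl, h4⟩ := cone_down h hc' hh hl'
      exact h4 (hl.nullHtp h3)

end SYS.GS
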