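import Pool.Agent.SYS.GS.ConeV

/-!
# SYS-GS-ConeI: the corners of the opened slit are different vertices
-/

namespace SYS.GS

open Classical SST GNH

variable {D : Type} {T : Tri D} {k : ℕ} {z : Fin (2 * k) → D}

private theorem tl_iff (T : Tri D) (d e : D) : T.tl d = T.tl e ↔ T.s.SameCycle d e :=
  ⟨fun h => Quotient.exact h, fun h => Quotient.sound h⟩

theorem card_VZ (h : Slit T k z) : (VZ T z).ncard = k + 1 := by
  have hk := h.pos
  obtain ⟨e, he⟩ : ∃ e : Fin (k + 1) → Fin (2 * k), ∀ i, (e i).val = i.val :=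
    ⟨fun i => ⟨i.val, by have := i.isLt; omega⟩, fun i => rfl⟩
  have h1 : VZ T z = (fun i => T.tl (z (e i))) '' Set.univ := by
    ext v
    constructor
    · rintro ⟨j, rfl⟩
      by_cases hj : j.val ≤ k
      · refine ⟨⟨j.val, by omega⟩, Set.mem_univ _, ?_⟩
        refine (h.tl _ _).2 (Or.inl (Fin.ext ?_))
        rw [he]
      · have hjl := j.isLt
        refine ⟨⟨2 * k - j.val, by omega⟩, Set.mem_univ _, ?_⟩
        refine (h.tl _ _).2 (Or.inr ?_)
        rw [he]
        show 2 * k - j.val + j.val = 2 * k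
        omega
    · rintro ⟨i, -, rfl⟩
      exact ⟨e i, rfl⟩
  have h2 : Function.Injective (fun i => T.tl (z (e i))) := by
    intro i j hij
    have hi := i.isLt
    have hj := j.isLt
    rcases (h.tl _ _).1 hij with h3 | h3
    · have h4 := congrArg Fin.val h3
      rw [he, he] at h4
      exact Fin.ext h4
    · rw [he, he] at h3
      exact Fin.ext (by omega)
  rw [h1, Set.ncard_image_of_injective _ h2, Set.ncard_univ, Nat.card_eq_fintype_card,
    Fintype.card_fin]

theorem ret_z [Finite D] (h : Slit T k z) (i : Fin (2 * k)) : ret T.s (Set.range z) (T.a (z i)) = z (nxt k i) := by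
  have hd : T.a (z i) ∈ Set.range z := ⟨i.rev, (h.rv i).symm⟩
  obtain ⟨m, h1, ⟨j, hj⟩, -⟩ := ret_spec T.s hd
  have h2 : T.tl (z j) = T.tl (z i.rev) := by
    rw [hj, h1, ← h.rv]
    exact ((tl_iff T _ _).2 ⟨((m + 1 : ℕ) : ℤ), by rw [zpow_natCast]⟩).symm
  have hrev : i.rev.val = 2 * k - 1 - i.val := by
    rw [Fin.val_rev]
    omega
  have hn := nxt_val i
  have hil := i.isLt
  have hjl := j.isLt
  rw [← hj]
  congr 1
  rcases (h.tl _ _).1 h2 with h3 | h3
  · by_cases h4 : nxt k i = i.rev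
    · rw [h3, h4]
    · exfalso
      have h5 : T.tl (z i.rev) = T.tl (z (nxt k i)) := by
        rw [← h.rv]
        exact hd_z h i
      have h6 := (ret_same T.s (X := Set.range z) ⟨i.rev, rfl⟩ ⟨nxt k i, rfl⟩).2 ((tl_iff T _ _).1 h5)
      have h7 : ret T.s (Set.range z) (z i.rev) = z i.rev := by
        rw [← h.rv, ← hj, h3, h.rv]
      obtain ⟨n, hn'⟩ := h6
      rw [Equiv.Perm.zpow_apply_eq_self_of_apply_eq_self h7] at hn'
      exact h4 (h.inj hn').symm
  · refine Fin.ext ?_
    split_ifs at hn with h4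
    · omega
    · omega

/-- the first dart of the slit after `d` is `z i` -/
private def FF (T : Tri D) (z : Fin (2 * k) → D) (d : D) (i : Fin (2 * k)) : Prop :=
  ∃ n : ℕ, (T.s ^ n) d = z i ∧ ∀ m < n, (T.s ^ m) d ∉ Set.range z

private noncomputable def fs (T : Tri D) (z : Fin (2 * k) → D) (d : D) : Option (Fin (2 * k)) :=
  if h : ∃ i, FF T z d i then some h.choose else none

private theorem FF_unique (h : Slit T k z) {d : D} {i j : Fin (2 * k)} (hi : FF T z d i) (hj : FF T z d j) :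
    i = j := by
  obtain ⟨n, h1, h2⟩ := hi
  obtain ⟨m, h3, h4⟩ := hj
  rcases Nat.lt_trichotomy n m with h5 | h5 | h5
  · exact absurd ⟨i, h1.symm⟩ (h4 n h5)
  · subst h5
    exact h.inj (h1.symm.trans h3)
  · exact absurd ⟨j, h3.symm⟩ (h2 m h5)

private theorem fs_eq (h : Slit T k z) {d : D} {i : Fin (2 * k)} (hi : FF T z d i) : fs T z d = some i := by
  have h1 : ∃ i, FF T z d i := ⟨i, hi⟩
  unfold fs
  rw [dif_pos h1, FF_unique h h1.choose_spec hi]

private theorem fs_congr {d e : D} (hde : ∀ i, FF T z d i ↔ FF T z e i) : fs T z d = fs T z e := by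
  have h1 : FF T z d = FF T z e := funext fun i => propext (hde i)
  unfold fs
  rw [h1]

private theorem FF_z (i : Fin (2 * k)) : FF T z (z i) i := ⟨0, rfl, fun m hm => absurd hm (by omega)⟩

private theorem s_pow (T : Tri D) (n : ℕ) (d : D) : (T.s ^ (n + 1)) d = (T.s ^ n) (T.s d) := by
  rw [pow_succ, Equiv.Perm.mul_apply]

private theorem FF_s {d : D} (hd : d ∉ Set.range z) (i : Fin (2 * k)) : FF T z (T.s d) i ↔ FF T z d i := by
  constructor
  · rintro ⟨n, h1, h2⟩
    refine ⟨n + 1, by rw [s_pow, h1], fun m hm => ?_⟩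
    rcases Nat.eq_zero_or_pos m with h3 | h3
    · rw [h3]
      exact hd
    · obtain ⟨m, rfl⟩ : ∃ m', m = m' + 1 := ⟨m - 1, by omega⟩
      rw [s_pow]
      exact h2 m (by omega)
  · rintro ⟨n, h1, h2⟩
    rcases Nat.eq_zero_or_pos n with h3 | h3
    · subst h3
      exact absurd ⟨i, h1.symm⟩ hd
    · obtain ⟨n, rfl⟩ : ∃ n', n = n' + 1 := ⟨n - 1, by omega⟩
      refine ⟨n, by rw [← s_pow, h1], fun m hm => ?_⟩
      rw [← s_pow]
      exact h2 (m + 1) (by omega)

private theorem FF_f [Finite D] (h : Slit T k z) (i : Fin (2 * k)) : FF T z (T.f (z i)) (nxt k i) := by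
  have hd : T.a (z i) ∈ Set.range z := ⟨i.rev, (h.rv i).symm⟩
  have h1 : T.s (T.a (z i)) = T.f (z i) := by
    show T.f (T.a (T.a (z i))) = _
    rw [T.aa]
  obtain ⟨m, h2, -, h3⟩ := ret_spec T.s hd
  refine ⟨m, ?_, fun j hj => ?_⟩
  · rw [← h1, ← s_pow, ← h2, ret_z h]
  · rw [← h1, ← s_pow]
    exact h3 j hj

private noncomputable def c0 (T : Tri D) (z : Fin (2 * k) → D) : D ⊕ Fin (2 * k) × Fin 3 → Option (Fin (2 * k))
  | Sum.inl d => fs T z d
  | Sum.inr (i, j) => if j = 0 then some (nxt k i) else if j = 1 then some i else none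

private theorem c0_s [Finite D] (h : Slit T k z) (e : D ⊕ Fin (2 * k) × Fin 3) :
    c0 T z ((cone T h).s e) = c0 T z e := by
  rcases e with d | ⟨i, j⟩
  · by_cases hd : d ∈ Set.range z
    · obtain ⟨i, rfl⟩ := hd
      rw [cone_s_z]
      show some i = fs T z (z i)
      rw [fs_eq h (FF_z i)]
    · rw [cone_s_inl h hd]
      exact fs_congr fun i => FF_s hd i
  · fin_cases j
    · show fs T z (T.f (z i)) = some (nxt k i)
      exact fs_eq h (FF_f h i)
    · show some (nxt k ((nxt k).symm i)) = some i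
      rw [Equiv.apply_symm_apply]
    · rfl

theorem exists_cor [Finite D] (h : Slit T k z) : ∃ c : (cone T h).V → Option (Fin (2 * k)),
    ∀ i, c ((cone T h).tl (Sum.inl (z i))) = some i := by
  have key : ∀ e e' : D ⊕ Fin (2 * k) × Fin 3, (cone T h).s.SameCycle e e' → c0 T z e = c0 T z e' := by
    intro e e' hee
    obtain ⟨n, hn⟩ := hee.exists_pow_eq'
    have h1 : ∀ n : ℕ, c0 T z (((cone T h).s ^ n) e) = c0 T z e := by
      intro n
      induction n with
      | zero => rfl
      | succ n ih => rw [pow_succ', Equiv.Perm.mul_apply, c0_s, ih]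
    rw [← hn.2, h1]
  refine ⟨Quotient.lift (c0 T z) key, fun i => ?_⟩
  show c0 T z (Sum.inl (z i)) = some i
  exact fs_eq h (FF_z i)

theorem corner_inj [Finite D] (h : Slit T k z) {i j : Fin (2 * k)}
    (hij : (cone T h).tl (Sum.inl (z i)) = (cone T h).tl (Sum.inl (z j))) : i = j := by
  obtain ⟨c, hc⟩ := exists_cor h
  have h1 := hc i
  rw [hij, hc j] at h1
  exact (Option.some.inj h1).symm

end SYS.GS
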