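import Pool.Agent.SYS.GS.Cone
import Pool.Agent.SYS.Lib.Ret

/-!
# SYS-GS-ConeV: vertices of the cone

PROOF. The tables of `cone_s_*`, `cone_a_*` in `GS/Cone.lean` and `tl (s e) = tl e` (`Tri.tl_s` or `Quotient.sound`), `hd e = tl (a e)`, `T.tl (T.f d) = T.hd d` (`T.s (T.a d) = T.f d`).
`cone_tl_2`: `s (i, 2) = (nxt i, 2)`, induction along `i` (`nxt_val`): all `(i, 2)` have the tail of `(0, 2)`. `hd_z`: `T.hd (z i) = T.tl (z i.rev)`, and `i.rev + nxt i = 2 k` or both are `0` (`h.tl`).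
`exists_bs`: the function `inl d ↦ some (tl d)`, `(i, 0) ↦ some (hd (z i))`, `(i, 1) ↦ some (tl (z i))`, `(i, 2) ↦ none` is constant along `s` (cases `inl (z i)`, `inl d` with `d` not in the slit, `(i, 0)`, `(i, 1)`
(`hd_z` for `(nxt k).symm i`), `(i, 2)`), so it is constant on the cycles (`SameCycle`: integer powers) and descends (`Quotient.lift`).
`cone_corner`: `T.tl d = T.tl (z i0)`, so `(T.s ^ n) d = z i0` for a natural `n` (`Equiv.Perm.SameCycle.exists_pow_eq'`); take the least `n` with `(T.s ^ n) d ∈ Set.range z`; then `((cone T h).s ^ m) (inl d) = inl ((T.s ^ m) d)` for `m ≤ n` (`cone_s_inl`).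
`cone_corner_hd`: `d = z i`: `cone_hd_z`; otherwise `hd (inl d) = tl (inl (T.a d))` and `cone_corner` for `T.a d`. `cone_tl_of_not`: `T.s`-cycle without elements of `Set.range z` (their tails are in `VZ`): `cone_s_inl` along natural powers.
-/

namespace SYS.GS

open Classical SST GNH

variable {D : Type} {T : Tri D} {k : ℕ} {z : Fin (2 * k) → D}

theorem hd_z (h : Slit T k z) (i : Fin (2 * k)) : T.hd (z i) = T.tl (z (nxt k i)) := by
  rw [show T.hd (z i) = T.tl (z i.rev) from by rw [← h.rv]; rfl, h.tl]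
  have h1 := nxt_val i
  have h2 := i.isLt
  have h3 : i.rev.val = 2 * k - (i.val + 1) := rfl
  by_cases h4 : i.val + 1 = 2 * k
  · rw [if_pos h4] at h1
    left
    apply Fin.ext
    omega
  · rw [if_neg h4] at h1
    right
    omega

theorem cone_tl_2 (h : Slit T k z) (i : Fin (2 * k)) : (cone T h).tl (Sum.inr (i, 2)) = apx h := by
  have key : ∀ (m : ℕ) (j : Fin (2 * k)), j.val = m → (cone T h).tl (Sum.inr (j, 2)) = apx h := by
    intro m
    induction m with
    | zero =>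
      intro j hj
      have h1 : j = ⟨0, by have := h.pos; omega⟩ := Fin.ext hj
      rw [h1]
      rfl
    | succ m ih =>
      intro j hj
      have h1 := j.isLt
      have h2 : nxt k ⟨m, by omega⟩ = j := by
        apply Fin.ext
        rw [nxt_val]
        show (if m + 1 = 2 * k then 0 else m + 1) = j.val
        rw [if_neg (by omega), hj]
      have h3 := (cone T h).tl_s (Sum.inr ((⟨m, by omega⟩ : Fin (2 * k)), 2))
      rw [cone_s_2, h2] at h3
      rw [h3]
      exact ih _ rfl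
  exact key i.val i rfl

theorem cone_hd_1 (h : Slit T k z) (i : Fin (2 * k)) : (cone T h).hd (Sum.inr (i, 1)) = apx h := by
  show (cone T h).tl ((cone T h).a (Sum.inr (i, 1))) = _
  rw [cone_a_1]
  exact cone_tl_2 h _

theorem cone_tl_1 (h : Slit T k z) (i : Fin (2 * k)) : (cone T h).tl (Sum.inr (i, 1)) = (cone T h).tl (Sum.inl (z i)) := by
  rw [← cone_s_z h i]
  exact (cone T h).tl_s _

theorem cone_hd_0 (h : Slit T k z) (i : Fin (2 * k)) : (cone T h).hd (Sum.inr (i, 0)) = (cone T h).tl (Sum.inl (z i)) := by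
  rfl

theorem cone_tl_0 (h : Slit T k z) (i : Fin (2 * k)) :
    (cone T h).tl (Sum.inr (i, 0)) = (cone T h).tl (Sum.inl (z (nxt k i))) := by
  have h1 := (cone T h).tl_s (Sum.inr (nxt k i, 1))
  rw [cone_s_1, Equiv.symm_apply_apply] at h1
  rw [h1]
  exact cone_tl_1 h _

theorem cone_hd_2 (h : Slit T k z) (i : Fin (2 * k)) :
    (cone T h).hd (Sum.inr (i, 2)) = (cone T h).tl (Sum.inl (z (nxt k i))) := by
  show (cone T h).tl ((cone T h).a (Sum.inr (i, 2))) = _
  rw [cone_a_2]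
  exact cone_tl_1 h _

theorem cone_hd_z (h : Slit T k z) (i : Fin (2 * k)) :
    (cone T h).hd (Sum.inl (z i)) = (cone T h).tl (Sum.inl (z (nxt k i))) := by
  show (cone T h).tl ((cone T h).a (Sum.inl (z i))) = _
  rw [cone_a_z]
  exact cone_tl_0 h _

theorem cone_hd_inl (h : Slit T k z) {d : D} (hd : d ∉ Set.range z) :
    (cone T h).hd (Sum.inl d) = (cone T h).tl (Sum.inl (T.a d)) := by
  show (cone T h).tl ((cone T h).a (Sum.inl d)) = _
  rw [cone_a_inl h hd]

/-- The function behind `exists_bs`. -/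
private noncomputable def cvG (T : Tri D) (z : Fin (2 * k) → D) : D ⊕ Fin (2 * k) × Fin 3 → Option T.V
  | Sum.inl d => some (T.tl d)
  | Sum.inr (i, j) => if j = 0 then some (T.hd (z i)) else if j = 1 then some (T.tl (z i)) else none

private theorem cvG_s (h : Slit T k z) (e : D ⊕ Fin (2 * k) × Fin 3) : cvG T z ((cone T h).s e) = cvG T z e := by
  rcases e with d | ⟨i, j⟩
  · by_cases hd : d ∈ Set.range z
    · obtain ⟨i, rfl⟩ := hd
      rw [cone_s_z]
      rfl
    · rw [cone_s_inl h hd]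
      show some (T.tl (T.s d)) = some (T.tl d)
      rw [T.tl_s]
  · fin_cases j
    · show some (T.tl (T.f (z i))) = some (T.hd (z i))
      rw [T.tl_f]
    · show some (T.hd (z ((nxt k).symm i))) = some (T.tl (z i))
      rw [hd_z h, Equiv.apply_symm_apply]
    · rfl

private theorem cvG_zpow (h : Slit T k z) (m : ℤ) (e : D ⊕ Fin (2 * k) × Fin 3) :
    cvG T z (((cone T h).s ^ m) e) = cvG T z e := by
  induction m using Int.induction_on with
  | zero => rfl
  | succ m ih =>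
    rw [zpow_add_one, Equiv.Perm.mul_apply, ← ih]
    have : ∀ (m : ℤ) (e : D ⊕ Fin (2 * k) × Fin 3), ((cone T h).s ^ m) ((cone T h).s e) = (cone T h).s (((cone T h).s ^ m) e) := by
      intro m e
      rw [← Equiv.Perm.mul_apply, ← Equiv.Perm.mul_apply, ← zpow_add_one, ← zpow_one_add, add_comm]
    rw [this, cvG_s]
  | pred m ih =>
    rw [← ih]
    have h1 : ((cone T h).s ^ (-(m : ℤ))) e = (cone T h).s (((cone T h).s ^ (-(m : ℤ) - 1)) e) := by
      rw [← Equiv.Perm.mul_apply, ← zpow_one_add]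
      congr 2
      ring
    rw [h1, cvG_s]

/-- The vertex of `T` below a vertex of the cone. -/
theorem exists_bs (h : Slit T k z) : ∃ bs : (cone T h).V → Option T.V,
    (∀ d, bs ((cone T h).tl (Sum.inl d)) = some (T.tl d)) ∧ (∀ d, bs ((cone T h).hd (Sum.inl d)) = some (T.hd d)) ∧
      bs (apx h) = none := by
  refine ⟨Quotient.lift (cvG T z) ?_, ?_, ?_, ?_⟩
  · intro a b hab
    obtain ⟨m, hm⟩ : (cone T h).s.SameCycle a b := hab
    rw [← hm, cvG_zpow]
  · intro d
    rfl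
  · intro d
    by_cases hd : d ∈ Set.range z
    · obtain ⟨i, rfl⟩ := hd
      rw [cone_hd_z h i, hd_z h i]
      rfl
    · rw [cone_hd_inl h hd]
      rfl
  · rfl

private theorem cv_pow (h : Slit T k z) (d : D) (n : ℕ) (hn : ∀ m < n, (T.s ^ m) d ∉ Set.range z) :
    ((cone T h).s ^ n) (Sum.inl d) = Sum.inl ((T.s ^ n) d) := by
  induction n with
  | zero => rfl
  | succ n ih =>
    rw [pow_succ', Equiv.Perm.mul_apply, ih (fun m hm => hn m (by omega)), cone_s_inl h (hn n (by omega)), pow_succ',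
      Equiv.Perm.mul_apply]

private theorem cv_tl_pow {E : Type} (S : Tri E) (d : E) (n : ℕ) : S.tl ((S.s ^ n) d) = S.tl d := by
  induction n with
  | zero => rfl
  | succ n ih => rw [pow_succ', Equiv.Perm.mul_apply, S.tl_s, ih]

private theorem cv_exists_pow [Finite D] {d e : D} (hde : T.tl d = T.tl e) : ∃ n : ℕ, (T.s ^ n) d = e := by
  have h1 : T.s.SameCycle d e := Quotient.exact hde
  obtain ⟨n, hn⟩ := h1.exists_nat_pow_eq
  exact ⟨n, hn⟩

theorem cone_corner [Finite D] (h : Slit T k z) {d : D} (hd : T.tl d ∈ VZ T z) :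
    ∃ i, (cone T h).tl (Sum.inl d) = (cone T h).tl (Sum.inl (z i)) ∧ T.tl (z i) = T.tl d := by
  obtain ⟨i0, hi0⟩ := hd
  obtain ⟨n0, hn0⟩ := cv_exists_pow (T := T) (d := d) (e := z i0) hi0.symm
  have hex : ∃ n : ℕ, (T.s ^ n) d ∈ Set.range z := ⟨n0, i0, hn0.symm⟩
  have h1 := Nat.find_spec hex
  have h2 := fun m hm => Nat.find_min hex (m := m) hm
  obtain ⟨i, hi⟩ := h1
  refine ⟨i, ?_, ?_⟩
  · rw [hi, ← cv_pow h d _ h2, cv_tl_pow]
  · rw [hi, cv_tl_pow]

theorem cone_corner_hd [Finite D] (h : Slit T k z) {d : D} (hd : T.hd d ∈ VZ T z) :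
    ∃ i, (cone T h).hd (Sum.inl d) = (cone T h).tl (Sum.inl (z i)) ∧ T.tl (z i) = T.hd d := by
  by_cases hz : d ∈ Set.range z
  · obtain ⟨i, rfl⟩ := hz
    exact ⟨nxt k i, cone_hd_z h i, (hd_z h i).symm⟩
  · obtain ⟨i, h1, h2⟩ := cone_corner h (d := T.a d) hd
    exact ⟨i, by rw [cone_hd_inl h hz, h1], h2⟩

theorem cone_tl_of_not [Finite D] (h : Slit T k z) {d e : D} (hd : T.tl d ∉ VZ T z) (he : T.tl d = T.tl e) :
    (cone T h).tl (Sum.inl d) = (cone T h).tl (Sum.inl e) := by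
  obtain ⟨n, hn⟩ := cv_exists_pow (T := T) he
  have h1 : ∀ m < n, (T.s ^ m) d ∉ Set.range z := by
    rintro m - ⟨i, hi⟩
    exact hd ⟨i, by show T.tl (z i) = T.tl d; rw [hi, cv_tl_pow]⟩
  rw [← hn, ← cv_pow h d n h1, cv_tl_pow]

theorem vertex_cases [Finite D] (h : Slit T k z) (v : (cone T h).V) :
    v = apx h ∨ (∃ i, v = (cone T h).tl (Sum.inl (z i))) ∨ ∃ d, T.tl d ∉ VZ T z ∧ v = (cone T h).tl (Sum.inl d) := by
  obtain ⟨e, rfl⟩ : ∃ e, (cone T h).tl e = v := Quotient.exists_rep v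
  rcases e with d | ⟨i, j⟩
  · by_cases hd : T.tl d ∈ VZ T z
    · obtain ⟨i, h1, _⟩ := cone_corner h hd
      exact Or.inr (Or.inl ⟨i, h1⟩)
    · exact Or.inr (Or.inr ⟨d, hd, rfl⟩)
  · fin_cases j
    · exact Or.inr (Or.inl ⟨nxt k i, cone_tl_0 h i⟩)
    · exact Or.inr (Or.inl ⟨i, cone_tl_1 h i⟩)
    · exact Or.inl (cone_tl_2 h i)

end SYS.GS
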