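import Pool.Agent.SYS.LP.Sct
import Pool.Agent.SYS.LP.Wk
import Pool.Agent.SYS.LP.Dst
import Pool.Agent.SST.S.SumMap

/-!
# SYS-GS-Defs: the gap between the two separating systoles by surgery (definitions). DO NOT CHANGE.

PLAN OF THE BLOCK (MP_650813_pr, `S < S'`).  `En T c = 8 |c| + (number of repetitions of vertices)`; `Mzr` = minimizers of `En`
among the essential null-homologous closed walks.  A minimizer is a quasi-geodesic in flat balls (`8 |α| ≤ 9 |α'|`), it has two
strands which run parallel at distance `≤ t` near most of the `≥ c log n` centres on it (a lonely strand costs `t² / 8` darts with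
non-zero multiplicity).  Near such a centre there is a simple path `α' γ β'` (`α'`, `β'` parts of the walk, `γ` a short link): OPEN it
(`Slit`) and fill it with the CONE over a new vertex (`cone`).  Then every minimizer of the new triangulation visits the new
vertex at least twice.  So the mean number of vertices visited at least twice by a minimizer is at least `c log n`.
-/

namespace SYS.GS

open Classical SST GNH

variable {D : Type}

/-- Number of vertices of a list of darts (tails). -/
noncomputable def vis (T : Tri D) (c : List D) : ℕ := {v | ∃ d ∈ c, T.tl d = v}.ncard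

/-- `8 * length + number of repetitions` (the number of vertices is at most the length). -/
noncomputable def En (T : Tri D) (c : List D) : ℕ := 9 * c.length - vis T c

/-- Closed walks, null-homologous and not null-homotopic. -/
def Ess (T : Tri D) (c : List D) : Prop := T.Closed c ∧ T.NullHom c ∧ ¬ T.NullHtp c

/-- Minimizers of `En`. -/
def Mzr (T : Tri D) (c : List D) : Prop := Ess T c ∧ ∀ c', Ess T c' → En T c ≤ En T c'

/-- Number of visits of the vertex `v`. -/
noncomputable def cnt (T : Tri D) (c : List D) (v : T.V) : ℕ := c.countP fun d => decide (T.tl d = v)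

/-- Number of visits of the set `A` of vertices. -/
noncomputable def cntS (T : Tri D) (c : List D) (A : Set T.V) : ℕ := c.countP fun d => decide (T.tl d ∈ A)

/-- Closed walks of length at most `L` at `x` are null-homotopic. -/
def FB (T : Tri D) (x : T.V) (L : ℕ) : Prop := ∀ c, T.IsWalk x c x → c.length ≤ L → T.NullHtp c

/-- A minimizer as a periodic walk. -/
structure Mzw (T : Tri D) (w : ℕ → D) (l : ℕ) : Prop extends PW T w l where
  mz : Mzr T (st w 0 l)

/-- The darts around a simple path with `k` edges: `z 0, …, z (k - 1)` along the path, `z k, …, z (2 k - 1)` back. -/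
structure Slit (T : Tri D) (k : ℕ) (z : Fin (2 * k) → D) : Prop where
  pos : 0 < k
  inj : Function.Injective z
  rv : ∀ i, T.a (z i) = z i.rev
  tl : ∀ i j, T.tl (z i) = T.tl (z j) ↔ (i = j ∨ i.val + j.val = 2 * k)

/-- The vertices of the slit. -/
def VZ (T : Tri D) {k : ℕ} (z : Fin (2 * k) → D) : Set T.V := Set.range fun i => T.tl (z i)

/-- The darts of a path, and back. -/
noncomputable def zOf (T : Tri D) (P : List D) (i : Fin (2 * P.length)) : D :=
  if h : i.val < P.length then P[i.val] else T.a (P[2 * P.length - 1 - i.val]'(by have := i.isLt; omega))

/-- Labelling which is trivial on the slit. -/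
def Tz {G : Type} [Group G] {k : ℕ} (z : Fin (2 * k) → D) (lab : D → G) : Prop := ∀ i, lab (z i) = 1

/-- The part of the walk from the time `i` to the time `j` (backwards if `j < i`). -/
noncomputable def seg (T : Tri D) (w : ℕ → D) (i j : ℕ) : List D :=
  if i ≤ j then st w i (j - i) else ((st w j (i - j)).map T.a).reverse

end SYS.GS
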