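import Pool.Agent.SYS.GS.Defs

/-!
# SYS-GS-EnB: the functional `En`, rotations of closed walks, minimizers

`vis T c` is the number of distinct tails: `(c.map T.tl).toFinset.card`; `cnt T c v` is the multiplicity of
`v` in `c.map T.tl`.
-/

namespace SYS.GS

open Classical SST GNH

variable {D : Type} {T : Tri D}

private theorem vis_set (T : Tri D) (c : List D) :
    {v | ∃ d ∈ c, T.tl d = v} = ((c.map T.tl).toFinset : Set T.V) := by
  ext v
  rw [Finset.mem_coe, List.mem_toFinset, List.mem_map]
  exact Iff.rfl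

private theorem vis_fin (T : Tri D) (c : List D) : {v | ∃ d ∈ c, T.tl d = v}.Finite := by
  rw [vis_set]
  exact Finset.finite_toSet _

private theorem vis_eq (T : Tri D) (c : List D) : vis T c = (c.map T.tl).toFinset.card := by
  unfold vis
  rw [vis_set, Set.ncard_coe_finset]

private theorem cnt_eq (T : Tri D) (c : List D) (v : T.V) : cnt T c v = (c.map T.tl).count v := by
  unfold cnt
  induction c with
  | nil => rfl
  | cons d c ih =>
    rw [List.countP_cons, ih, List.map_cons, List.count_cons]
    congr 1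

theorem vis_le (T : Tri D) (c : List D) : vis T c ≤ c.length := by
  rw [vis_eq, ← List.length_map (f := T.tl)]
  exact List.toFinset_card_le _

theorem en_add (T : Tri D) (c : List D) : En T c + vis T c = 9 * c.length := by
  unfold En
  have := vis_le T c
  omega

theorem len_le_en (T : Tri D) (c : List D) : 8 * c.length ≤ En T c := by
  have h1 := vis_le T c
  have h2 := en_add T c
  omega

theorem en_le (T : Tri D) (c : List D) : En T c ≤ 9 * c.length := Nat.sub_le _ _

theorem vis_append (T : Tri D) (a b : List D) : vis T (a ++ b) ≤ vis T a + vis T b := by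
  rw [vis_eq, vis_eq, vis_eq, List.map_append, List.toFinset_append]
  exact Finset.card_union_le _ _

/-- The vertices of `a` are among those of `b` and the set `A`. -/
theorem vis_sub (T : Tri D) {a b : List D} {A : Set T.V} (hA : A.Finite)
    (h : ∀ d ∈ a, (∃ e ∈ b, T.tl e = T.tl d) ∨ T.tl d ∈ A) : vis T a ≤ vis T b + A.ncard := by
  unfold vis
  have h1 : {v | ∃ d ∈ a, T.tl d = v} ⊆ {v | ∃ d ∈ b, T.tl d = v} ∪ A := by
    rintro v ⟨d, hd, rfl⟩
    exact h d hd
  exact (Set.ncard_le_ncard h1 ((vis_fin T b).union hA)).trans (Set.ncard_union_le _ _)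

theorem vis_mono (T : Tri D) {a b : List D} (h : ∀ d ∈ a, ∃ e ∈ b, T.tl e = T.tl d) : vis T a ≤ vis T b := by
  unfold vis
  refine Set.ncard_le_ncard ?_ (vis_fin T b)
  rintro v ⟨d, hd, rfl⟩
  exact h d hd

theorem ess_ne {c : List D} (h : Ess T c) : c ≠ [] := fun e => h.2.2 (by rw [e]; exact Relation.EqvGen.refl _)

theorem ess_rot (hT : T.Conn) {a b : List D} (h : Ess T (a ++ b)) : Ess T (b ++ a) := by
  obtain ⟨h1, ⟨k, hk, hk2⟩, h3⟩ := h
  refine ⟨T.closed_rotate h1, ⟨k, hk, fun d => ?_⟩, fun hn => h3 (htp_hol hT h1 fun G hG lab hl => ?_)⟩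
  · rw [← hk2 d, Tri.chain_append, Tri.chain_append, add_comm]
  · have h4 := hl.nullHtp hn
    rw [hol_append] at h4 ⊢
    exact mul_eq_one_comm.1 h4

theorem en_rot (T : Tri D) (a b : List D) : En T (b ++ a) = En T (a ++ b) := by
  unfold En
  have h1 : vis T (b ++ a) = vis T (a ++ b) := by
    rw [vis_eq, vis_eq, List.map_append, List.map_append, List.toFinset_append,
      List.toFinset_append, Finset.union_comm]
  rw [h1, List.length_append, List.length_append, add_comm b.length]

theorem cnt_rot (T : Tri D) (a b : List D) (v : T.V) : cnt T (b ++ a) v = cnt T (a ++ b) v := by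
  unfold cnt
  rw [List.countP_append, List.countP_append, add_comm]

theorem mzr_rot (hT : T.Conn) {a b : List D} (h : Mzr T (a ++ b)) : Mzr T (b ++ a) :=
  ⟨ess_rot hT h.1, fun c hc => by rw [en_rot]; exact h.2 c hc⟩

theorem exists_mzr {c : List D} (h : Ess T c) : ∃ c', Mzr T c' := by
  have hex : ∃ n, ∃ c, Ess T c ∧ En T c = n := ⟨_, c, h, rfl⟩
  obtain ⟨c', h1, h2⟩ := Nat.find_spec hex
  refine ⟨c', h1, fun c'' h3 => ?_⟩
  rw [h2]
  exact Nat.find_min' hex ⟨c'', h3, rfl⟩

private theorem rep_set (T : Tri D) (c : List D) : {v | 2 ≤ cnt T c v} =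
    (((c.map T.tl).toFinset.filter fun v => 2 ≤ (c.map T.tl).count v : Finset T.V) : Set T.V) := by
  ext v
  rw [Finset.mem_coe, Finset.mem_filter, Set.mem_setOf_eq, cnt_eq, List.mem_toFinset]
  refine ⟨fun h => ⟨List.count_pos_iff.1 (by omega), h⟩, fun h => h.2⟩

/-- Vertices which are visited at least twice. -/
theorem rep_le (T : Tri D) (c : List D) : {v | 2 ≤ cnt T c v}.ncard + 8 * c.length ≤ En T c := by
  have h1 := en_add T c
  have h2 : {v | 2 ≤ cnt T c v}.ncard + vis T c ≤ c.length := by
    rw [vis_eq, rep_set, Set.ncard_coe_finset]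
    have h3 : (c.map T.tl).length = ∑ v ∈ (c.map T.tl).toFinset, (c.map T.tl).count v :=
      (List.sum_toFinset_count_eq_length _).symm
    rw [List.length_map] at h3
    rw [h3, Finset.card_filter, Finset.card_eq_sum_ones, ← Finset.sum_add_distrib]
    refine Finset.sum_le_sum fun v hv => ?_
    have h4 : 1 ≤ (c.map T.tl).count v := List.count_pos_iff.2 (List.mem_toFinset.1 hv)
    split_ifs with h5
    · omega
    · omega
  omega

theorem rep_finite (T : Tri D) (c : List D) : {v | 2 ≤ cnt T c v}.Finite := by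
  rw [rep_set]
  exact Finset.finite_toSet _

theorem en_simple {c : List D} (h : T.Simple c) : En T c = 8 * c.length := by
  have h1 : vis T c = c.length := by
    rw [vis_eq, List.toFinset_card_of_nodup h, List.length_map]
  unfold En
  omega

end SYS.GS
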