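import Pool.Agent.SYS.GS.Per

/-!
# SYS-GS-Fb: flat balls
-/

namespace SYS.GS

open Classical SST GNH

variable {D : Type} {T : Tri D} {w : ℕ → D} {l : ℕ}

theorem FB.mono {x : T.V} {L L' : ℕ} (h : FB T x L) (hL : L' ≤ L) : FB T x L' := fun c hc hl => h c hc (hl.trans hL)

private theorem fb_key {x : T.V} {R : ℕ} (hF : FB T x (2 * R + 1)) {π : T.V → List D}
    (hπ : ∀ y, Dle T R x y → T.IsWalk x (π y) y ∧ (π y).length ≤ R) {G : Type} [Group G] {lab : D → G}
    (hl : Flat T lab) : ∀ (c : List D) (u v : T.V), T.IsWalk u c v → Dle T R x u →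
      (∀ d ∈ c, Dle T R x (T.tl d) ∧ Dle T R x (T.hd d)) →
      hol lab c = (hol lab (π u))⁻¹ * hol lab (π v) := by
  intro c
  induction c with
  | nil =>
    intro u v hc _ _
    have e : u = v := hc
    rw [e, hol_nil, inv_mul_cancel]
  | cons d c ih =>
    intro u v hc _ h1
    obtain ⟨h2, h3⟩ := h1 d List.mem_cons_self
    have h4 := ih (T.hd d) v hc.2 h3 (fun e he => h1 e (List.mem_cons_of_mem _ he))
    have e : T.tl d = u := hc.1
    have h5 : T.IsWalk x (π (T.tl d) ++ [d] ++ ((π (T.hd d)).map T.a).reverse) x :=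
      T.walk_append (T.walk_append (hπ _ h2).1 (T.walk_single d)) (T.walk_rev (hπ _ h3).1)
    have h6 : (π (T.tl d) ++ [d] ++ ((π (T.hd d)).map T.a).reverse).length ≤ 2 * R + 1 := by
      rw [List.length_append, List.length_append, List.length_reverse, List.length_map,
        List.length_singleton]
      have h7 := (hπ _ h2).2
      have h8 := (hπ _ h3).2
      omega
    have h7 := hl.nullHtp (hF _ h5 h6)
    rw [hol_append, hol_append, hl.hol_rev, hol_cons, hol_nil, mul_one] at h7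
    have h8 : lab d = (hol lab (π (T.tl d)))⁻¹ * hol lab (π (T.hd d)) := by
      rw [mul_inv_eq_one] at h7
      rw [← h7, inv_mul_cancel_left]
    rw [hol_cons, h4, h8, e]
    group

theorem fb_hol {x : T.V} {R : ℕ} (hF : FB T x (2 * R + 1)) {u v : T.V} {c c' : List D}
    (hc : T.IsWalk u c v) (hc' : T.IsWalk u c' v) (h1 : ∀ d ∈ c, Dle T R x (T.tl d) ∧ Dle T R x (T.hd d))
    (h2 : ∀ d ∈ c', Dle T R x (T.tl d) ∧ Dle T R x (T.hd d)) {G : Type} [Group G] {lab : D → G} (hl : Flat T lab) :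
    hol lab c = hol lab c' := by
  have hex : ∃ π : T.V → List D, ∀ y, Dle T R x y → T.IsWalk x (π y) y ∧ (π y).length ≤ R := by
    refine ⟨fun y => if h : Dle T R x y then h.choose else [], fun y hy => ?_⟩
    have e : (if h : Dle T R x y then h.choose else []) = hy.choose := dif_pos hy
    show T.IsWalk x (if h : Dle T R x y then h.choose else []) y ∧
      (if h : Dle T R x y then h.choose else []).length ≤ R
    rw [e]
    exact hy.choose_spec
  obtain ⟨π, hπ⟩ := hex
  have main : Dle T R x u → hol lab c = hol lab c' := fun hu => by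
    rw [fb_key hF hπ hl c u v hc hu h1, fb_key hF hπ hl c' u v hc' hu h2]
  cases c with
  | cons d c =>
    refine main ?_
    have e : T.tl d = u := hc.1
    rw [← e]
    exact (h1 d List.mem_cons_self).1
  | nil =>
    cases c' with
    | nil => rfl
    | cons d c =>
      refine main ?_
      have e : T.tl d = u := hc'.1
      rw [← e]
      exact (h2 d List.mem_cons_self).1

theorem FB.long (hT : T.Conn) (h : Mzw T w l) {a L : ℕ} (hF : FB T (T.tl (w a)) L) : L < l := by
  by_contra hL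
  rw [not_lt] at hL
  refine (h.mz_at hT a).1.2.2 (hF _ (h.toPW.st_closed a) ?_)
  rw [st_length]
  exact hL

theorem geo_ball (hT : T.Conn) {x u v : T.V} {R : ℕ} (hu : Dle T R x u) (hv : Dle T R x v) :
    ∃ c : List D, T.IsWalk u c v ∧ c.length = dst T u v ∧ ∀ d ∈ c, Dle T (2 * R) x (T.tl d) ∧ Dle T (2 * R) x (T.hd d) := by
  obtain ⟨c, hc, hcl⟩ := dst_walk hT u v
  have hd : dst T u v ≤ R + R := (dle_iff hT u v _).1 (hu.symm.trans hv)
  refine ⟨c, hc, hcl, fun d hdc => ?_⟩
  obtain ⟨l1, l2, rfl⟩ := List.append_of_mem hdc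
  obtain ⟨m, h1, h2⟩ := T.walk_split hc
  have e : T.tl d = m := h2.1
  subst e
  have h3 : T.IsWalk (T.hd d) l2 v := h2.2
  rw [List.length_append, List.length_cons] at hcl
  have a1 : Dle T l1.length u (T.tl d) := ⟨l1, h1, le_refl _⟩
  have a2 : Dle T (l1.length + 1) u (T.hd d) := a1.trans (dle_hd T d)
  have b1 : Dle T l2.length v (T.hd d) := Dle.symm ⟨l2, h3, le_refl _⟩
  have b2 : Dle T (l2.length + 1) v (T.tl d) := b1.trans (dle_hd T d).symm
  constructor
  · by_cases h : l1.length ≤ R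
    · exact (hu.trans a1).mono (by omega)
    · exact (hv.trans b2).mono (by omega)
  · by_cases h : l1.length + 1 ≤ R
    · exact (hu.trans a2).mono (by omega)
    · exact (hv.trans b1).mono (by omega)

private theorem st_in (h : PW T w l) {x : T.V} {R : ℕ} {i k m : ℕ} (hm : m ≤ k)
    (hin : ∀ j ≤ k, Dle T R x (T.tl (w (i + j)))) :
    ∀ d ∈ st w i m, Dle T R x (T.tl d) ∧ Dle T R x (T.hd d) := by
  intro d hd
  obtain ⟨j, hj, rfl⟩ := mem_st.1 hd
  refine ⟨hin j (by omega), ?_⟩
  rw [h.walk (i + j)]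
  have h1 := hin (j + 1) (by omega)
  rwa [← Nat.add_assoc] at h1

theorem Mzw.qgb (hT : T.Conn) (h : Mzw T w l) {x : T.V} {R : ℕ} (hF : FB T x (4 * R + 1)) {i k : ℕ}
    (hin : ∀ j ≤ k, Dle T R x (T.tl (w (i + j)))) : k < l ∧ 8 * k ≤ 9 * dst T (T.tl (w i)) (T.tl (w (i + k))) := by
  have hkl : k < l := by
    by_contra hlk
    rw [not_lt] at hlk
    have hw := h.toPW.st_closed i
    refine (h.mz_at hT i).1.2.2 (htp_hol hT ⟨_, hw⟩ fun G _ lab hl => ?_)
    have h1 := fb_hol (hF.mono (by omega)) (c' := []) hw rfl (st_in h.toPW hlk hin)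
      (fun d hd => absurd hd List.not_mem_nil) hl
    rw [h1, hol_nil]
  refine ⟨hkl, ?_⟩
  have h0 := hin 0 (Nat.zero_le k)
  rw [Nat.add_zero] at h0
  obtain ⟨c, hc, hcl, hcb⟩ := geo_ball hT h0 (hin k (le_refl k))
  rw [← hcl]
  refine h.qg hT hkl.le hc fun G _ lab hl => ?_
  refine fb_hol (hF.mono (by omega)) (h.toPW.st_walk i k) hc (fun d hd => ?_) hcb hl
  obtain ⟨h1, h2⟩ := st_in h.toPW (le_refl k) hin d hd
  exact ⟨h1.mono (by omega), h2.mono (by omega)⟩

end SYS.GS
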