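import Pool.Agent.SYS.LP.Glb
import Pool.Agent.SYS.LP.Ctr
import Pool.Agent.SYS.GS.Cen

/-!
# SYS-GS-Glob: number of centres on a minimizer: repeated vertices, configurations, bad centres
-/

namespace SYS.GS

open Classical SST GNH

variable {D : Type} {T : Tri D}

theorem glob [Finite D] (hT : T.Conn) {W : List D} (hW : Mzr T W) {k2 : D → ℤ} (hk : ∀ d, k2 (T.f d) = k2 d)
    (hc : ∀ d, T.chain W d = k2 d - k2 (T.a d)) {C2 t m : ℕ} (ht : 4 ≤ t) (hC : 1 ≤ C2) (hm : m = 120 * C2 * t) :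
    ∃ C : Finset T.V, C.Nonempty ∧ (∀ x ∈ C, ∃ d ∈ W, x = T.tl d) ∧ (∀ x ∈ C, ∀ y ∈ C, x ≠ y → ¬ Dle T (2 * m) x y) ∧
      (∀ Z ⊆ C, Z.Nonempty → Z ≠ C → ∃ x ∈ Z, ∃ y ∈ C \ Z, Dle T (2 * m + 1) x y) ∧
      (∀ d ∈ W, ∃ x ∈ C, Dle T (2 * m) x (T.tl d)) ∧
      (C.card : ℝ) ≤ {v | 2 ≤ cnt T W v}.ncard +
        ∑ k ∈ Finset.range (2 * m + 1), ({z : Fin (2 * k) → D | Conf T k z (En T W)}.ncard : ℝ) +
        W.length / (C2 * m) + 8 * {d | k2 d ≠ 0}.ncard / t ^ 2 + {v : T.V | ¬ FB T v (16 * m)}.ncard := by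
  have : Finite T.V := by
    unfold Tri.V
    infer_instance
  obtain ⟨w, hw, hst⟩ := exists_mzw hW
  obtain ⟨C, hne, hon, hsep, hcon, hcov⟩ := exists_centres hw.toPW (2 * m)
  have hc' : ∀ d, T.chain (st w 0 W.length) d = k2 d - k2 (T.a d) := by
    rw [hst]
    exact hc
  have hm0 : 0 < m := by
    rw [hm]
    positivity
  refine ⟨C, hne, ?_, hsep, hcon, ?_, ?_⟩
  · intro x hx
    obtain ⟨i, rfl⟩ := hon x hx
    refine ⟨w i, ?_, rfl⟩
    rw [← hst]
    refine mem_st.2 ⟨i % W.length, Nat.mod_lt _ hw.toPW.pos, ?_⟩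
    rw [Nat.zero_add, ← hw.toPW.add_mul (i % W.length) (i / W.length), mul_comm, Nat.mod_add_div]
  · intro d hd
    rw [← hst] at hd
    obtain ⟨j, _, rfl⟩ := mem_st.1 hd
    exact hcov _
  · have hdj : ∀ x ∈ C, ∀ y ∈ C, x ≠ y → ∀ v, Dle T m x v → ¬ Dle T m y v := by
      intro x hx y hy hxy v h1 h2
      exact hsep x hx y hy hxy ((h1.trans h2.symm).mono (by omega))
    set C1 : Finset T.V := C.filter fun x => ¬ FB T x (16 * m) with hC1
    set C2' : Finset T.V := C.filter fun x => C2 * m < {j | j < W.length ∧ Dle T m x (T.tl (w j))}.ncard with hC2'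
    set C3 : Finset T.V := C.filter fun x => t ^ 2 ≤ 8 * {d | Dle T m x (T.tl d) ∧ k2 d ≠ 0}.ncard with hC3
    set CR : Finset T.V := C.filter fun x => ∃ v, Dle T m x v ∧ 2 ≤ cnt T W v with hCR
    set CL : ℕ → Finset T.V := fun k => C.filter fun x => ∃ z : Fin (2 * k) → D, Conf T k z (En T W) ∧
      ∀ i, Dle T m x (T.tl (z i)) with hCL
    have hsub : C ⊆ CR ∪ (Finset.range (2 * m + 1)).biUnion CL ∪ C2' ∪ C3 ∪ C1 := by
      intro x hx
      by_cases h1 : x ∈ C1
      · exact Finset.mem_union_right _ h1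
      refine Finset.mem_union_left _ ?_
      by_cases h3 : x ∈ C3
      · exact Finset.mem_union_right _ h3
      refine Finset.mem_union_left _ ?_
      by_cases h2 : x ∈ C2'
      · exact Finset.mem_union_right _ h2
      refine Finset.mem_union_left _ ?_
      obtain ⟨a, rfl⟩ := hon x hx
      have e1 : FB T (T.tl (w a)) (16 * m) := by
        by_contra h
        exact h1 (Finset.mem_filter.2 ⟨hx, h⟩)
      have e2 : {j | j < W.length ∧ Dle T m (T.tl (w a)) (T.tl (w j))}.ncard ≤ C2 * m := by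
        by_contra h
        exact h2 (Finset.mem_filter.2 ⟨hx, not_le.1 h⟩)
      have e3 : 8 * {d | Dle T m (T.tl (w a)) (T.tl d) ∧ k2 d ≠ 0}.ncard < t ^ 2 := by
        by_contra h
        exact h3 (Finset.mem_filter.2 ⟨hx, not_lt.1 h⟩)
      rcases local_gap hT hw hk hc' ht hC hm e1 e2 e3 with ⟨v, hv1, hv2⟩ | ⟨k, z, hk1, hz1, hz2⟩
      · rw [hst] at hv2
        exact Finset.mem_union_left _ (Finset.mem_filter.2 ⟨hx, v, hv1, hv2⟩)
      · rw [hst] at hz1
        exact Finset.mem_union_right _ (Finset.mem_biUnion.2 ⟨k, Finset.mem_range.2 (by omega),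
          Finset.mem_filter.2 ⟨hx, z, hz1, hz2⟩⟩)
    have hcard : C.card ≤ CR.card + ∑ k ∈ Finset.range (2 * m + 1), (CL k).card + C2'.card + C3.card + C1.card := by
      refine (Finset.card_le_card hsub).trans ?_
      refine (Finset.card_union_le _ _).trans (Nat.add_le_add_right ?_ _)
      refine (Finset.card_union_le _ _).trans (Nat.add_le_add_right ?_ _)
      refine (Finset.card_union_le _ _).trans (Nat.add_le_add_right ?_ _)
      exact (Finset.card_union_le _ _).trans (Nat.add_le_add_left Finset.card_biUnion_le _)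
    have b1 : C1.card ≤ {v : T.V | ¬ FB T v (16 * m)}.ncard := by
      rw [← Set.ncard_coe_finset]
      exact Set.ncard_le_ncard (fun x hx => (Finset.mem_filter.mp hx).2) (Set.toFinite _)
    have b2 : C2 * m * C2'.card ≤ W.length := by
      have h1 := disj_card C2' (fun x => {j | j < W.length ∧ Dle T m x (T.tl (w j))})
        (↑(Finset.range W.length) : Set ℕ) (Finset.finite_toSet _) (n := C2 * m) ?_ ?_ ?_
      · rwa [Set.ncard_coe_finset, Finset.card_range] at h1
      · intro x _ j hj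
        rw [Finset.mem_coe, Finset.mem_range]
        exact hj.1
      · intro x hx y hy hxy
        rw [Set.disjoint_left]
        intro j hj hj'
        exact hdj x (Finset.mem_filter.mp hx).1 y (Finset.mem_filter.mp hy).1 hxy _ hj.2 hj'.2
      · intro x hx
        exact (Finset.mem_filter.mp hx).2.le
    have b3 : t ^ 2 * C3.card ≤ 8 * {d | k2 d ≠ 0}.ncard := by
      have h1 := disj_card C3 (fun x => {d | Dle T m x (T.tl d) ∧ k2 d ≠ 0}) {d | k2 d ≠ 0}
        (Set.toFinite _) (n := (t ^ 2 + 7) / 8) ?_ ?_ ?_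
      · have h2 : t ^ 2 ≤ 8 * ((t ^ 2 + 7) / 8) := by omega
        calc t ^ 2 * C3.card ≤ 8 * ((t ^ 2 + 7) / 8) * C3.card := Nat.mul_le_mul_right _ h2
          _ = 8 * ((t ^ 2 + 7) / 8 * C3.card) := by ring
          _ ≤ _ := Nat.mul_le_mul_left _ h1
      · intro x _ d hd
        exact hd.2
      · intro x hx y hy hxy
        rw [Set.disjoint_left]
        intro j hj hj'
        exact hdj x (Finset.mem_filter.mp hx).1 y (Finset.mem_filter.mp hy).1 hxy _ hj.1 hj'.1
      · intro x hx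
        have := (Finset.mem_filter.mp hx).2
        omega
    have b4 : CR.card ≤ {v | 2 ≤ cnt T W v}.ncard := by
      have h1 := disj_card CR (fun x => {v | Dle T m x v ∧ 2 ≤ cnt T W v}) {v | 2 ≤ cnt T W v}
        (rep_finite T W) (n := 1) ?_ ?_ ?_
      · rwa [one_mul] at h1
      · intro x _ v hv
        exact hv.2
      · intro x hx y hy hxy
        rw [Set.disjoint_left]
        intro j hj hj'
        exact hdj x (Finset.mem_filter.mp hx).1 y (Finset.mem_filter.mp hy).1 hxy _ hj.1 hj'.1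
      · intro x hx
        obtain ⟨v, hv⟩ := (Finset.mem_filter.mp hx).2
        exact (Set.ncard_pos (Set.toFinite _)).2 ⟨v, hv⟩
    have b5 : ∀ k, (CL k).card ≤ {z : Fin (2 * k) → D | Conf T k z (En T W)}.ncard := by
      intro k
      have h1 := disj_card (CL k) (fun x => {z : Fin (2 * k) → D | Conf T k z (En T W) ∧
        ∀ i, Dle T m x (T.tl (z i))}) {z : Fin (2 * k) → D | Conf T k z (En T W)}
        (Set.toFinite _) (n := 1) ?_ ?_ ?_
      · rwa [one_mul] at h1
      · intro x _ v hv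
        exact hv.1
      · intro x hx y hy hxy
        rw [Set.disjoint_left]
        intro z hz hz'
        obtain ⟨hsl, _⟩ := hz.1
        have h0 : 0 < 2 * k := by have := hsl.pos; omega
        exact hdj x (Finset.mem_filter.mp hx).1 y (Finset.mem_filter.mp hy).1 hxy _ (hz.2 ⟨0, h0⟩) (hz'.2 ⟨0, h0⟩)
      · intro x hx
        obtain ⟨v, hv⟩ := (Finset.mem_filter.mp hx).2
        exact (Set.ncard_pos (Set.toFinite _)).2 ⟨v, hv⟩
    have c1 : (C2'.card : ℝ) ≤ W.length / (C2 * m) := by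
      have hp : (0 : ℝ) < C2 * m := by
        have : 0 < C2 * m := Nat.mul_pos (by omega) hm0
        exact_mod_cast this
      rw [le_div_iff₀ hp, mul_comm]
      exact_mod_cast b2
    have c2 : (C3.card : ℝ) ≤ 8 * {d | k2 d ≠ 0}.ncard / t ^ 2 := by
      have hp : (0 : ℝ) < (t : ℝ) ^ 2 := by
        have : (0 : ℝ) < t := by exact_mod_cast (by omega : 0 < t)
        positivity
      rw [le_div_iff₀ hp, mul_comm]
      exact_mod_cast b3
    have c3 : (C.card : ℝ) ≤ CR.card + ∑ k ∈ Finset.range (2 * m + 1), ((CL k).card : ℝ) + C2'.card +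
        C3.card + C1.card := by exact_mod_cast hcard
    have c4 : ∑ k ∈ Finset.range (2 * m + 1), ((CL k).card : ℝ) ≤
        ∑ k ∈ Finset.range (2 * m + 1), ({z : Fin (2 * k) → D | Conf T k z (En T W)}.ncard : ℝ) :=
      Finset.sum_le_sum fun k _ => by exact_mod_cast b5 k
    have c5 : (CR.card : ℝ) ≤ {v | 2 ≤ cnt T W v}.ncard := by exact_mod_cast b4
    have c6 : (C1.card : ℝ) ≤ {v : T.V | ¬ FB T v (16 * m)}.ncard := by exact_mod_cast b1
    linarith

end SYS.GS
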