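import Pool.Agent.SYS.GS.ConeF
import Pool.Agent.SYS.GS.EnB

/-!
# SYS-GS-LftW: walks between vertices of the slit lifted to the cone
-/

namespace SYS.GS

open Classical SST GNH

variable {D : Type} {T : Tri D} {k : ℕ} {z : Fin (2 * k) → D}

/-- The vertex of the cone which corresponds to a vertex of `T` (the apex for the vertices of the slit). -/
private def LwP (h : Slit T k z) (u : T.V) (U : (cone T h).V) : Prop :=
  (u ∈ VZ T z → U = apx h) ∧ (u ∉ VZ T z → ∀ e, T.tl e = u → (cone T h).tl (Sum.inl e) = U)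

private theorem lw_pre [Finite D] (h : Slit T k z) (d : D) {U : (cone T h).V} (hP : LwP h (T.tl d) U) :
    ∃ l : List (D ⊕ Fin (2 * k) × Fin 3), (cone T h).IsWalk U l ((cone T h).tl (Sum.inl d)) ∧
      l.length = (if T.tl d ∈ VZ T z then 1 else 0) ∧
      ∀ (G : Type) (_ : Group G) (lab : D → G), hol (lbC lab) l = 1 := by
  by_cases hd : T.tl d ∈ VZ T z
  · obtain ⟨i, h1, _⟩ := cone_corner h hd
    refine ⟨[Sum.inr ((nxt k).symm i, 2)], ⟨?_, ?_⟩, ?_, ?_⟩
    · rw [cone_tl_2, hP.1 hd]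
    · show (cone T h).hd _ = _
      rw [cone_hd_2, Equiv.apply_symm_apply, h1]
    · rw [if_pos hd]
      rfl
    · intro G _ lab
      rw [hol_cons, hol_nil, mul_one]
      rfl
  · refine ⟨[], (hP.2 hd d rfl).symm, ?_, ?_⟩
    · rw [if_neg hd]
      rfl
    · intro G _ lab
      rfl

private theorem lw_post [Finite D] (h : Slit T k z) (d : D) :
    ∃ (l : List (D ⊕ Fin (2 * k) × Fin 3)) (V : (cone T h).V), LwP h (T.hd d) V ∧
      (cone T h).IsWalk ((cone T h).hd (Sum.inl d)) l V ∧
      l.length = (if T.hd d ∈ VZ T z then 1 else 0) ∧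
      ∀ (G : Type) (_ : Group G) (lab : D → G), hol (lbC lab) l = 1 := by
  by_cases hd : T.hd d ∈ VZ T z
  · obtain ⟨i, h1, _⟩ := cone_corner_hd h hd
    refine ⟨[Sum.inr (i, 1)], apx h, ⟨fun _ => rfl, fun h' => absurd hd h'⟩, ⟨?_, ?_⟩, ?_, ?_⟩
    · rw [cone_tl_1, h1]
    · exact cone_hd_1 h i
    · rw [if_pos hd]
      rfl
    · intro G _ lab
      rw [hol_cons, hol_nil, mul_one]
      rfl
  · have hz : d ∉ Set.range z := by
      rintro ⟨i, rfl⟩
      exact hd ⟨nxt k i, (hd_z h i).symm⟩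
    refine ⟨[], (cone T h).hd (Sum.inl d), ⟨fun h' => absurd h' hd, fun _ e he => ?_⟩, rfl, ?_, ?_⟩
    · rw [cone_hd_inl h hz]
      exact (cone_tl_of_not h (d := T.a d) (e := e) hd he.symm).symm
    · rw [if_neg hd]
      rfl
    · intro G _ lab
      rfl

private theorem lw_walk [Finite D] (h : Slit T k z) {v : T.V} (s : List D) :
    ∀ (u : T.V) (U : (cone T h).V), T.IsWalk u s v → LwP h u U →
      ∃ (s' : List (D ⊕ Fin (2 * k) × Fin 3)) (V : (cone T h).V), (s = [] → V = U) ∧ (s ≠ [] → LwP h v V) ∧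
        (cone T h).IsWalk U s' V ∧
        s'.length + (if u ∈ VZ T z then 1 else 0) = s.length + 2 * cntS T s (VZ T z) + (if v ∈ VZ T z then 1 else 0) ∧
        (∀ d ∈ s, Sum.inl d ∈ s') ∧
        ∀ (G : Type) (_ : Group G) (lab : D → G), hol (lbC lab) s' = hol lab s := by
  induction s with
  | nil =>
    intro u U hs hP
    have hs' : u = v := hs
    subst hs'
    refine ⟨[], U, fun _ => rfl, fun h' => absurd rfl h', rfl, ?_, ?_, ?_⟩
    · simp [cntS]
    · intro d hd
      exact absurd hd List.not_mem_nil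
    · intro G _ lab
      rfl
  | cons d s ih =>
    intro u U hs hP
    obtain ⟨hs1, hs2⟩ := hs
    subst hs1
    obtain ⟨l1, a1, a2, a3⟩ := lw_pre h d hP
    obtain ⟨l2, V2, b0, b1, b2, b3⟩ := lw_post h d
    obtain ⟨s', V, c0, c1, c2, c3, c4, c5⟩ := ih (T.hd d) V2 hs2 b0
    have hV : LwP h v V := by
      by_cases hs : s = []
      · subst hs
        have h1 : T.hd d = v := hs2
        rw [c0 rfl, ← h1]
        exact b0
      · exact c1 hs
    refine ⟨l1 ++ (Sum.inl d :: (l2 ++ s')), V, fun h' => absurd h' (List.cons_ne_nil _ _), fun _ => hV, ?_, ?_, ?_, ?_⟩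
    · refine (cone T h).walk_append a1 ⟨rfl, ?_⟩
      exact (cone T h).walk_append b1 c2
    · have e1 : cntS T (d :: s) (VZ T z) = cntS T s (VZ T z) + (if T.tl d ∈ VZ T z then 1 else 0) := by
        unfold cntS
        rw [List.countP_cons]
        by_cases hd : T.tl d ∈ VZ T z
        · simp [hd]
        · simp [hd]
      rw [List.length_append, List.length_cons, List.length_append, List.length_cons, a2, b2, e1]
      omega
    · intro e he
      rw [List.mem_cons] at he
      rw [List.mem_append, List.mem_cons, List.mem_append]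
      rcases he with he | he
      · rw [he]
        exact Or.inr (Or.inl rfl)
      · exact Or.inr (Or.inr (Or.inr (c4 e he)))
    · intro G _ lab
      rw [hol_append, hol_cons, hol_append, a3, b3, c5, one_mul, one_mul, hol_cons]
      rfl

theorem lift_walk [Finite D] (h : Slit T k z) {u v : T.V} {s : List D} (hs : T.IsWalk u s v) (hne : s ≠ [])
    (hu : u ∈ VZ T z) (hv : v ∈ VZ T z) :
    ∃ s' : List (D ⊕ Fin (2 * k) × Fin 3), (cone T h).IsWalk (apx h) s' (apx h) ∧
      s'.length = s.length + 2 * cntS T s (VZ T z) ∧ (∀ d ∈ s, Sum.inl d ∈ s') ∧ s' ≠ [] ∧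
      ∀ (G : Type) (_ : Group G) (lab : D → G), hol (lbC lab) s' = hol lab s := by
  obtain ⟨s', V, -, c1, c2, c3, c4, c5⟩ := lw_walk h s u (apx h) hs ⟨fun _ => rfl, fun h' => absurd hu h'⟩
  have hV : V = apx h := (c1 hne).1 hv
  subst hV
  rw [if_pos hu, if_pos hv] at c3
  refine ⟨s', c2, by omega, c4, ?_, c5⟩
  rintro rfl
  obtain ⟨d, hd⟩ := List.exists_mem_of_ne_nil s hne
  exact absurd (c4 d hd) List.not_mem_nil

end SYS.GS
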