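import Pool.Agent.SYS.GS.ConeH
import Pool.Agent.SYS.GS.LftW
import Pool.Agent.SYS.GS.EnB

/-!
# SYS-GS-LiftA: a closed walk which runs twice along the slit gives a shorter one in the cone
-/

namespace SYS.GS

open Classical SST GNH

variable {D : Type} {T : Tri D} {k : ℕ} {z : Fin (2 * k) → D}

private theorem lift_walk' [Finite D] (h : Slit T k z) {u v : T.V} {s : List D} (hs : T.IsWalk u s v)
    (hu : u ∈ VZ T z) (hv : v ∈ VZ T z) :
    ∃ s' : List (D ⊕ Fin (2 * k) × Fin 3), (cone T h).IsWalk (apx h) s' (apx h) ∧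
      s'.length = s.length + 2 * cntS T s (VZ T z) ∧ (∀ d ∈ s, Sum.inl d ∈ s') ∧
      ∀ (G : Type) (_ : Group G) (lab : D → G), hol (lbC lab) s' = hol lab s := by
  by_cases hne : s = []
  · subst hne
    refine ⟨[], rfl, rfl, fun d hd => absurd hd List.not_mem_nil, fun G _ lab => rfl⟩
  · obtain ⟨s', h1, h2, h3, _, h5⟩ := lift_walk h hs hne hu hv
    exact ⟨s', h1, h2, h3, h5⟩

private theorem mem_start {u v : T.V} {s : List D} (hs : T.IsWalk u s v) (hne : s ≠ [])
    (hz : ∀ d ∈ s, d ∈ Set.range z) : u ∈ VZ T z := by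
  cases s with
  | nil => exact absurd rfl hne
  | cons d s =>
    obtain ⟨i, hi⟩ := hz d List.mem_cons_self
    exact ⟨i, by show T.tl (z i) = u; rw [hi]; exact hs.1⟩

private theorem mem_end (h : Slit T k z) {u v : T.V} {s : List D} (hs : T.IsWalk u s v) (hne : s ≠ [])
    (hz : ∀ d ∈ s, d ∈ Set.range z) : v ∈ VZ T z := by
  induction s generalizing u with
  | nil => exact absurd rfl hne
  | cons d s ih =>
    by_cases h0 : s = []
    · subst h0
      obtain ⟨i, hi⟩ := hz d List.mem_cons_self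
      have h1 : T.hd d = v := hs.2
      exact ⟨nxt k i, by show T.tl (z (nxt k i)) = v; rw [← hd_z h, hi, h1]⟩
    · exact ih hs.2 h0 fun e he => hz e (List.mem_cons_of_mem _ he)

private theorem hol_one {G : Type} [Group G] {lab : D → G} (ht : Tz z lab) {s : List D}
    (hz : ∀ d ∈ s, d ∈ Set.range z) : hol lab s = 1 := by
  induction s with
  | nil => rfl
  | cons d s ih =>
    obtain ⟨i, hi⟩ := hz d List.mem_cons_self
    rw [hol_cons, ih fun e he => hz e (List.mem_cons_of_mem _ he), mul_one, ← hi, ht i]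

theorem liftA [Finite D] (hT : T.Conn) (h : Slit T k z) {α s1 β s2 : List D} (hW : Ess T (α ++ s1 ++ β ++ s2))
    (hα : ∀ d ∈ α, d ∈ Set.range z) (hβ : ∀ d ∈ β, d ∈ Set.range z) (hα0 : α ≠ []) (hβ0 : β ≠ []) :
    ∃ c', Ess (cone T h) c' ∧ En (cone T h) c' + 9 * (α.length + β.length) ≤
      En T (α ++ s1 ++ β ++ s2) + 18 * cntS T (s1 ++ s2) (VZ T z) + k := by
  obtain ⟨x0, hx⟩ := hW.1
  obtain ⟨x3, hx1, hx2⟩ := T.walk_split hx
  obtain ⟨x2, hx3, hx4⟩ := T.walk_split hx1
  obtain ⟨x1, hx5, hx6⟩ := T.walk_split hx3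
  have m0 : x0 ∈ VZ T z := mem_start hx5 hα0 hα
  have m1 : x1 ∈ VZ T z := mem_end h hx5 hα0 hα
  have m2 : x2 ∈ VZ T z := mem_start hx4 hβ0 hβ
  have m3 : x3 ∈ VZ T z := mem_end h hx4 hβ0 hβ
  obtain ⟨t1, a1, a2, a3, a4⟩ := lift_walk' h hx6 m1 m2
  obtain ⟨t2, b1, b2, b3, b4⟩ := lift_walk' h hx2 m3 m0
  have hcl : (cone T h).IsWalk (apx h) (t1 ++ t2) (apx h) := (cone T h).walk_append a1 b1
  have hess : Ess (cone T h) (t1 ++ t2) := by
    refine (cone_ess hT h hW.1 ⟨_, hcl⟩ fun G hG lab _ ht => ⟨1, ?_⟩).1 hW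
    rw [one_mul, inv_one, mul_one, hol_append, a4 G hG lab, b4 G hG lab, hol_append, hol_append,
      hol_append, hol_one ht hα, hol_one ht hβ, one_mul, mul_one]
  refine ⟨t1 ++ t2, hess, ?_⟩
  have hlen : (t1 ++ t2).length = s1.length + s2.length + 2 * cntS T (s1 ++ s2) (VZ T z) := by
    have : cntS T (s1 ++ s2) (VZ T z) = cntS T s1 (VZ T z) + cntS T s2 (VZ T z) :=
      List.countP_append
    rw [List.length_append, a2, b2, this]
    ring
  -- the number of vertices
  have hvis : vis T (α ++ s1 ++ β ++ s2) ≤ vis (cone T h) (t1 ++ t2) + k := by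
    obtain ⟨bs, hb1, _, hb3⟩ := exists_bs h
    have hfV : Finite T.V := Quotient.finite _
    have hfC : Finite (cone T h).V := Quotient.finite _
    have hin : ∀ d, d ∈ s1 ∨ d ∈ s2 → Sum.inl d ∈ t1 ++ t2 := by
      rintro d (hd | hd)
      · exact List.mem_append_left _ (a3 d hd)
      · exact List.mem_append_right _ (b3 d hd)
    have hapx : ∃ e ∈ t1 ++ t2, (cone T h).tl e = apx h := by
      have hne := ess_ne hess
      cases hc : t1 ++ t2 with
      | nil => exact absurd hc hne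
      | cons e c =>
        rw [hc] at hcl
        exact ⟨e, List.mem_cons_self, hcl.1⟩
    set X : Set T.V := {v | ∃ d ∈ α ++ s1 ++ β ++ s2, T.tl d = v} with hX
    set Y : Set (cone T h).V := {v | ∃ d ∈ t1 ++ t2, (cone T h).tl d = v} with hY
    have e1 : X.ncard ≤ (X \ VZ T z).ncard + (VZ T z).ncard :=
      (Set.ncard_le_ncard (fun v hv => by
        by_cases hz : v ∈ VZ T z
        · exact Or.inr hz
        · exact Or.inl ⟨hv, hz⟩) (Set.toFinite _)).trans (Set.ncard_union_le _ _)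
    have e2 : (insert none (some '' (X \ VZ T z)) : Set (Option T.V)).ncard = (X \ VZ T z).ncard + 1 := by
      rw [Set.ncard_insert_of_notMem _ (Set.toFinite _),
        Set.ncard_image_of_injective _ (Option.some_injective _)]
      rintro ⟨v, _, hv⟩
      exact Option.some_ne_none v hv
    have e3 : (insert none (some '' (X \ VZ T z)) : Set (Option T.V)) ⊆ bs '' Y := by
      intro o ho
      rcases ho with rfl | ⟨v, ⟨⟨d, hd, rfl⟩, hv⟩, rfl⟩
      · obtain ⟨e, he, he2⟩ := hapx
        exact ⟨apx h, ⟨e, he, he2⟩, hb3⟩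
      · refine ⟨(cone T h).tl (Sum.inl d), ⟨Sum.inl d, hin d ?_, rfl⟩, hb1 d⟩
        have hn : d ∉ Set.range z := fun ⟨i, hi⟩ => hv ⟨i, by show T.tl (z i) = T.tl d; rw [hi]⟩
        rcases List.mem_append.1 hd with hd | hd
        · rcases List.mem_append.1 hd with hd | hd
          · rcases List.mem_append.1 hd with hd | hd
            · exact absurd (hα d hd) hn
            · exact Or.inl hd
          · exact absurd (hβ d hd) hn
        · exact Or.inr hd
    have e4 := (Set.ncard_le_ncard e3 (Set.toFinite _)).trans (Set.ncard_image_le (Set.toFinite Y))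
    rw [e2] at e4
    rw [card_VZ h] at e1
    show X.ncard ≤ Y.ncard + k
    omega
  have g1 := en_add (cone T h) (t1 ++ t2)
  have g2 := en_add T (α ++ s1 ++ β ++ s2)
  rw [hlen] at g1
  simp only [List.length_append] at g2
  omega

end SYS.GS
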