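import Pool.Agent.SYS.GS.ConeI
import Pool.Agent.SYS.GS.EnB

/-!
# SYS-GS-VisC: number of vertices of a list of darts of the cone
-/

namespace SYS.GS

open Classical SST GNH

variable {D : Type} {T : Tri D} {k : ℕ} {z : Fin (2 * k) → D}

/-- Vertices: at most `k` more in the cone. -/
theorem vis_cone [Finite D] (h : Slit T k z) {c : List D} {c' : List (D ⊕ Fin (2 * k) × Fin 3)}
    (hv : ∀ e ∈ c', (cone T h).tl e ≠ apx h → ∃ d ∈ c, ∃ d', T.tl d' = T.tl d ∧ (cone T h).tl e = (cone T h).tl (Sum.inl d')) :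
    vis (cone T h) c' ≤ vis T c + k := by
  have hfV : Finite T.V := inferInstanceAs (Finite (Quotient _))
  have hfC : Finite (cone T h).V := inferInstanceAs (Finite (Quotient _))
  have hpos := h.pos
  obtain ⟨A, hA⟩ : ∃ A : Set T.V, A = {v | ∃ d ∈ c, T.tl d = v} := ⟨_, rfl⟩
  obtain ⟨I, hI⟩ : ∃ I : Set (Fin (2 * k)), I = {i | T.tl (z i) ∈ A} := ⟨_, rfl⟩
  have hcov : {v | ∃ e ∈ c', (cone T h).tl e = v} ⊆
      ({apx h} ∪ (fun v : T.V => (cone T h).tl (Sum.inl (Quotient.out v))) '' (A \ VZ T z)) ∪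
        (fun i => (cone T h).tl (Sum.inl (z i))) '' I := by
    rintro v ⟨e, he, rfl⟩
    by_cases hap : (cone T h).tl e = apx h
    · exact Or.inl (Or.inl hap)
    · obtain ⟨d, hd, d', hd', htl⟩ := hv e he hap
      have hdA : T.tl d' ∈ A := by
        rw [hA, hd']
        exact ⟨d, hd, rfl⟩
      by_cases hZ : T.tl d' ∈ VZ T z
      · obtain ⟨i, h1, h2⟩ := cone_corner h hZ
        refine Or.inr ⟨i, ?_, ?_⟩
        · rw [hI]
          show T.tl (z i) ∈ A
          rw [h2]
          exact hdA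
        · show (cone T h).tl (Sum.inl (z i)) = (cone T h).tl e
          rw [htl, h1]
      · refine Or.inl (Or.inr ⟨T.tl d', ⟨hdA, hZ⟩, ?_⟩)
        show (cone T h).tl (Sum.inl (Quotient.out (T.tl d'))) = (cone T h).tl e
        rw [htl]
        have h1 : T.tl (Quotient.out (T.tl d')) = T.tl d' := Quotient.out_eq (T.tl d')
        exact (cone_tl_of_not h hZ h1.symm).symm
  have h1 : vis (cone T h) c' ≤ 1 + (A \ VZ T z).ncard + I.ncard := by
    refine (Set.ncard_le_ncard hcov (Set.toFinite _)).trans ?_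
    refine (Set.ncard_union_le _ _).trans (Nat.add_le_add ?_ (Set.ncard_image_le (Set.toFinite _)))
    refine (Set.ncard_union_le _ _).trans (Nat.add_le_add (Set.ncard_singleton _).le (Set.ncard_image_le (Set.toFinite _)))
  have h2 : (VZ T z \ A).ncard ≤ Iᶜ.ncard := by
    have h3 : VZ T z \ A ⊆ (fun i => T.tl (z i)) '' Iᶜ := by
      rintro v ⟨⟨i, rfl⟩, hi⟩
      refine ⟨i, ?_, rfl⟩
      intro hi'
      rw [hI] at hi'
      exact hi hi'
    exact (Set.ncard_le_ncard h3 (Set.toFinite _)).trans (Set.ncard_image_le (Set.toFinite _))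
  have h3 : I.ncard + Iᶜ.ncard = 2 * k := by
    rw [Set.ncard_add_ncard_compl, Nat.card_eq_fintype_card, Fintype.card_fin]
  have h4 : (VZ T z ∩ A).ncard + (VZ T z \ A).ncard = k + 1 := by
    rw [Set.ncard_inter_add_ncard_diff_eq_ncard _ _ (Set.toFinite _), card_VZ h]
  have h5 : (A ∩ VZ T z).ncard + (A \ VZ T z).ncard = A.ncard :=
    Set.ncard_inter_add_ncard_diff_eq_ncard _ _ (Set.toFinite _)
  have h6 : (A ∩ VZ T z).ncard = (VZ T z ∩ A).ncard := by rw [Set.inter_comm]
  have h7 : vis T c = A.ncard := by rw [hA]; rfl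
  omega

end SYS.GS
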