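import Pool.Agent.SYS.GS.ConeH
import Pool.Agent.SYS.GS.VisC

/-!
# SYS-GS-LiftB: a closed walk of the cone which visits the apex at most once gives a closed walk of the triangulation

PROOF. `pj : D ⊕ _ → List D`: `inl d ↦ [d]`, `(i, 0) ↦ [T.a (z i)]`, `(i, 1), (i, 2) ↦ []`. With `bs` of `exists_bs`: a walk `s'` of the cone from `v` to `v'` which uses no dart `(i, 1)`, `(i, 2)` projects to the walk `s'.flatMap pj` of `T` from the vertex below `v` to the vertex below `v'` (induction; `bs (tl (i, 0)) = some (T.hd (z i)) = some (T.tl (T.a (z i)))`,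
`bs (hd (i, 0)) = bs (tl (inl (z i))) = some (T.tl (z i))`), of the same length, and `hol lab (s'.flatMap pj) = hol (lbC lab) s'` for `Tz z lab` (`lab (T.a (z i)) = lab (z i.rev) = 1`).
CASE 1: `c'` has no dart `(i, 2)`: then it has no dart `(i, 1)` either (the next dart in cyclic order starts at `apx`, and a dart with tail `apx` is some `(i, 2)`: `bs` of the tails of the other darts is not `none`). `c = c'.flatMap pj`. CASE 2: otherwise rotate (`ess_rot`, `en_rot` for the cone with `cone_conn`) such that `c' = (j, 2) :: r`; `cnt ≤ 1` says that `r` has no dart with tail `apx`, so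
no `(i, 2)`; its last dart has head `apx`; so `r = mid ++ [(i, 1)]` where `mid` has no `(i', 1)` (the next dart would start at `apx`); (`r ≠ []` because `hd (j, 2) ≠ apx`: `cone_hd_2`, `bs`). `mid` goes from `hd (j, 2) = tl (inl (z (nxt j)))` to `tl (i, 1) = tl (inl (z i))`. `c = mid.flatMap pj ++ κ`, `κ` from `T.tl (z i)` to `T.tl (z (nxt j))` from `hw`.
`Ess T c` by `cone_ess` (holonomies equal). `|c| ≤ |c'| + b`. VERTICES: every vertex of the cone visited by `c'` is `apx` or has its base vertex (`bs`) visited by `c` (`c ≠ []`; the start of `κ` and the end of `κ` are vertices of the closed walk `c`). `vis_cone` (GS/VisC), `en_add`.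
-/

namespace SYS.GS

open Classical SST GNH

variable {D : Type} {T : Tri D} {k : ℕ} {z : Fin (2 * k) → D}

/-- projection of the darts -/
private def pj (T : Tri D) (z : Fin (2 * k) → D) : D ⊕ Fin (2 * k) × Fin 3 → List D
  | Sum.inl d => [d]
  | Sum.inr (i, j) => if j = 0 then [T.a (z i)] else []

/-- darts which do not touch the apex -/
private def Gd (e : D ⊕ Fin (2 * k) × Fin 3) : Prop := (∃ d, e = Sum.inl d) ∨ ∃ i, e = Sum.inr (i, 0)

private theorem cases3 (e : D ⊕ Fin (2 * k) × Fin 3) :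
    Gd e ∨ (∃ i, e = Sum.inr (i, 1)) ∨ ∃ i, e = Sum.inr (i, 2) := by
  rcases e with d | ⟨i, j⟩
  · exact Or.inl (Or.inl ⟨d, rfl⟩)
  · fin_cases j
    · exact Or.inl (Or.inr ⟨i, rfl⟩)
    · exact Or.inr (Or.inl ⟨i, rfl⟩)
    · exact Or.inr (Or.inr ⟨i, rfl⟩)

/-- the vertex of `T` below a vertex of the cone -/
private def Bs (h : Slit T k z) (bs : (cone T h).V → Option T.V) : Prop :=
  (∀ d, bs ((cone T h).tl (Sum.inl d)) = some (T.tl d)) ∧ (∀ d, bs ((cone T h).hd (Sum.inl d)) = some (T.hd d)) ∧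
      bs (apx h) = none

private theorem gd_spec (h : Slit T k z) {bs : (cone T h).V → Option T.V} (hb : Bs h bs)
    {e : D ⊕ Fin (2 * k) × Fin 3} (he : Gd e) :
    ∃ d, pj T z e = [d] ∧ bs ((cone T h).tl e) = some (T.tl d) ∧ bs ((cone T h).hd e) = some (T.hd d) ∧
      (∀ (G : Type) (_ : Group G) (lab : D → G), Flat T lab → Tz z lab → lbC lab e = lab d) ∧
      ∃ d', T.tl d' = T.tl d ∧ (cone T h).tl e = (cone T h).tl (Sum.inl d') := by
  rcases he with ⟨d, rfl⟩ | ⟨i, rfl⟩
  · exact ⟨d, rfl, hb.1 d, hb.2.1 d, fun _ _ _ _ _ => rfl, d, rfl, rfl⟩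
  · refine ⟨T.a (z i), rfl, ?_, ?_, fun G hG lab hl ht => ?_, z (nxt k i), (hd_z h i).symm, cone_tl_0 h i⟩
    · rw [cone_tl_0, hb.1, ← hd_z h i]
      rfl
    · rw [cone_hd_0, hb.1, Tri.hd_a]
    · show (1 : G) = lab (T.a (z i))
      rw [hl.inv, ht i, inv_one]

private theorem proj_walk (h : Slit T k z) {bs : (cone T h).V → Option T.V} (hb : Bs h bs)
    {s : List (D ⊕ Fin (2 * k) × Fin 3)} (hs : ∀ e ∈ s, Gd e) {v v' : (cone T h).V} {u u' : T.V}
    (hw : (cone T h).IsWalk v s v') (hu : bs v = some u) (hu' : bs v' = some u') :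
    T.IsWalk u (s.flatMap (pj T z)) u' := by
  induction s generalizing v u with
  | nil =>
    have h1 : v = v' := hw
    rw [h1, hu'] at hu
    exact (Option.some.inj hu).symm
  | cons e s ih =>
    obtain ⟨h1, h2⟩ := hw
    obtain ⟨d, hd, htl, hhd, -, -⟩ := gd_spec h hb (hs e List.mem_cons_self)
    rw [List.flatMap_cons, hd]
    rw [h1, hu] at htl
    exact ⟨(Option.some.inj htl).symm, ih (fun e he => hs e (List.mem_cons_of_mem _ he)) h2 hhd⟩

private theorem proj_len (h : Slit T k z) {bs : (cone T h).V → Option T.V} (hb : Bs h bs)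
    {s : List (D ⊕ Fin (2 * k) × Fin 3)} (hs : ∀ e ∈ s, Gd e) : (s.flatMap (pj T z)).length = s.length := by
  induction s with
  | nil => rfl
  | cons e s ih =>
    obtain ⟨d, hd, -⟩ := gd_spec h hb (hs e List.mem_cons_self)
    rw [List.flatMap_cons, hd, List.length_append, ih (fun e he => hs e (List.mem_cons_of_mem _ he)),
      List.length_singleton, List.length_cons, add_comm]

private theorem proj_hol (h : Slit T k z) {bs : (cone T h).V → Option T.V} (hb : Bs h bs)
    {s : List (D ⊕ Fin (2 * k) × Fin 3)} (hs : ∀ e ∈ s, Gd e) {G : Type} [hG : Group G] {lab : D → G}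
    (hl : Flat T lab) (ht : Tz z lab) : hol (lbC lab) s = hol lab (s.flatMap (pj T z)) := by
  induction s with
  | nil => rfl
  | cons e s ih =>
    obtain ⟨d, hd, -, -, hlb, -⟩ := gd_spec h hb (hs e List.mem_cons_self)
    rw [List.flatMap_cons, hd, hol_append, hol_cons, hol_cons, hol_nil, mul_one,
      ih (fun e he => hs e (List.mem_cons_of_mem _ he)), hlb G hG lab hl ht]

/-- the vertices visited by the good darts -/
private theorem proj_vis (h : Slit T k z) {bs : (cone T h).V → Option T.V} (hb : Bs h bs)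
    {s : List (D ⊕ Fin (2 * k) × Fin 3)} {e : D ⊕ Fin (2 * k) × Fin 3} (he : e ∈ s) (hg : Gd e) :
    ∃ d ∈ s.flatMap (pj T z), ∃ d', T.tl d' = T.tl d ∧ (cone T h).tl e = (cone T h).tl (Sum.inl d') := by
  obtain ⟨d, hd, -, -, -, d', h1, h2⟩ := gd_spec h hb hg
  refine ⟨d, List.mem_flatMap.2 ⟨e, he, ?_⟩, d', h1, h2⟩
  rw [hd]
  exact List.mem_singleton.2 rfl

private theorem en_fin (h : Slit T k z) {b : ℕ} {c : List D} {c' : List (D ⊕ Fin (2 * k) × Fin 3)}
    (h1 : c.length ≤ c'.length + b) (h2 : vis (cone T h) c' ≤ vis T c + k) :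
    En T c ≤ En (cone T h) c' + 9 * b + k := by
  have h3 := en_add T c
  have h4 := en_add (cone T h) c'
  omega

private theorem tl_ne_apx (h : Slit T k z) {bs : (cone T h).V → Option T.V} (hb : Bs h bs) (d : D) :
    (cone T h).tl (Sum.inl d) ≠ apx h := by
  intro h1
  have h2 := hb.1 d
  rw [h1, hb.2.2] at h2
  exact absurd h2 (by simp)

private theorem gd_hd_ne (h : Slit T k z) {bs : (cone T h).V → Option T.V} (hb : Bs h bs)
    {e : D ⊕ Fin (2 * k) × Fin 3} (he : Gd e) : (cone T h).hd e ≠ apx h := by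
  obtain ⟨d, -, -, hhd, -⟩ := gd_spec h hb he
  intro h1
  rw [h1, hb.2.2] at hhd
  exact absurd hhd (by simp)

private theorem gd_tl_ne (h : Slit T k z) {bs : (cone T h).V → Option T.V} (hb : Bs h bs)
    {e : D ⊕ Fin (2 * k) × Fin 3} (he : Gd e) : (cone T h).tl e ≠ apx h := by
  obtain ⟨d, -, htl, -⟩ := gd_spec h hb he
  intro h1
  rw [h1, hb.2.2] at htl
  exact absurd htl (by simp)

/-- the walk starts at the apex -/
private theorem lift_rot [Finite D] (hT : T.Conn) (h : Slit T k z) {b : ℕ}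
    (hw : ∀ u ∈ VZ T z, ∀ v ∈ VZ T z, ∃ c, T.IsWalk u c v ∧ c.length ≤ b ∧
      ∀ (G : Type) (_ : Group G) (lab : D → G), Flat T lab → Tz z lab → hol lab c = 1)
    {bs : (cone T h).V → Option T.V} (hb : Bs h bs)
    {e0 : D ⊕ Fin (2 * k) × Fin 3} {r : List (D ⊕ Fin (2 * k) × Fin 3)} (h0 : (cone T h).tl e0 = apx h)
    (he : Ess (cone T h) (e0 :: r)) (h1 : cnt (cone T h) (e0 :: r) (apx h) ≤ 1) :
    ∃ c, Ess T c ∧ En T c ≤ En (cone T h) (e0 :: r) + 9 * b + k := by
  -- `e0 = (j, 2)`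
  obtain ⟨j, rfl⟩ : ∃ j, e0 = Sum.inr (j, 2) := by
    rcases cases3 e0 with hg | ⟨i, rfl⟩ | h2
    · exact absurd h0 (gd_tl_ne h hb hg)
    · rw [cone_tl_1] at h0
      exact absurd h0 (tl_ne_apx h hb _)
    · exact h2
  -- no other dart starts at the apex
  have hr : ∀ e ∈ r, (cone T h).tl e ≠ apx h := by
    intro e her h2
    unfold cnt at h1
    rw [List.countP_cons_of_pos (by simpa using h0)] at h1
    have h3 : 0 < r.countP fun d => decide ((cone T h).tl d = apx h) :=
      List.countP_pos_iff.2 ⟨e, her, by simpa using h2⟩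
    omega
  obtain ⟨v, hv1, hv2⟩ := he.1
  have hv : v = apx h := by rw [← hv1, h0]
  rw [hv] at hv2
  have hrne : r ≠ [] := by
    rintro rfl
    have h2 : (cone T h).hd (Sum.inr (j, 2)) = apx h := hv2
    rw [cone_hd_2] at h2
    exact tl_ne_apx h hb _ h2
  obtain ⟨mid, e1, rfl⟩ : ∃ mid e1, r = mid ++ [e1] := by
    rcases List.eq_nil_or_concat r with h2 | ⟨m, e, h2⟩
    · exact absurd h2 hrne
    · exact ⟨m, e, by rw [h2, List.concat_eq_append]⟩
  obtain ⟨w, hw1, hw2⟩ := Tri.walk_split (cone T h) hv2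
  have hw3 : (cone T h).tl e1 = w := hw2.1
  have hw4 : (cone T h).hd e1 = apx h := hw2.2
  -- `e1 = (i, 1)`
  obtain ⟨i, rfl⟩ : ∃ i, e1 = Sum.inr (i, 1) := by
    rcases cases3 e1 with hg | h2 | ⟨i, rfl⟩
    · exact absurd hw4 (gd_hd_ne h hb hg)
    · exact h2
    · exact absurd (cone_tl_2 h i) (hr _ (List.mem_append_right _ (List.mem_singleton.2 rfl)))
  -- the darts between are good
  have hmid : ∀ e ∈ mid, Gd e := by
    intro e hem
    rcases cases3 e with hg | ⟨i', rfl⟩ | ⟨i', rfl⟩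
    · exact hg
    · exfalso
      obtain ⟨m1, m2, rfl⟩ := List.append_of_mem hem
      rw [List.append_assoc] at hv2
      obtain ⟨w', -, h4⟩ := Tri.walk_split (cone T h) hv2
      have h5 : (cone T h).IsWalk ((cone T h).hd (Sum.inr (i', 1))) (m2 ++ [Sum.inr (i, 1)]) (apx h) := h4.2
      rw [cone_hd_1] at h5
      rcases m2 with _ | ⟨e2, m2⟩
      · exact hr (Sum.inr (i, 1)) (by simp) h5.1
      · exact hr e2 (by simp) h5.1
    · exact absurd (cone_tl_2 h i') (hr _ (List.mem_append_left _ hem))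
  have hwk : T.IsWalk (T.tl (z (nxt k j))) (mid.flatMap (pj T z)) (T.tl (z i)) := by
    refine proj_walk h hb hmid hw1 ?_ ?_
    · rw [cone_hd_2, hb.1]
    · rw [← hw3, cone_tl_1, hb.1]
  obtain ⟨κ, hκ1, hκ2, hκ3⟩ := hw (T.tl (z i)) ⟨i, rfl⟩ (T.tl (z (nxt k j))) ⟨nxt k j, rfl⟩
  have hcl : T.Closed (mid.flatMap (pj T z) ++ κ) := ⟨_, Tri.walk_append T hwk hκ1⟩
  have hess : Ess T (mid.flatMap (pj T z) ++ κ) := by
    refine (cone_ess hT h hcl he.1 fun G hG lab hl ht => ⟨1, ?_⟩).2 he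
    have h3 : hol (lbC lab) (Sum.inr (j, 2) :: (mid ++ [Sum.inr (i, 1)])) = hol (lbC lab) mid := by
      rw [hol_cons, hol_append, hol_cons, hol_nil]
      show (1 : G) * (hol (lbC lab) mid * ((1 : G) * 1)) = _
      rw [mul_one, mul_one, one_mul]
    rw [h3, proj_hol h hb hmid hl ht, hol_append, hκ3 G hG lab hl ht, mul_one, inv_one, mul_one, one_mul]
  refine ⟨_, hess, en_fin h ?_ (vis_cone h ?_)⟩
  · rw [List.length_append, proj_len h hb hmid, List.length_cons, List.length_append]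
    omega
  · intro e hec hne
    rcases List.mem_cons.1 hec with rfl | hec
    · exact absurd h0 hne
    · rcases List.mem_append.1 hec with hec | hec
      · obtain ⟨d, hd, h3⟩ := proj_vis h hb hec (hmid e hec)
        exact ⟨d, List.mem_append_left _ hd, h3⟩
      · rw [List.mem_singleton.1 hec, cone_tl_1]
        rcases κ with _ | ⟨d0, κ⟩
        · have h3 : T.tl (z i) = T.tl (z (nxt k j)) := hκ1
          have h4 := ess_ne hess
          rw [List.append_nil] at h4
          obtain ⟨d1, l1, h5⟩ := List.exists_cons_of_ne_nil h4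
          rw [h5] at hwk
          refine ⟨d1, ?_, z i, ?_, rfl⟩
          · rw [h5]
            exact List.mem_append_left _ List.mem_cons_self
          · rw [h3]
            exact hwk.1.symm
        · exact ⟨d0, List.mem_append_right _ List.mem_cons_self, z i, hκ1.1.symm, rfl⟩

theorem liftB [Finite D] (hT : T.Conn) (h : Slit T k z) {b : ℕ}
    (hw : ∀ u ∈ VZ T z, ∀ v ∈ VZ T z, ∃ c, T.IsWalk u c v ∧ c.length ≤ b ∧
      ∀ (G : Type) (_ : Group G) (lab : D → G), Flat T lab → Tz z lab → hol lab c = 1)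
    {c' : List (D ⊕ Fin (2 * k) × Fin 3)} (he : Ess (cone T h) c') (h1 : cnt (cone T h) c' (apx h) ≤ 1) :
    ∃ c, Ess T c ∧ En T c ≤ En (cone T h) c' + 9 * b + k := by
  obtain ⟨bs, hb⟩ := exists_bs h
  have hb' : Bs h bs := hb
  by_cases hg : ∀ e ∈ c', Gd e
  · -- no dart touches the apex
    obtain ⟨e0, r, rfl⟩ := List.exists_cons_of_ne_nil (ess_ne he)
    obtain ⟨v, hv⟩ := he.1
    obtain ⟨d, -, htl, -⟩ := gd_spec h hb' (hg e0 List.mem_cons_self)
    rw [hv.1] at htl
    have hwk := proj_walk h hb' hg hv htl htl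
    have hess : Ess T ((e0 :: r).flatMap (pj T z)) := by
      refine (cone_ess hT h ⟨_, hwk⟩ he.1 fun G hG lab hl ht => ⟨1, ?_⟩).2 he
      rw [proj_hol h hb' hg hl ht, inv_one, mul_one, one_mul]
    refine ⟨_, hess, en_fin h ?_ (vis_cone h fun e hec _ => proj_vis h hb' hec (hg e hec))⟩
    rw [proj_len h hb' hg]
    omega
  · -- rotate
    have hrot : ∀ {e0 : D ⊕ Fin (2 * k) × Fin 3} {a r : List (D ⊕ Fin (2 * k) × Fin 3)}, c' = a ++ e0 :: r →
        (cone T h).tl e0 = apx h → ∃ c, Ess T c ∧ En T c ≤ En (cone T h) c' + 9 * b + k := by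
      intro e0 a r hc h0
      rw [hc] at he h1
      have h2 := ess_rot (cone_conn h hT) he
      rw [← cnt_rot] at h1
      rw [hc, ← en_rot]
      exact lift_rot hT h hw hb' h0 h2 h1
    push Not at hg
    obtain ⟨e, hec, heg⟩ := hg
    rcases cases3 e with h2 | ⟨i, rfl⟩ | ⟨i, rfl⟩
    · exact absurd h2 heg
    · obtain ⟨a, r, hc⟩ := List.append_of_mem hec
      obtain ⟨v, hv⟩ := he.1
      rw [hc] at hv
      obtain ⟨w, hw1, hw2⟩ := Tri.walk_split (cone T h) hv
      have hw3 : (cone T h).IsWalk ((cone T h).hd (Sum.inr (i, 1))) r v := hw2.2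
      rw [cone_hd_1] at hw3
      rcases r with _ | ⟨e2, r⟩
      · have h3 : apx h = v := hw3
        rcases a with _ | ⟨e2, a⟩
        · have h4 : v = w := hw1
          have h5 : (cone T h).tl (Sum.inr (i, 1)) = w := hw2.1
          rw [cone_tl_1, ← h4, ← h3] at h5
          exact absurd h5 (tl_ne_apx h hb' _)
        · exact hrot (a := []) (by rw [hc]; rfl) (hw1.1.trans h3.symm)
      · exact hrot (a := a ++ [Sum.inr (i, 1)]) (by rw [hc, List.append_assoc]; rfl) hw3.1
    · obtain ⟨a, r, hc⟩ := List.append_of_mem hec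
      exact hrot hc (cone_tl_2 h i)

end SYS.GS
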