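import Pool.Agent.SYS.GS.Fb

/-!
# SYS-GS-LonA: the level function of a quasi-geodesic strand

The level function is the minimum of shifted distances, divided by `9`.
-/

namespace SYS.GS

open Classical SST GNH

variable {D : Type} {T : Tri D} {w : ℕ → D} {l : ℕ}

private noncomputable def mf (T : Tri D) (w : ℕ → D) (q : ℕ) (v : T.V) : ℕ :=
  (Finset.range (4 * q + 1)).inf' ⟨0, Finset.mem_range.2 (by omega)⟩
    (fun u => 9 * dst T v (T.tl (w u)) + 8 * (4 * q - u))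

private theorem mf_le (T : Tri D) (w : ℕ → D) (q : ℕ) (v : T.V) {u : ℕ} (hu : u ≤ 4 * q) :
    mf T w q v ≤ 9 * dst T v (T.tl (w u)) + 8 * (4 * q - u) :=
  Finset.inf'_le (fun u => 9 * dst T v (T.tl (w u)) + 8 * (4 * q - u)) (Finset.mem_range.2 (by omega))

private theorem mf_ex (T : Tri D) (w : ℕ → D) (q : ℕ) (v : T.V) :
    ∃ u ≤ 4 * q, mf T w q v = 9 * dst T v (T.tl (w u)) + 8 * (4 * q - u) := by
  obtain ⟨u, hu, he⟩ := Finset.exists_mem_eq_inf' (s := Finset.range (4 * q + 1))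
    ⟨0, Finset.mem_range.2 (by omega)⟩ (fun u => 9 * dst T v (T.tl (w u)) + 8 * (4 * q - u))
  exact ⟨u, by have := Finset.mem_range.1 hu; omega, he⟩

theorem lon_level (hT : T.Conn) {q : ℕ}
    (hg : ∀ i j, i ≤ j → j ≤ 4 * q → 8 * (j - i) ≤ 9 * dst T (T.tl (w i)) (T.tl (w j))) :
    ∃ b : T.V → ℕ, (∀ d, b (T.tl d) ≤ b (T.hd d) + 1 ∧ b (T.hd d) ≤ b (T.tl d) + 1) ∧
      ∀ i ≤ 4 * q, b (T.tl (w i)) = 8 * (4 * q - i) / 9 := by
  refine ⟨fun v => mf T w q v / 9, fun d => ?_, fun i hi => ?_⟩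
  · have h1 : mf T w q (T.tl d) ≤ mf T w q (T.hd d) + 9 := by
      obtain ⟨u, hu, he⟩ := mf_ex T w q (T.hd d)
      have h2 := mf_le T w q (T.tl d) hu
      have h3 := (dst_lip hT (T.tl (w u)) d).1
      rw [dst_comm T _ (T.tl d), dst_comm T _ (T.hd d)] at h3
      omega
    have h1' : mf T w q (T.hd d) ≤ mf T w q (T.tl d) + 9 := by
      obtain ⟨u, hu, he⟩ := mf_ex T w q (T.tl d)
      have h2 := mf_le T w q (T.hd d) hu
      have h3 := (dst_lip hT (T.tl (w u)) d).2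
      rw [dst_comm T _ (T.tl d), dst_comm T _ (T.hd d)] at h3
      omega
    show mf T w q (T.tl d) / 9 ≤ mf T w q (T.hd d) / 9 + 1 ∧ mf T w q (T.hd d) / 9 ≤ mf T w q (T.tl d) / 9 + 1
    omega
  · have h1 := mf_le T w q (T.tl (w i)) hi
    rw [dst_self] at h1
    obtain ⟨u, hu, he⟩ := mf_ex T w q (T.tl (w i))
    have h2 : mf T w q (T.tl (w i)) = 8 * (4 * q - i) := by
      apply le_antisymm
      · omega
      · rcases le_total i u with h | h
        · have h3 := hg i u h hu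
          omega
        · omega
    show mf T w q (T.tl (w i)) / 9 = _
    rw [h2]

end SYS.GS
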