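import Pool.Agent.SYS.LP.Crv
import Pool.Agent.SYS.GS.LonA

/-!
# SYS-GS-Lon: a lonely strand costs `q² / 8` darts with non-zero multiplicity

PROOF. `lone`: put `h = q / 2`, `x = T.tl (w (2 q))`, `β i = 8 (4 q - i) / 9` (nonincreasing on `[0, 4 q]`, steps `≤ 1`), `c = T.chain (st w 0 l)`. JUMPS: `p` with `2 q - h ≤ p < 2 q + h` and `β p = β (p + 1) + 1`. Their number is
`β (2 q - h) - β (2 q + h) ≥ 16 h / 9 - 1` (telescoping). For a jump `p` put `e0 = w p`, `L = β p`, `s = |p - 2 q| ≤ h`, `r = q - s ≥ q - h`; `level_count` (LP/Crv) gives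
`r ≤ #{d | b (tl d) = L ∧ Dle T q x (tl d) ∧ k d ≠ 0}`; for different jumps the levels are different, so the sets are disjoint subsets of the set of the theorem:
`(q - h) * (number of jumps) ≤ #`, and `q² ≤ 8 (q - h) (16 h / 9 - 1)` for `q ≥ 4` (`h ≥ (q - 1) / 2`; `8 * (8 q - 17) / 9 * q / 2 ≥ q²`).
The hypotheses of `level_count`: `h0`: `b (tl (w p)) = β p`, `b (hd (w p)) = b (tl (w (p + 1))) = β (p + 1)` (`PW.walk`). `hx`: `PW.dle_ab`. `he`: `chain c d = #{j < l | w j = d} - #{j < l | w j = T.a d}`; `w j = e0` means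
`tl (w j)` in the ball, `j ≤ 4 q` (`h1`), `j < 4 q` as `β (4 q) = 0 < L`, `β j = L`, `β (j + 1) = L - 1`, so `j = p` (nonincreasing); `w j = T.a e0`: `tl (w j) = tl (w (p + 1))` is at distance `≤ h + 1 ≤ q`, so `j ≤ 4 q`,
`β j = L - 1`, and `b (tl (w (j + 1))) = b (tl e0) = L`: impossible (`j < 4 q`: nonincreasing; `j = 4 q`: `β j = 0`, but `L - 1 ≥ 1`). So `c e0 = 1`.
`hu`: `c e ≠ 0` gives `j < l` with `w j = e` (then `j = p` as before) or `w j = T.a e`: then `tl (w (j + 1)) = tl e` is in the ball; if `j + 1 < l`: `j + 1 ≤ 4 q`, `β (j + 1) = L`, `β j = b (hd e) = L - 1`: impossible; if `j + 1 = l`: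
`tl (w 0) = tl e` (`PW.per`), `β 0 = 32 q / 9 = L = β p ≤ 8 (2 q + h) / 9`: impossible.
Model: `LP/Cnt.lean` (`Shw.faces`), which is the same with `β i = 4 m - i`.
-/

namespace SYS.GS

open Classical SST GNH

variable {D : Type} {T : Tri D} {w : ℕ → D} {l : ℕ}

private theorem jumps_card (q : ℕ) (n a : ℕ) (ha : a + n ≤ 4 * q) :
    8 * (4 * q - a) / 9 ≤ 8 * (4 * q - (a + n)) / 9 +
      ((Finset.Ico a (a + n)).filter fun p => 8 * (4 * q - p) / 9 = 8 * (4 * q - (p + 1)) / 9 + 1).card := by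
  induction n with
  | zero => simp
  | succ n ih =>
    have h1 := ih (by omega)
    rw [← Nat.add_assoc, ← Finset.insert_Ico_right_eq_Ico_add_one (by omega), Finset.filter_insert]
    split_ifs with h2
    · rw [Finset.card_insert_of_notMem (by simp)]
      omega
    · omega

theorem lone [Finite D] (hT : T.Conn) (h : PW T w l) {k : D → ℤ} (hk : ∀ d, k (T.f d) = k d)
    (hc : ∀ d, T.chain (st w 0 l) d = k d - k (T.a d)) {q : ℕ} (hq : 4 ≤ q) (hl : 4 * q < l)
    (hg : ∀ i j, i ≤ j → j ≤ 4 * q → 8 * (j - i) ≤ 9 * dst T (T.tl (w i)) (T.tl (w j)))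
    (h1 : ∀ i < l, Dle T q (T.tl (w (2 * q))) (T.tl (w i)) → i ≤ 4 * q) :
    q ^ 2 ≤ 8 * {d | Dle T q (T.tl (w (2 * q))) (T.tl d) ∧ k d ≠ 0}.ncard := by
  obtain ⟨b, hb, hB⟩ := lon_level hT hg
  have hnear : ∀ p, 2 * q - q / 2 ≤ p → p < 2 * q + q / 2 → Dle T q (T.tl (w (2 * q))) (T.tl (w p)) := by
    intro p h2 h3
    refine (h.dle_ab (2 * q) p).mono ?_
    unfold ab
    omega
  -- darts of the walk at the level of `w p`
  have hU : ∀ p, 2 * q - q / 2 ≤ p → p < 2 * q + q / 2 → 8 * (4 * q - p) / 9 = 8 * (4 * q - (p + 1)) / 9 + 1 →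
      ∀ e, b (T.tl e) = b (T.hd e) + 1 → b (T.tl e) = 8 * (4 * q - p) / 9 → Dle T q (T.tl (w (2 * q))) (T.tl e) →
      ∀ t < l, (e = w t ∨ T.a e = w t) → t = p ∧ e = w t := by
    intro p h2 h3 hj e he1 he2 he3 t ht het
    rcases het with het | het
    · rw [het] at he2 he3 he1
      have h4 := h1 t ht he3
      rw [h.walk t] at he1
      rw [hB t h4] at he2 he1
      have h5 : t < 4 * q := by
        rcases Nat.lt_or_ge t (4 * q) with h5 | h5
        · exact h5
        · exfalso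
          have : t = 4 * q := by omega
          subst this
          omega
      rw [hB (t + 1) h5] at he1
      exact ⟨by omega, het⟩
    · exfalso
      have e1 : T.tl e = T.tl (w (t + 1)) := by
        rw [← h.walk t, ← het]
        exact (T.hd_a e).symm
      have e2 : T.hd e = T.tl (w t) := by
        rw [← het]
        rfl
      have h4 : t + 1 < l := by
        rcases Nat.lt_or_ge (t + 1) l with h5 | h5
        · exact h5
        · exfalso
          have h6 : t + 1 = 0 + l := by omega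
          rw [h6, h.per 0] at e1
          rw [e1, hB 0 (by omega)] at he2
          omega
      rw [e1] at he3 he2 he1
      have h6 := h1 (t + 1) h4 he3
      rw [hB _ h6] at he2 he1
      rw [e2, hB t (by omega)] at he1
      omega
  have hdes : ∀ p, 2 * q - q / 2 ≤ p → p < 2 * q + q / 2 → 8 * (4 * q - p) / 9 = 8 * (4 * q - (p + 1)) / 9 + 1 →
      b (T.tl (w p)) = b (T.hd (w p)) + 1 := by
    intro p h2 h3 hj
    rw [h.walk p, hB p (by omega), hB (p + 1) (by omega)]
    omega
  have hC : ∀ p, 2 * q - q / 2 ≤ p → p < 2 * q + q / 2 → 8 * (4 * q - p) / 9 = 8 * (4 * q - (p + 1)) / 9 + 1 →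
      T.chain (st w 0 l) (w p) ≠ 0 := by
    intro p h2 h3 hjp
    have hp : p < l := by omega
    have h4 := hU p h2 h3 hjp (w p) (hdes p h2 h3 hjp) (hB p (by omega)) (hnear p (by omega) (by omega))
    have e1 : st w 0 l = st w 0 p ++ [w p] ++ st w (p + 1) (l - p - 1) := by
      have e2 : l = p + 1 + (l - p - 1) := by omega
      conv_lhs => rw [e2]
      rw [st_add, st_succ, zero_add, zero_add]
    have n1 : w p ∉ st w 0 p := by
      intro h5
      obtain ⟨j, hj, hj'⟩ := mem_st.1 h5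
      rw [zero_add] at hj'
      have := (h4 j (by omega) (Or.inl hj'.symm)).1
      omega
    have n2 : T.a (w p) ∉ st w 0 p := by
      intro h5
      obtain ⟨j, hj, hj'⟩ := mem_st.1 h5
      rw [zero_add] at hj'
      have := (h4 j (by omega) (Or.inr hj'.symm)).1
      omega
    have n3 : w p ∉ st w (p + 1) (l - p - 1) := by
      intro h5
      obtain ⟨j, hj, hj'⟩ := mem_st.1 h5
      have := (h4 (p + 1 + j) (by omega) (Or.inl hj'.symm)).1
      omega
    have n4 : T.a (w p) ∉ st w (p + 1) (l - p - 1) := by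
      intro h5
      obtain ⟨j, hj, hj'⟩ := mem_st.1 h5
      have := (h4 (p + 1 + j) (by omega) (Or.inr hj'.symm)).1
      omega
    rw [e1, T.chain_append, T.chain_append, T.chain_of_not_mem n1 n2, T.chain_of_not_mem n3 n4, T.chain_cons,
      T.chain_nil, Tri.ind_self, Tri.ind_ne (T.ane (w p)).symm]
    norm_num
  -- the count at one level
  have hL : ∀ p, 2 * q - q / 2 ≤ p → p < 2 * q + q / 2 → 8 * (4 * q - p) / 9 = 8 * (4 * q - (p + 1)) / 9 + 1 →
      q - q / 2 ≤
      {d | b (T.tl d) = 8 * (4 * q - p) / 9 ∧ Dle T q (T.tl (w (2 * q))) (T.tl d) ∧ k d ≠ 0}.ncard := by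
    intro p h2 h3 hjp
    have h4 := level_count T b hb (k := k)
      (c := fun d => T.chain (st w 0 l) d) hk hc (x := T.tl (w (2 * q))) (s := ab p (2 * q)) (r := q - ab p (2 * q)) (q := q)
      (by unfold ab; omega) (e0 := w p) (hdes p h2 h3 hjp) (by
        have h5 := h.dle_ab (2 * q) p
        have h6 : ab (2 * q) p = ab p (2 * q) := by unfold ab; omega
        rwa [h6] at h5) (hC p h2 h3 hjp) (by
        intro e he1 he2 he3 he4
        rw [hB p (by omega)] at he2
        have h5 : e ∈ st w 0 l ∨ T.a e ∈ st w 0 l := by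
          by_contra h6
          rw [not_or] at h6
          exact he4 (T.chain_of_not_mem h6.1 h6.2)
        rcases h5 with h5 | h5
        · obtain ⟨j, hj, hj'⟩ := mem_st.1 h5
          rw [zero_add] at hj'
          obtain ⟨h6, h7⟩ := hU p h2 h3 hjp e he1 he2 he3 j hj (Or.inl hj'.symm)
          rw [h7, h6]
        · obtain ⟨j, hj, hj'⟩ := mem_st.1 h5
          rw [zero_add] at hj'
          obtain ⟨h6, h7⟩ := hU p h2 h3 hjp e he1 he2 he3 j hj (Or.inr hj'.symm)
          rw [h7, h6])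
    rw [hB p (by omega)] at h4
    refine le_trans ?_ h4
    unfold ab
    omega
  -- sum over the levels
  set J : Finset ℕ := (Finset.Ico (2 * q - q / 2) (2 * q - q / 2 + (q / 2 + q / 2))).filter
    fun p => 8 * (4 * q - p) / 9 = 8 * (4 * q - (p + 1)) / 9 + 1 with hJ
  have hJc := jumps_card q (q / 2 + q / 2) (2 * q - q / 2) (by omega)
  rw [← hJ] at hJc
  have hJm : ∀ p ∈ J, (2 * q - q / 2 ≤ p ∧ p < 2 * q + q / 2) ∧ 8 * (4 * q - p) / 9 = 8 * (4 * q - (p + 1)) / 9 + 1 := by
    intro p hp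
    rw [hJ, Finset.mem_filter, Finset.mem_Ico] at hp
    exact ⟨⟨hp.1.1, by omega⟩, hp.2⟩
  set Z : Set D := {d | Dle T q (T.tl (w (2 * q))) (T.tl d) ∧ k d ≠ 0} with hZ
  have hZf : Z.Finite := Set.toFinite _
  rw [Set.ncard_eq_toFinset_card Z hZf]
  have h5 : ∀ p ∈ J, q - q / 2 ≤
      (hZf.toFinset.filter fun d => b (T.tl d) = 8 * (4 * q - p) / 9).card := by
    intro p hp
    obtain ⟨hp1, hp2⟩ := hJm p hp
    refine (hL p hp1.1 hp1.2 hp2).trans ?_
    rw [← Set.ncard_coe_finset]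
    refine Set.ncard_le_ncard ?_ (Set.toFinite _)
    rintro d ⟨h6, h7⟩
    rw [Finset.mem_coe, Finset.mem_filter, Set.Finite.mem_toFinset]
    exact ⟨h7, h6⟩
  have h6 : J.card * (q - q / 2) ≤ hZf.toFinset.card := by
    calc J.card * (q - q / 2) = ∑ p ∈ J, (q - q / 2) := by rw [Finset.sum_const, smul_eq_mul]
      _ ≤ ∑ p ∈ J, (hZf.toFinset.filter fun d => b (T.tl d) = 8 * (4 * q - p) / 9).card := Finset.sum_le_sum h5
      _ = (J.biUnion fun p => hZf.toFinset.filter fun d => b (T.tl d) = 8 * (4 * q - p) / 9).card := by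
        rw [Finset.card_biUnion]
        intro p hp p' hp' hne
        have hp := hJm p hp
        have hp' := hJm p' hp'
        refine Finset.disjoint_left.2 ?_
        intro d hd hd'
        rw [Finset.mem_filter] at hd hd'
        omega
      _ ≤ hZf.toFinset.card := by
        refine Finset.card_le_card fun d hd => ?_
        rw [Finset.mem_biUnion] at hd
        obtain ⟨p, -, hp⟩ := hd
        exact (Finset.mem_filter.1 hp).1
  have h7 : q ≤ 4 * J.card := by omega
  have h8 : q ≤ 2 * (q - q / 2) := by omega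
  calc q ^ 2 = q * q := sq q
    _ ≤ (4 * J.card) * (2 * (q - q / 2)) := Nat.mul_le_mul h7 h8
    _ = 8 * (J.card * (q - q / 2)) := by ring
    _ ≤ 8 * hZf.toFinset.card := Nat.mul_le_mul_left _ h6

end SYS.GS
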