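import Pool.Agent.SYS.GS.LowD

/-!
# SYS-GS-Low: at least `c log n` repeated vertices and configurations on the average
-/

namespace SYS.GS

open Classical SST GNH Filter Topology

private theorem low_markov {n g : ℕ} (L M : ℕ) :
    ((M : ℝ) + 1) * (({T : Tri (Fin (6 * n)) | T ∈ Trn n g ∧ M < (BadD T L).ncard}.ncard : ℕ) : ℝ) ≤
      (({z : Tri (Fin (6 * n)) × Fin (6 * n) | z.1 ∈ Trn n g ∧ ∃ c : List (Fin (6 * n)),
        z.1.IsWalk (z.1.tl z.2) c (z.1.tl z.2) ∧ c.length ≤ L ∧ ¬ z.1.NullHtp c}.ncard : ℕ) : ℝ) := by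
  obtain ⟨s, hs⟩ : ∃ s : Finset (Tri (Fin (6 * n))), s = (Set.toFinite
    {T : Tri (Fin (6 * n)) | T ∈ Trn n g ∧ M < (BadD T L).ncard}).toFinset := ⟨_, rfl⟩
  have hms : ∀ T, T ∈ s ↔ T ∈ Trn n g ∧ M < (BadD T L).ncard := by
    intro T
    rw [hs, Set.Finite.mem_toFinset]
    rfl
  have h1 : s.card * (M + 1) ≤ (s.sigma fun T => (Set.toFinite (BadD T L)).toFinset).card := by
    rw [Finset.card_sigma, ← smul_eq_mul]
    refine Finset.card_nsmul_le_sum _ _ _ fun T hT => ?_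
    rw [← Set.ncard_eq_toFinset_card _ (Set.toFinite _)]
    exact ((hms T).1 hT).2
  have h2 : (s.sigma fun T => (Set.toFinite (BadD T L)).toFinset).card ≤
      {z : Tri (Fin (6 * n)) × Fin (6 * n) | z.1 ∈ Trn n g ∧ ∃ c : List (Fin (6 * n)),
        z.1.IsWalk (z.1.tl z.2) c (z.1.tl z.2) ∧ c.length ≤ L ∧ ¬ z.1.NullHtp c}.ncard := by
    rw [Set.ncard_eq_toFinset_card _ (Set.toFinite _)]
    refine Finset.card_le_card_of_injOn (fun y => (y.1, y.2)) ?_ ?_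
    · rintro ⟨T, t⟩ hy
      rw [Finset.mem_coe, Finset.mem_sigma] at hy
      obtain ⟨h3, h4⟩ := hy
      rw [Set.Finite.mem_toFinset] at h4
      rw [Finset.mem_coe, Set.Finite.mem_toFinset]
      exact ⟨((hms T).1 h3).1, h4⟩
    · rintro ⟨T, t⟩ _ ⟨T', t'⟩ _ h
      simp only [Prod.mk.injEq] at h
      obtain ⟨rfl, rfl⟩ := h
      rfl
  have h3 : s.card = {T : Tri (Fin (6 * n)) | T ∈ Trn n g ∧ M < (BadD T L).ncard}.ncard := by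
    rw [hs, Set.ncard_eq_toFinset_card _ (Set.toFinite _)]
  rw [h3] at h1
  have h4 := h1.trans h2
  have h5 : ((({T : Tri (Fin (6 * n)) | T ∈ Trn n g ∧ M < (BadD T L).ncard}.ncard * (M + 1) : ℕ)) : ℝ) ≤
      (({z : Tri (Fin (6 * n)) × Fin (6 * n) | z.1 ∈ Trn n g ∧ ∃ c : List (Fin (6 * n)),
        z.1.IsWalk (z.1.tl z.2) c (z.1.tl z.2) ∧ c.length ≤ L ∧ ¬ z.1.NullHtp c}.ncard : ℕ) : ℝ) := by
    exact_mod_cast h4
  push_cast at h5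
  linarith

private theorem sum_pairs {α β : Type} [Finite α] [Finite β] (S : Set α) (P : α → β → Prop) :
    ∑ T ∈ (Set.toFinite S).toFinset, (({z | P T z}.ncard : ℕ) : ℝ) ≤
      (({p : α × β | p.1 ∈ S ∧ P p.1 p.2}.ncard : ℕ) : ℝ) := by
  have h1 : ∑ T ∈ (Set.toFinite S).toFinset, {z | P T z}.ncard =
      ((Set.toFinite S).toFinset.sigma fun T => (Set.toFinite {z | P T z}).toFinset).card := by
    rw [Finset.card_sigma]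
    exact Finset.sum_congr rfl fun T _ => Set.ncard_eq_toFinset_card _ (Set.toFinite _)
  have h2 : ((Set.toFinite S).toFinset.sigma fun T => (Set.toFinite {z | P T z}).toFinset).card ≤
      {p : α × β | p.1 ∈ S ∧ P p.1 p.2}.ncard := by
    rw [Set.ncard_eq_toFinset_card _ (Set.toFinite {p : α × β | p.1 ∈ S ∧ P p.1 p.2})]
    refine Finset.card_le_card_of_injOn (fun y => (y.1, y.2)) ?_ ?_
    · rintro ⟨T, t⟩ hy
      rw [Finset.mem_coe, Finset.mem_sigma] at hy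
      obtain ⟨h3, h4⟩ := hy
      rw [Set.Finite.mem_toFinset] at h3 h4
      rw [Finset.mem_coe, Set.Finite.mem_toFinset]
      exact ⟨h3, h4⟩
    · rintro ⟨T, t⟩ _ ⟨T', t'⟩ _ h
      simp only [Prod.mk.injEq] at h
      obtain ⟨rfl, rfl⟩ := h
      rfl
  have h3 := h1.le.trans h2
  exact_mod_cast h3

private theorem low_tri {n g : ℕ} {T : Tri (Fin (6 * n))} (hT : T ∈ Trn n g) {C2 t m M1 X : ℕ} (ht : 4 ≤ t) (hC : 1 ≤ C2)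
    (hm : m = 120 * C2 * t) {A0 C1 κ ℓ : ℝ} (hA0 : 0 ≤ A0) (hℓ : 0 ≤ ℓ) (hκ : 0 < κ)
    (hs : T.HasSep (A0 * ℓ)) (hA : AreaOK T (2 * A0 * ℓ) (C1 * ℓ)) (hb : (BadD T (16 * m)).ncard ≤ M1)
    (hl : ¬ LowCfg T m (2 * A0 * ℓ) (κ * ℓ / m)) (hX : 9 * (A0 * ℓ) ≤ X) (hC2 : 16 * A0 / κ ≤ C2)
    (hC1 : 32 * C1 * (120 * C2) ≤ κ * t) (hM1 : (M1 : ℝ) ≤ κ / (4 * m) * ℓ) :
    κ / (4 * m) * ℓ ≤ Nr T X +
      ∑ k ∈ Finset.range (2 * m), (({z : Fin (2 * (k + 1)) → Fin (6 * n) | Conf T (k + 1) z X}.ncard : ℕ) : ℝ) := by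
  have h1 := low_det hT ht hC hm hs hA hb hl (by nlinarith [mul_nonneg hA0 hℓ]) hX
  rw [Finset.sum_range_succ'] at h1
  have h0 : {z : Fin (2 * 0) → Fin (6 * n) | Conf T 0 z X} = ∅ := by
    rw [Set.eq_empty_iff_forall_notMem]
    rintro z ⟨hz, _⟩
    exact absurd hz.pos (lt_irrefl 0)
  rw [h0, Set.ncard_empty, Nat.cast_zero, add_zero] at h1
  have ht0 : (0 : ℝ) < t := by exact_mod_cast (by omega : 0 < t)
  have hc0 : (0 : ℝ) < C2 := by exact_mod_cast (by omega : 0 < C2)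
  have hmr : (m : ℝ) = 120 * C2 * t := by
    rw [hm]
    push_cast
    ring
  have hm0 : (0 : ℝ) < m := by
    rw [hmr]
    positivity
  have h2 : 2 * A0 * ℓ / (C2 * m) ≤ κ / (8 * m) * ℓ := by
    rw [div_le_iff₀ hκ] at hC2
    have e : 2 * A0 * ℓ / (C2 * m) = (2 * A0 / C2) * (ℓ / m) := by
      field_simp
    have e' : κ / (8 * m) * ℓ = κ / 8 * (ℓ / m) := by
      field_simp
    rw [e, e']
    refine mul_le_mul_of_nonneg_right ?_ (by positivity)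
    rw [div_le_iff₀ hc0]
    linarith
  have h3 : 8 * (C1 * ℓ) / (t : ℝ) ^ 2 ≤ κ / (4 * m) * ℓ := by
    have e : 8 * (C1 * ℓ) / (t : ℝ) ^ 2 = 8 * C1 / t ^ 2 * ℓ := by ring
    rw [e]
    refine mul_le_mul_of_nonneg_right ?_ hℓ
    rw [hmr, div_le_div_iff₀ (by positivity) (by positivity)]
    nlinarith
  have h4 : κ * ℓ / m = 4 * (κ / (4 * m) * ℓ) := by
    field_simp
  have h5 : κ / (8 * m) * ℓ = 1 / 2 * (κ / (4 * m) * ℓ) := by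
    field_simp
    ring
  have h6 : 0 ≤ κ / (4 * m) * ℓ := by positivity
  rw [h4] at h1
  rw [h5] at h2
  linarith

theorem low {θ x : ℝ} (h : Num.Par θ x) (hG : LowG θ x) : ∃ (c0 C : ℝ) (k0 : ℕ), 0 < c0 ∧ 0 < C ∧ ∀ᶠ q in RB.Fth θ,
    c0 * Real.log q.1 * (Trn q.1 q.2).ncard ≤ NS q.1 q.2 ⌊C * Real.log q.1⌋₊ +
      ∑ k ∈ Finset.range k0, (({p : Tri (Fin (6 * q.1)) × (Fin (2 * (k + 1)) → Fin (6 * q.1)) | p.1 ∈ Trn q.1 q.2 ∧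
        Conf p.1 (k + 1) p.2 ⌊C * Real.log q.1⌋₊}.ncard : ℕ) : ℝ) := by
  have hx : 0 < x := h.2.2.1
  have hFF : Num.Fth θ = RB.Fth θ := rfl
  obtain ⟨A0, hA0⟩ : ∃ A0 : ℝ, A0 = 1 / x + 1 / x := ⟨_, rfl⟩
  have hA0p : 0 < A0 := by
    rw [hA0]
    positivity
  obtain ⟨κ, hκ⟩ : ∃ κ : ℝ, κ = 1 / (8 * x) := ⟨_, rfl⟩
  have hκp : 0 < κ := by
    rw [hκ]
    positivity
  obtain ⟨C1, hC1, hA⟩ := area_prob h (2 * A0) (by positivity)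
  obtain ⟨m1, hm1⟩ := hG (1 / (2 * x)) (by positivity)
  obtain ⟨C2, hC2, hC2'⟩ : ∃ C2 : ℕ, 1 ≤ C2 ∧ 16 * A0 / κ ≤ C2 := by
    refine ⟨⌈16 * A0 / κ⌉₊, Nat.one_le_iff_ne_zero.2 ?_, Nat.le_ceil _⟩
    exact (Nat.ceil_pos.2 (by positivity)).ne'
  obtain ⟨t, ht4, htm, htC⟩ : ∃ t : ℕ, 4 ≤ t ∧ m1 ≤ t ∧ 32 * C1 * (120 * C2) ≤ κ * t := by
    have e1 : ∀ᶠ t : ℕ in atTop, 32 * C1 * (120 * C2) ≤ κ * t :=
      (tendsto_natCast_atTop_atTop.const_mul_atTop hκp).eventually_ge_atTop _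
    obtain ⟨t, ht⟩ := ((eventually_ge_atTop 4).and ((eventually_ge_atTop m1).and e1)).exists
    exact ⟨t, ht.1, ht.2.1, ht.2.2⟩
  obtain ⟨m, hm⟩ : ∃ m : ℕ, m = 120 * C2 * t := ⟨_, rfl⟩
  have hmt : t ≤ m := by
    rw [hm]
    exact Nat.le_mul_of_pos_left t (by omega)
  have hmm1 : m1 ≤ m := htm.trans hmt
  have hmp : (0 : ℝ) < m := by exact_mod_cast (by omega : 0 < m)
  obtain ⟨Cb, hCb, hB⟩ := badv h lrNul (16 * m)
  have hG' := hm1 m hmm1 (2 * A0) (by positivity) (1 / 8) (by norm_num)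
  have hU : ∀ᶠ q in RB.Fth θ, (7 / 8 : ℝ) < PS (1 / x + 1 / x) q :=
    (UP.up_ps h (1 / x) (by positivity)).eventually_const_lt (by norm_num)
  refine ⟨κ / (8 * m), 9 * A0 + 1, 2 * m, by positivity, by positivity, ?_⟩
  have hlog : Tendsto (fun q : ℕ × ℕ => Real.log q.1) (RB.Fth θ) atTop := Real.tendsto_log_atTop.comp (RB.fst_atTop θ)
  have e1 : ∀ᶠ q in RB.Fth θ, 8 * Cb ≤ κ / (4 * m) * Real.log ((q : ℕ × ℕ).1 : ℝ) :=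
    (hlog.const_mul_atTop (by positivity)).eventually_ge_atTop _
  have e2 : ∀ᶠ q in RB.Fth θ, 1 ≤ Real.log ((q : ℕ × ℕ).1 : ℝ) := hlog.eventually_ge_atTop _
  filter_upwards [hA, hB, hG', hU, e1, e2, RB.ge_ev θ 8] with q qA qB qG qU q1 q2 q3
  obtain ⟨N, hN⟩ : ∃ N : ℝ, N = ((Trn q.1 q.2).ncard : ℝ) := ⟨_, rfl⟩
  have hN0 : 0 ≤ N := by
    rw [hN]
    positivity
  obtain ⟨ℓ, hℓ⟩ : ∃ ℓ : ℝ, ℓ = Real.log q.1 := ⟨_, rfl⟩
  rw [← hℓ] at qA qG q1 q2 ⊢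
  have hℓ0 : 0 ≤ ℓ := zero_le_one.trans q2
  obtain ⟨M1, hM1⟩ : ∃ M1 : ℕ, M1 = ⌊κ / (4 * m) * ℓ⌋₊ := ⟨_, rfl⟩
  have hM1l : (M1 : ℝ) ≤ κ / (4 * m) * ℓ := by
    rw [hM1]
    exact Nat.floor_le (by positivity)
  have hM1u : κ / (4 * m) * ℓ < M1 + 1 := by
    rw [hM1]
    exact Nat.lt_floor_add_one _
  obtain ⟨X, hX⟩ : ∃ X : ℕ, X = ⌊(9 * A0 + 1) * ℓ⌋₊ := ⟨_, rfl⟩
  have hX9 : 9 * (A0 * ℓ) ≤ X := by
    have h1 : (9 * A0 + 1) * ℓ < X + 1 := by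
      rw [hX]
      exact Nat.lt_floor_add_one _
    linarith
  rw [← hX]
  have hK : (1 / x - 1 / (2 * x)) * ℓ / (4 * m) = κ * ℓ / m := by
    rw [hκ]
    field_simp
    ring
  rw [hK] at qG
  -- the good triangulations
  obtain ⟨S, hS⟩ : ∃ S : Finset (Tri (Fin (6 * q.1))), S = (Set.toFinite (Trn q.1 q.2)).toFinset := ⟨_, rfl⟩
  have hSm : ∀ T, T ∈ S ↔ T ∈ Trn q.1 q.2 := by
    intro T
    rw [hS, Set.Finite.mem_toFinset]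
  obtain ⟨Gd, hGd⟩ : ∃ Gd : Finset (Tri (Fin (6 * q.1))), Gd = S.filter fun T => T.HasSep (A0 * ℓ) ∧
      AreaOK T (2 * A0 * ℓ) (C1 * ℓ) ∧ (BadD T (16 * m)).ncard ≤ M1 ∧ ¬ LowCfg T m (2 * A0 * ℓ) (κ * ℓ / m) := ⟨_, rfl⟩
  have hsub : {T : Tri (Fin (6 * q.1)) | T ∈ Trn q.1 q.2 ∧ T.HasSep (A0 * ℓ)} ⊆
      (Gd : Set (Tri (Fin (6 * q.1)))) ∪
      ({T : Tri (Fin (6 * q.1)) | T ∈ Trn q.1 q.2 ∧ ¬ AreaOK T (2 * A0 * ℓ) (C1 * ℓ)} ∪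
        ({T : Tri (Fin (6 * q.1)) | T ∈ Trn q.1 q.2 ∧ M1 < (BadD T (16 * m)).ncard} ∪
        {T : Tri (Fin (6 * q.1)) | T ∈ Trn q.1 q.2 ∧ LowCfg T m (2 * A0 * ℓ) (κ * ℓ / m)})) := by
    rintro T ⟨hT, hs⟩
    by_cases hA' : AreaOK T (2 * A0 * ℓ) (C1 * ℓ)
    · rcases Nat.lt_or_ge M1 (BadD T (16 * m)).ncard with hb | hb
      · exact Or.inr (Or.inr (Or.inl ⟨hT, hb⟩))
      · by_cases hl : LowCfg T m (2 * A0 * ℓ) (κ * ℓ / m)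
        · exact Or.inr (Or.inr (Or.inr ⟨hT, hl⟩))
        · left
          rw [hGd, Finset.mem_coe, Finset.mem_filter]
          exact ⟨(hSm T).2 hT, hs, hA', hb, hl⟩
    · exact Or.inr (Or.inl ⟨hT, hA'⟩)
  have h1 := (Set.ncard_le_ncard hsub (Set.toFinite _)).trans ((Set.ncard_union_le _ _).trans
    (Nat.add_le_add_left ((Set.ncard_union_le _ _).trans (Nat.add_le_add_left (Set.ncard_union_le _ _) _)) _))
  rw [Set.ncard_coe_finset] at h1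
  have h2 : (({T : Tri (Fin (6 * q.1)) | T ∈ Trn q.1 q.2 ∧ T.HasSep (A0 * ℓ)}.ncard : ℕ) : ℝ) ≤
      (Gd.card : ℝ) +
      ((({T : Tri (Fin (6 * q.1)) | T ∈ Trn q.1 q.2 ∧ ¬ AreaOK T (2 * A0 * ℓ) (C1 * ℓ)}.ncard : ℕ) : ℝ) +
      ((({T : Tri (Fin (6 * q.1)) | T ∈ Trn q.1 q.2 ∧ M1 < (BadD T (16 * m)).ncard}.ncard : ℕ) : ℝ) +
      (({T : Tri (Fin (6 * q.1)) | T ∈ Trn q.1 q.2 ∧
          LowCfg T m (2 * A0 * ℓ) (κ * ℓ / m)}.ncard : ℕ) : ℝ))) := by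
    exact_mod_cast h1
  unfold PS at qU
  rw [UP.frac_sep (by omega), ← hA0, ← hℓ] at qU
  rw [← hN] at qA qB qG qU ⊢
  have h3 : (({T : Tri (Fin (6 * q.1)) | T ∈ Trn q.1 q.2 ∧
      ¬ AreaOK T (2 * A0 * ℓ) (C1 * ℓ)}.ncard : ℕ) : ℝ) ≤ 1 / 8 * N := by
    have h4 : 8 * (({T : Tri (Fin (6 * q.1)) | T ∈ Trn q.1 q.2 ∧
      ¬ AreaOK T (2 * A0 * ℓ) (C1 * ℓ)}.ncard : ℕ) : ℝ) ≤ N :=
      (mul_le_mul_of_nonneg_right (by exact_mod_cast q3) (Nat.cast_nonneg _)).trans qA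
    linarith
  have h4 : (({T : Tri (Fin (6 * q.1)) | T ∈ Trn q.1 q.2 ∧ M1 < (BadD T (16 * m)).ncard}.ncard : ℕ) : ℝ) ≤ 1 / 8 * N := by
    have h5 := (low_markov (n := q.1) (g := q.2) (16 * m) M1).trans qB
    have h6 : 8 * Cb * (({T : Tri (Fin (6 * q.1)) | T ∈ Trn q.1 q.2 ∧ M1 < (BadD T (16 * m)).ncard}.ncard : ℕ) : ℝ) ≤ Cb * N :=
      (mul_le_mul_of_nonneg_right (q1.trans hM1u.le) (Nat.cast_nonneg _)).trans h5
    have h7 : Cb * (8 * (({T : Tri (Fin (6 * q.1)) | T ∈ Trn q.1 q.2 ∧ M1 < (BadD T (16 * m)).ncard}.ncard : ℕ) : ℝ)) ≤ Cb * N := by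
      linarith
    have h8 := le_of_mul_le_mul_left h7 hCb
    linarith
  have h5 : 7 / 8 * N ≤ (({T : Tri (Fin (6 * q.1)) | T ∈ Trn q.1 q.2 ∧ T.HasSep (A0 * ℓ)}.ncard : ℕ) : ℝ) := by
    rcases hN0.eq_or_lt with h0 | h0
    · rw [← h0, mul_zero]
      exact Nat.cast_nonneg _
    · exact ((lt_div_iff₀ h0).1 qU).le
  have h6 : 1 / 2 * N ≤ (Gd.card : ℝ) := by linarith
  have h7 : ∀ T ∈ Gd, κ / (4 * m) * ℓ ≤ (Nr T X : ℝ) + ∑ k ∈ Finset.range (2 * m),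
      (({z : Fin (2 * (k + 1)) → Fin (6 * q.1) | Conf T (k + 1) z X}.ncard : ℕ) : ℝ) := by
    intro T hT
    rw [hGd, Finset.mem_filter] at hT
    obtain ⟨hT1, hs, hA', hb, hl⟩ := hT
    exact low_tri ((hSm T).1 hT1) ht4 hC2 hm hA0p.le hℓ0 hκp hs hA' hb hl hX9 hC2' htC hM1l
  have hGS : Gd ⊆ S := by
    rw [hGd]
    exact Finset.filter_subset _ _
  have h8 : (Gd.card : ℝ) * (κ / (4 * m) * ℓ) ≤ ∑ T ∈ S, ((Nr T X : ℝ) + ∑ k ∈ Finset.range (2 * m),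
      (({z : Fin (2 * (k + 1)) → Fin (6 * q.1) | Conf T (k + 1) z X}.ncard : ℕ) : ℝ)) := by
    rw [← nsmul_eq_mul]
    refine (Finset.card_nsmul_le_sum Gd _ _ h7).trans (Finset.sum_le_sum_of_subset_of_nonneg hGS fun T _ _ => ?_)
    positivity
  rw [Finset.sum_add_distrib, Finset.sum_comm] at h8
  have h9 : ∑ T ∈ S, (Nr T X : ℝ) = NS q.1 q.2 X := by
    rw [hS]
    rfl
  have h10 : ∀ k ∈ Finset.range (2 * m), ∑ T ∈ S,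
      (({z : Fin (2 * (k + 1)) → Fin (6 * q.1) | Conf T (k + 1) z X}.ncard : ℕ) : ℝ) ≤
      (({p : Tri (Fin (6 * q.1)) × (Fin (2 * (k + 1)) → Fin (6 * q.1)) | p.1 ∈ Trn q.1 q.2 ∧
        Conf p.1 (k + 1) p.2 X}.ncard : ℕ) : ℝ) := by
    intro k _
    rw [hS]
    exact sum_pairs (Trn q.1 q.2) fun T z => Conf T (k + 1) z X
  have h11 := Finset.sum_le_sum h10
  rw [h9] at h8
  have h12 : κ / (8 * m) * ℓ * N ≤ (Gd.card : ℝ) * (κ / (4 * m) * ℓ) := by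
    have e : κ / (8 * m) * ℓ * N = 1 / 2 * N * (κ / (4 * m) * ℓ) := by
      field_simp
      ring
    rw [e]
    exact mul_le_mul_of_nonneg_right h6 (by positivity)
  linarith

end SYS.GS
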