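import Pool.Agent.SYS.LA.T1L
import Pool.Agent.SYS.GS.Glob
import Pool.Agent.SYS.GS.Trf

/-!
# SYS-GS-LowD: one good triangulation

PROOF. `HasSep L1`: an essential closed walk `W0` with `|W0| ≤ L1` (see `lowCfg_of` in LA/T1L for the form of `HasSep`). `exists_mzr`, `W = mzf T` (`mzf_spec`): `8 |W| ≤ En T W ≤ En T W0 ≤ 9 |W0| ≤ 9 L1` (`len_le_en`, `en_le`), so `|W| ≤ 9 / 8 L1 ≤ L2` and `En T W ≤ X` (`Nat` cast); so `Nr T X = #{v | 2 ≤ cnt T W v}`.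
`AreaOK`: `k2`. `glob`: `C` with the properties of `LowCfg`, so not `C.card ≤ K`: `K < C.card`. The sum over `k`: `Conf T k z (En T W) → Conf T k z X` (monotone: `.trans`), `Set.ncard_le_ncard` (finite types). `W.length / (C2 m) ≤ L2 / (C2 m)`, `8 #{k2 ≠ 0} / t ^ 2 ≤ 8 A / t ^ 2`, and `{v | ¬ FB T v (16 m)}` is contained in the image of `BadD T (16 m)` under `T.tl`
(`Quotient.exists_rep`; as in `lowCfg_of`).
-/

namespace SYS.GS

open Classical SST GNH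

theorem low_det {n g : ℕ} {T : Tri (Fin (6 * n))} (hT : T ∈ Trn n g) {C2 t m M1 X : ℕ} (ht : 4 ≤ t) (hC : 1 ≤ C2)
    (hm : m = 120 * C2 * t) {L1 L2 A K : ℝ} (hs : T.HasSep L1) (hA : AreaOK T L2 A) (hb : (BadD T (16 * m)).ncard ≤ M1)
    (hl : ¬ LowCfg T m L2 K) (h12 : 9 * L1 ≤ 8 * L2) (hX : 9 * L1 ≤ X) :
    K ≤ Nr T X + ∑ k ∈ Finset.range (2 * m + 1), ({z : Fin (2 * k) → Fin (6 * n) | Conf T k z X}.ncard : ℝ) +
      L2 / (C2 * m) + 8 * A / t ^ 2 + M1 := by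
  obtain ⟨W0, -, h1, h2, h3, h4⟩ := hs
  have hE : Ess T W0 := ⟨h1, h2, h3⟩
  have hex : ∃ c, Mzr T c := exists_mzr hE
  have hM := mzf_spec hex
  obtain ⟨W, hW⟩ : ∃ W, W = mzf T := ⟨_, rfl⟩
  have hNr : En T (mzf T) ≤ X → Nr T X = {v | 2 ≤ cnt T (mzf T) v}.ncard := by
    intro h
    unfold Nr
    rw [if_pos ⟨hex, h⟩]
  rw [← hW] at hM hNr
  have h5 : (8 : ℝ) * W.length ≤ En T W := by exact_mod_cast len_le_en T W
  have h6 : (En T W : ℝ) ≤ En T W0 := by exact_mod_cast hM.2 W0 hE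
  have h7 : (En T W0 : ℝ) ≤ 9 * W0.length := by exact_mod_cast en_le T W0
  have h8 : (W.length : ℝ) ≤ L2 := by linarith
  have h9 : En T W ≤ X := by
    have : (En T W : ℝ) ≤ X := by linarith
    exact_mod_cast this
  obtain ⟨k2, k1, k3, k4⟩ := hA W hM.1.1 hM.1.2.1 h8
  obtain ⟨C, c1, c2, c3, c4, c5, c6⟩ := glob hT.1 hM k1 k3 ht hC hm
  have hK : K < C.card := by
    by_contra h
    exact hl ⟨W, C, hM.1.1, hM.1.2.1, hM.1.2.2, h8, c1, c2, c3, c4, c5, not_lt.1 h⟩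
  refine hK.le.trans (c6.trans ?_)
  have hFB : ({v : T.V | ¬ FB T v (16 * m)}.ncard : ℝ) ≤ M1 := by
    have h10 : {v : T.V | ¬ FB T v (16 * m)} ⊆ T.tl '' BadD T (16 * m) := by
      intro v hv
      obtain ⟨t, rfl⟩ := Quotient.exists_rep v
      by_contra h
      refine hv fun c e1 e2 => ?_
      by_contra e3
      exact h ⟨t, ⟨c, e1, e2, e3⟩, rfl⟩
    have h11 := ((Set.ncard_le_ncard h10 (Set.toFinite _)).trans (Set.ncard_image_le (Set.toFinite _))).trans hb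
    exact_mod_cast h11
  have hS : ∑ k ∈ Finset.range (2 * m + 1), ({z : Fin (2 * k) → Fin (6 * n) | Conf T k z (En T W)}.ncard : ℝ) ≤
      ∑ k ∈ Finset.range (2 * m + 1), ({z : Fin (2 * k) → Fin (6 * n) | Conf T k z X}.ncard : ℝ) := by
    refine Finset.sum_le_sum fun k _ => ?_
    have h10 : {z : Fin (2 * k) → Fin (6 * n) | Conf T k z (En T W)} ⊆ {z : Fin (2 * k) → Fin (6 * n) | Conf T k z X} := by
      rintro z ⟨e1, e2, e3⟩
      exact ⟨e1, e2, fun c' hc' => ⟨(e3 c' hc').1, (e3 c' hc').2.trans h9⟩⟩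
    exact_mod_cast Set.ncard_le_ncard h10 (Set.toFinite _)
  have hLm : (W.length : ℝ) / (C2 * m) ≤ L2 / (C2 * m) := by gcongr
  have hAt : 8 * ({d | k2 d ≠ 0}.ncard : ℝ) / t ^ 2 ≤ 8 * A / t ^ 2 := by gcongr
  rw [hNr h9]
  linarith

end SYS.GS
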