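import Pool.Agent.SYS.GS.EnB

/-!
# SYS-GS-Per: minimizers as periodic walks, quasi-geodesic inequality
-/

namespace SYS.GS

open Classical SST GNH

variable {D : Type} {T : Tri D} {w : ℕ → D} {l : ℕ}

private theorem mn_walk (T : Tri D) (W : List D) : ∀ u v : T.V, T.IsWalk u W v →
    (∀ (i : ℕ) (h : i + 1 < W.length), T.hd W[i] = T.tl W[i + 1]) ∧
      ∀ h : 0 < W.length, T.tl W[0] = u ∧ T.hd (W[W.length - 1]'(by omega)) = v := by
  induction W with
  | nil =>
    intro u v _
    exact ⟨fun i h => absurd h (by simp), fun h => absurd h (by simp)⟩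
  | cons d c ih =>
    intro u v h
    obtain ⟨h1, h2⟩ := ih _ _ h.2
    refine ⟨fun i hi => ?_, fun _ => ⟨h.1, ?_⟩⟩
    · cases i with
      | zero =>
        have h3 : 0 < c.length := by
          simp only [List.length_cons] at hi
          omega
        exact (h2 h3).1.symm
      | succ i =>
        have h3 : i + 1 < c.length := by
          simp only [List.length_cons] at hi
          omega
        exact h1 i h3
    · cases c with
      | nil =>
        exact h.2
      | cons e c =>
        exact (h2 (by simp)).2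

private theorem pw_aux {W : List D} (hc : T.Closed W) (hne : W ≠ []) : ∃ w : ℕ → D, PW T w W.length ∧ st w 0 W.length = W := by
  have hpos : 0 < W.length := List.length_pos_iff.2 hne
  obtain ⟨v, hv⟩ := hc
  obtain ⟨hs, he⟩ := mn_walk T W v v hv
  obtain ⟨he1, he2⟩ := he hpos
  obtain ⟨w, hw⟩ : ∃ w : ℕ → D, ∀ i, w i = W[i % W.length]'(Nat.mod_lt _ hpos) := ⟨_, fun _ => rfl⟩
  have hwi : ∀ (i : ℕ) (hi : i < W.length), w i = W[i] := by
    intro i hi
    rw [hw]
    congr 1
    exact Nat.mod_eq_of_lt hi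
  have hst : st w 0 W.length = W := by
    unfold st
    refine List.ext_getElem (by rw [List.length_map, List.length_range]) fun i h2 h3 => ?_
    rw [List.getElem_map, List.getElem_range, zero_add]
    exact hwi i h3
  have hper : ∀ i, w (i + W.length) = w i := by
    intro i
    rw [hw, hw]
    congr 1
    exact Nat.add_mod_right _ _
  have hwalk : ∀ i, T.hd (w i) = T.tl (w (i + 1)) := by
    intro i
    have h2 : i % W.length < W.length := Nat.mod_lt _ hpos
    rw [hw i, hw (i + 1)]
    rcases Nat.lt_or_ge (i % W.length + 1) W.length with h3 | h3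
    · rw [hs _ h3]
      congr 2
      rw [Nat.add_mod, Nat.mod_eq_of_lt (show 1 < W.length by omega), Nat.mod_eq_of_lt h3]
    · have h4 : (i + 1) % W.length = 0 := by
        have h5 : i + 1 = W.length * (i / W.length + 1) := by
          have h6 := Nat.div_add_mod i W.length
          rw [mul_add, mul_one]
          omega
        rw [h5, Nat.mul_mod_right]
      have e1 : W[(i + 1) % W.length]'(Nat.mod_lt _ hpos) = W[0] := by
        congr 1
      have e2 : W[i % W.length] = W[W.length - 1]'(by omega) := by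
        congr 1
        omega
      rw [e1, e2, he1, he2]
  exact ⟨w, ⟨hpos, hper, hwalk⟩, hst⟩

theorem exists_pw {c : List D} (hc : T.Closed c) (hne : c ≠ []) : ∃ w : ℕ → D, PW T w c.length ∧ st w 0 c.length = c :=
  pw_aux hc hne

theorem exists_mzw {c : List D} (h : Mzr T c) : ∃ w : ℕ → D, Mzw T w c.length ∧ st w 0 c.length = c := by
  obtain ⟨w, h1, h2⟩ := exists_pw h.1.1 (ess_ne h.1)
  exact ⟨w, ⟨h1, by rw [h2]; exact h⟩, h2⟩

private theorem w_mod (h : PW T w l) (i : ℕ) : w (i % l) = w i := by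
  have h1 := h.add_mul (i % l) (i / l)
  have h2 : i % l + i / l * l = i := by
    rw [mul_comm]
    exact Nat.mod_add_div i l
  rw [h2] at h1
  exact h1.symm

private theorem rot (h : PW T w l) (i : ℕ) : ∃ a b, st w 0 l = a ++ b ∧ st w i l = b ++ a := by
  have hr : i % l < l := Nat.mod_lt _ h.pos
  have h1 : st w i l = st w (i % l) l := by
    unfold st
    refine List.map_congr_left fun j _ => ?_
    have h2 := w_mod h (i + j)
    have h3 := w_mod h (i % l + j)
    rw [Nat.mod_add_mod] at h3
    exact h2.symm.trans h3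
  refine ⟨st w 0 (i % l), st w (i % l) (l - i % l), ?_, ?_⟩
  · have h2 := st_add w 0 (i % l) (l - i % l)
    rw [Nat.zero_add, Nat.add_sub_cancel' hr.le] at h2
    exact h2
  · have h2 := st_add w (i % l) (l - i % l) (i % l)
    have h3 := h.st_period 0 (i % l)
    rw [Nat.zero_add] at h3
    rw [Nat.sub_add_cancel hr.le, Nat.add_sub_cancel' hr.le, h3] at h2
    rw [h1]
    exact h2

theorem Mzw.mz_at (hT : T.Conn) (h : Mzw T w l) (i : ℕ) : Mzr T (st w i l) := by
  obtain ⟨a, b, h1, h2⟩ := rot h.toPW i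
  have h3 := h.mz
  rw [h1] at h3
  rw [h2]
  exact mzr_rot hT h3

theorem Mzw.shift (hT : T.Conn) (h : Mzw T w l) (a : ℕ) : Mzw T (fun i => w (i + a)) l := by
  refine ⟨h.toPW.shift a, ?_⟩
  rw [st_shift]
  exact h.mz_at hT _

theorem Mzw.en_at (h : Mzw T w l) (i : ℕ) : En T (st w i l) = En T (st w 0 l) := by
  obtain ⟨a, b, h1, h2⟩ := rot h.toPW i
  rw [h1, h2]
  exact en_rot T a b

theorem PW.cnt_at (h : PW T w l) (i : ℕ) (v : T.V) : cnt T (st w i l) v = cnt T (st w 0 l) v := by
  obtain ⟨a, b, h1, h2⟩ := rot h i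
  rw [h1, h2]
  exact cnt_rot T a b v

private theorem cntS_zero (T : Tri D) (w : ℕ → D) (A : Set T.V) (k : ℕ) :
    cntS T (st w 0 k) A = {j | j < k ∧ T.tl (w j) ∈ A}.ncard := by
  have hset : {j | j < k ∧ T.tl (w j) ∈ A} =
      (((Finset.range k).filter fun j => T.tl (w j) ∈ A : Finset ℕ) : Set ℕ) := by
    ext j
    rw [Finset.mem_coe, Finset.mem_filter, Finset.mem_range]
    exact Iff.rfl
  rw [hset, Set.ncard_coe_finset]
  clear hset
  induction k with
  | zero =>
    rw [st_zero]
    rfl
  | succ k ih =>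
    have h1 : cntS T (st w 0 (k + 1)) A = cntS T (st w 0 k) A + cntS T [w k] A := by
      rw [st_succ, Nat.zero_add]
      unfold cntS
      rw [List.countP_append]
    rw [h1, ih, Finset.range_add_one, Finset.filter_insert]
    by_cases hk : T.tl (w k) ∈ A
    · rw [if_pos hk, Finset.card_insert_of_notMem (fun h => by
        have h2 := (Finset.mem_filter.1 h).1
        exact absurd (Finset.mem_range.1 h2) (lt_irrefl k))]
      have h2 : cntS T [w k] A = 1 := by
        unfold cntS
        rw [List.countP_cons_of_pos (by simpa using hk), List.countP_nil]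
      rw [h2]
    · rw [if_neg hk]
      have h2 : cntS T [w k] A = 0 := by
        unfold cntS
        rw [List.countP_cons_of_neg (by simpa using hk), List.countP_nil]
      rw [h2, Nat.add_zero]

theorem PW.cntS_at (h : PW T w l) (i : ℕ) (A : Set T.V) : cntS T (st w i l) A = {j | j < l ∧ T.tl (w j) ∈ A}.ncard := by
  obtain ⟨a, b, h1, h2⟩ := rot h i
  rw [← cntS_zero, h1, h2]
  unfold cntS
  rw [List.countP_append, List.countP_append, Nat.add_comm]

/-- Two times with the same vertex are congruent, if the vertex is visited at most once. -/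
theorem PW.nrep (h : PW T w l) {i j : ℕ} (h1 : cnt T (st w 0 l) (T.tl (w i)) < 2) (h2 : T.tl (w i) = T.tl (w j)) : i % l = j % l := by
  have h3 : cnt T (st w 0 l) (T.tl (w i)) = cntS T (st w 0 l) {T.tl (w i)} := by
    unfold cnt cntS
    congr 1
  rw [h3, cntS_zero] at h1
  have hfin : {j | j < l ∧ T.tl (w j) ∈ ({T.tl (w i)} : Set T.V)}.Finite :=
    (Set.finite_lt_nat l).subset fun j hj => hj.1
  have h4 := (Set.ncard_le_one hfin).1 (Nat.lt_succ_iff.1 h1)
  refine h4 _ ⟨Nat.mod_lt _ h.pos, ?_⟩ _ ⟨Nat.mod_lt _ h.pos, ?_⟩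
  · rw [w_mod h]
    rfl
  · rw [w_mod h, ← h2]
    rfl

theorem Mzw.qg (hT : T.Conn) (h : Mzw T w l) {i k : ℕ} (hk : k ≤ l) {c : List D}
    (hc : T.IsWalk (T.tl (w i)) c (T.tl (w (i + k))))
    (hh : ∀ (G : Type) (_ : Group G) (lab : D → G), Flat T lab → hol lab (st w i k) = hol lab c) : 8 * k ≤ 9 * c.length := by
  have h1 := h.mz_at hT i
  have h2 := st_add w i k (l - k)
  rw [Nat.add_sub_cancel' hk] at h2
  have hr : T.IsWalk (T.tl (w (i + k))) (st w (i + k) (l - k)) (T.tl (w i)) := by
    have h3 := h.toPW.st_walk (i + k) (l - k)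
    have h4 : i + k + (l - k) = i + l := by omega
    rw [h4, h.per] at h3
    exact h3
  obtain ⟨e1, e2, e3⟩ := h1.1
  rw [h2] at e1 e2 e3
  obtain ⟨f1, f2, f3⟩ := sct hT (p := []) (s := st w i k) (r := st w (i + k) (l - k)) (c := c)
    (show T.IsWalk (T.tl (w i)) [] (T.tl (w i)) from rfl) (h.toPW.st_walk i k) hr hc hh e2 e3
  have h5 := h1.2 (c ++ st w (i + k) (l - k)) ⟨f1, f2, f3⟩
  have h6 := en_add T (st w i l)
  have h7 := en_add T (c ++ st w (i + k) (l - k))
  have h8 := vis_append T (st w i k) (st w (i + k) (l - k))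
  have h9 := vis_le T (st w i k)
  have h10 : vis T (st w (i + k) (l - k)) ≤ vis T (c ++ st w (i + k) (l - k)) :=
    vis_mono T fun d hd => ⟨d, List.mem_append_right _ hd, rfl⟩
  rw [List.length_append, st_length] at h7
  rw [st_length] at h6 h9
  rw [← h2] at h8
  omega

end SYS.GS
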