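import Pool.Agent.SYS.GS.Defs

/-!
# SYS-GS-Pth: a simple path gives a slit

PROOF. `K = P.length > 0`. `zOf i = P[i]` for `i < K` and `T.a P[2 K - 1 - i]` for `K ≤ i < 2 K`. `walk_get`: for a walk `T.hd P[i] = T.tl P[i + 1]`, `T.tl P[0] = u`, `T.hd P[K - 1] = v` (see `mn_walk` in `LP/Main.lean`). So `T.tl (zOf i) = y i` for `i ≤ K` (`y i = T.tl P[i]` for `i < K`, `y K = v`) and `T.tl (zOf j) = T.hd P[2 K - 1 - j] = y (2 K - j)` for `j ≥ K`;
`y 0, …, y K` are different (`hnd`: `List.nodup_iff_injective_get`-like, `List.getElem_append`). `tl`: cases `i, j ≤ K` or `≥ K`. `inj`: `zOf i = zOf j` gives equal tails, so `i = j` or `i + j = 2 K`; in the second case with `i < K < j`: `T.hd (zOf i) = y (i + 1)`, `T.hd (zOf j) = T.tl P[2 K - 1 - j] = y (2 K - 1 - j) = y (i - 1)` (for `i ≥ 1`; `i = 0` gives `j = 2 K`, impossible), different.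
`rv`: `T.a (P[i]) = zOf (2 K - 1 - i)`, `Fin.rev i = 2 K - 1 - i` (`Fin.val_rev`), `T.aa`. `range_zOf`, `VZ_zOf`: the descriptions of the darts and of the vertices.
-/

namespace SYS.GS

open Classical SST GNH

variable {D : Type} {T : Tri D}

private theorem pt_walk (T : Tri D) (W : List D) : ∀ u v : T.V, T.IsWalk u W v →
    (∀ (i : ℕ) (h : i + 1 < W.length), T.hd W[i] = T.tl W[i + 1]) ∧
      ∀ h : 0 < W.length, T.tl W[0] = u ∧ T.hd (W[W.length - 1]'(by omega)) = v := by
  induction W with
  | nil =>
    intro u v _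
    exact ⟨fun i h => absurd h (by simp), fun h => absurd h (by simp)⟩
  | cons d c ih =>
    intro u v h
    obtain ⟨h1, h2⟩ := ih _ _ h.2
    refine ⟨fun i hi => ?_, fun _ => ⟨h.1, ?_⟩⟩
    · cases i with
      | zero =>
        have h3 : 0 < c.length := by
          simp only [List.length_cons] at hi
          omega
        exact (h2 h3).1.symm
      | succ i =>
        have h3 : i + 1 < c.length := by
          simp only [List.length_cons] at hi
          omega
        exact h1 i h3
    · cases c with
      | nil =>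
        exact h.2
      | cons e c =>
        exact (h2 (by simp)).2

/-- the vertices of the path -/
private noncomputable def yy (T : Tri D) (P : List D) (v : T.V) (i : ℕ) : T.V :=
  if h : i < P.length then T.tl P[i] else v

private theorem yy_lt {v : T.V} {P : List D} {i : ℕ} (h : i < P.length) : yy T P v i = T.tl P[i] :=
  dif_pos h

private theorem yy_len {v : T.V} {P : List D} : yy T P v P.length = v := dif_neg (lt_irrefl _)

private theorem hd_yy {u v : T.V} {P : List D} (hP : T.IsWalk u P v) {i : ℕ} (h : i < P.length) :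
    T.hd P[i] = yy T P v (i + 1) := by
  obtain ⟨h1, h2⟩ := pt_walk T P u v hP
  rcases Nat.lt_or_ge (i + 1) P.length with h3 | h3
  · rw [yy_lt h3, h1 i h3]
  · have h4 : i + 1 = P.length := by omega
    rw [h4, yy_len, ← (h2 (by omega)).2]
    congr 2
    omega

private theorem yy_inj {v : T.V} {P : List D} (hnd : (P.map T.tl ++ [v]).Nodup) {i j : ℕ}
    (hi : i ≤ P.length) (hj : j ≤ P.length) (h : yy T P v i = yy T P v j) : i = j := by
  have hl : (P.map T.tl ++ [v]).length = P.length + 1 := by simp
  have hg : ∀ (i : ℕ) (hi : i ≤ P.length), (P.map T.tl ++ [v])[i]'(by omega) = yy T P v i := by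
    intro i hi
    rcases Nat.lt_or_ge i P.length with h1 | h1
    · rw [List.getElem_append_left (by simpa using h1), List.getElem_map, yy_lt h1]
    · have h2 : i = P.length := by omega
      subst h2
      rw [List.getElem_append_right (by simp), yy_len]
      simp
  rw [← hg i hi, ← hg j hj] at h
  exact (hnd.getElem_inj_iff).1 h

private theorem zOf_lt (T : Tri D) (P : List D) {i : Fin (2 * P.length)} (h : i.val < P.length) :
    zOf T P i = P[i.val] := dif_pos h

private theorem zOf_ge (T : Tri D) (P : List D) {i : Fin (2 * P.length)} {j : ℕ} (hj : j < P.length)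
    (h : i.val + j + 1 = 2 * P.length) : zOf T P i = T.a P[j] := by
  unfold zOf
  rw [dif_neg (by omega)]
  congr 2
  omega

private theorem tl_zOf {u v : T.V} {P : List D} (hP : T.IsWalk u P v) (i : Fin (2 * P.length)) :
    T.tl (zOf T P i) = yy T P v (min i.val (2 * P.length - i.val)) := by
  have hi := i.isLt
  rcases Nat.lt_or_ge i.val P.length with h | h
  · rw [zOf_lt T P h, Nat.min_eq_left (by omega), yy_lt h]
  · have hj : 2 * P.length - 1 - i.val < P.length := by omega
    rw [zOf_ge T P hj (by omega)]
    show T.hd P[2 * P.length - 1 - i.val] = _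
    rw [hd_yy hP hj, Nat.min_eq_right (by omega)]
    congr 1
    omega

private theorem hd_zOf_lt {u v : T.V} {P : List D} (hP : T.IsWalk u P v) (i : Fin (2 * P.length))
    (h : i.val < P.length) : T.hd (zOf T P i) = yy T P v (i.val + 1) := by
  rw [zOf_lt T P h, hd_yy hP h]

private theorem hd_zOf_ge {v : T.V} {P : List D} (i : Fin (2 * P.length))
    (h : P.length ≤ i.val) : T.hd (zOf T P i) = yy T P v (2 * P.length - 1 - i.val) := by
  have hi := i.isLt
  have hj : 2 * P.length - 1 - i.val < P.length := by omega
  rw [zOf_ge T P hj (by omega)]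
  show T.tl (T.a (T.a _)) = _
  rw [T.aa, yy_lt hj]

theorem slit_of_path {u v : T.V} {P : List D} (hP : T.IsWalk u P v) (hne : P ≠ []) (hnd : (P.map T.tl ++ [v]).Nodup) :
    Slit T P.length (zOf T P) := by
  have hK : 0 < P.length := List.length_pos_iff.2 hne
  have htl : ∀ i j : Fin (2 * P.length), T.tl (zOf T P i) = T.tl (zOf T P j) ↔
      (i = j ∨ i.val + j.val = 2 * P.length) := by
    intro i j
    have hi := i.isLt
    have hj := j.isLt
    rw [tl_zOf hP, tl_zOf hP]
    constructor
    · intro h
      have h1 := yy_inj hnd (by omega) (by omega) h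
      rcases Nat.lt_trichotomy i.val j.val with h2 | h2 | h2
      · right
        omega
      · left
        exact Fin.ext h2
      · right
        omega
    · rintro (rfl | h)
      · rfl
      · congr 1
        omega
  have key : ∀ i j : Fin (2 * P.length), i.val < j.val → zOf T P i = zOf T P j → False := by
    intro i j hij h
    have hi := i.isLt
    have hj := j.isLt
    have h1 := (htl i j).1 (by rw [h])
    rcases h1 with h1 | h1
    · rw [h1] at hij
      exact lt_irrefl _ hij
    · have h2 := hd_zOf_lt hP i (by omega)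
      have h3 := hd_zOf_ge (v := v) j (by omega)
      rw [h, h3] at h2
      have h4 := yy_inj hnd (by omega) (by omega) h2
      omega
  refine ⟨hK, ?_, ?_, htl⟩
  · intro i j h
    rcases Nat.lt_trichotomy i.val j.val with h2 | h2 | h2
    · exact (key i j h2 h).elim
    · exact Fin.ext h2
    · exact (key j i h2 h.symm).elim
  · intro i
    have hi := i.isLt
    have hr : i.rev.val = 2 * P.length - (i.val + 1) := Fin.val_rev i
    rcases Nat.lt_or_ge i.val P.length with h | h
    · rw [zOf_lt T P h, zOf_ge T P (i := i.rev) h (by omega)]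
    · have hj : 2 * P.length - 1 - i.val < P.length := by omega
      rw [zOf_ge T P hj (by omega), T.aa, zOf_lt T P (by omega)]
      congr 1
      omega

theorem range_zOf (T : Tri D) (P : List D) {d : D} : d ∈ Set.range (zOf T P) ↔ d ∈ P ∨ T.a d ∈ P := by
  constructor
  · rintro ⟨i, rfl⟩
    have hi := i.isLt
    rcases Nat.lt_or_ge i.val P.length with h | h
    · left
      rw [zOf_lt T P h]
      exact List.getElem_mem h
    · right
      have hj : 2 * P.length - 1 - i.val < P.length := by omega
      rw [zOf_ge T P hj (by omega), T.aa]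
      exact List.getElem_mem hj
  · rintro (h | h)
    · obtain ⟨j, hj, rfl⟩ := List.getElem_of_mem h
      exact ⟨⟨j, by omega⟩, zOf_lt T P (i := ⟨j, by omega⟩) hj⟩
    · obtain ⟨j, hj, h1⟩ := List.getElem_of_mem h
      refine ⟨⟨2 * P.length - 1 - j, by omega⟩, ?_⟩
      rw [zOf_ge T P (i := ⟨2 * P.length - 1 - j, by omega⟩) hj (by
        show 2 * P.length - 1 - j + j + 1 = 2 * P.length
        omega), h1, T.aa]

theorem VZ_zOf {u v : T.V} {P : List D} (hP : T.IsWalk u P v) (hne : P ≠ []) {y : T.V} :
    y ∈ VZ T (zOf T P) ↔ y = v ∨ ∃ d ∈ P, T.tl d = y := by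
  have hK : 0 < P.length := List.length_pos_iff.2 hne
  constructor
  · rintro ⟨i, rfl⟩
    have hi := i.isLt
    show T.tl (zOf T P i) = v ∨ ∃ d ∈ P, T.tl d = T.tl (zOf T P i)
    rw [tl_zOf hP]
    rcases Nat.lt_or_ge (min i.val (2 * P.length - i.val)) P.length with h | h
    · right
      exact ⟨_, List.getElem_mem h, (yy_lt h).symm⟩
    · left
      have h1 : min i.val (2 * P.length - i.val) = P.length := by omega
      rw [h1, yy_len]
  · rintro (rfl | ⟨d, hd, rfl⟩)
    · refine ⟨⟨P.length, by omega⟩, ?_⟩
      show T.tl (zOf T P ⟨P.length, by omega⟩) = y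
      rw [tl_zOf hP]
      have h1 : min P.length (2 * P.length - P.length) = P.length := by omega
      show yy T P y (min P.length (2 * P.length - P.length)) = y
      rw [h1, yy_len]
    · obtain ⟨j, hj, rfl⟩ := List.getElem_of_mem hd
      refine ⟨⟨j, by omega⟩, ?_⟩
      show T.tl (zOf T P ⟨j, by omega⟩) = _
      rw [zOf_lt T P (i := ⟨j, by omega⟩) hj]

end SYS.GS
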