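import Pool.Agent.SYS.GS.LiftA
import Pool.Agent.SYS.GS.LiftB

/-!
# SYS-GS-Two: every minimizer of the cone visits the apex at least twice
-/

namespace SYS.GS

open Classical SST GNH

variable {D : Type} {T : Tri D} {k : ℕ} {z : Fin (2 * k) → D}

theorem cone_two [Finite D] (hT : T.Conn) (h : Slit T k z) {α s1 β s2 : List D} (hM : Mzr T (α ++ s1 ++ β ++ s2))
    (hα : ∀ d ∈ α, d ∈ Set.range z) (hβ : ∀ d ∈ β, d ∈ Set.range z) (hα0 : α ≠ []) (hβ0 : β ≠ []) {g t : ℕ}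
    (hk : k = α.length + β.length + g) (hg : g ≤ t) (ht : 1 ≤ t) (hbig : 20 * t ≤ α.length + β.length)
    (hq : cntS T (s1 ++ s2) (VZ T z) ≤ g + 1)
    (hw : ∀ u ∈ VZ T z, ∀ v ∈ VZ T z, ∃ c, T.IsWalk u c v ∧ 2 * c.length ≤ k + t ∧
      ∀ (G : Type) (_ : Group G) (lab : D → G), Flat T lab → Tz z lab → hol lab c = 1) :
    (∃ c', Mzr (cone T h) c') ∧ ∀ c', Mzr (cone T h) c' → 2 ≤ cnt (cone T h) c' (apx h) ∧
      En (cone T h) c' ≤ En T (α ++ s1 ++ β ++ s2) := by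
  obtain ⟨c1, h1, h2⟩ := liftA hT h hM.1 hα hβ hα0 hβ0
  have h3 : En (cone T h) c1 + 9 * (α.length + β.length) ≤ En T (α ++ s1 ++ β ++ s2) + 18 * (g + 1) + k :=
    h2.trans (by omega)
  refine ⟨exists_mzr h1, fun c' hc' => ?_⟩
  have h4 := hc'.2 c1 h1
  refine ⟨?_, by omega⟩
  by_contra hcon
  have h5 : cnt (cone T h) c' (apx h) ≤ 1 := by omega
  have hw' : ∀ u ∈ VZ T z, ∀ v ∈ VZ T z, ∃ c, T.IsWalk u c v ∧ c.length ≤ (k + t) / 2 ∧
      ∀ (G : Type) (_ : Group G) (lab : D → G), Flat T lab → Tz z lab → hol lab c = 1 := by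
    intro u hu v hv
    obtain ⟨c, ha, hb, hc⟩ := hw u hu v hv
    exact ⟨c, ha, by omega, hc⟩
  obtain ⟨c, hc, hce⟩ := liftB hT h hw' hc'.1 h5
  have h6 := hM.2 c hc
  omega

end SYS.GS
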